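import Mathlib
import Pool.Agent.Helper854_QC.B

/-! The kernel of the ball multiplier in space. -/

set_option autoImplicit false

open MeasureTheory Real Set Filter Topology
open scoped ENNReal NNReal RealInnerProductSpace

namespace Pool.Agent.Helper854_Q3

open Pool.Agent.Helper854_QC (E2 ceq ceq_apply ceq_mp norm_sq_coord)

/-- space -/
abbrev E3 := EuclideanSpace ℝ (Fin 3)

/-- coordinates in an orthonormal basis -/
noncomputable def ceq3 (b : OrthonormalBasis (Fin 3) ℝ E3) : E3 ≃ᵐ ℝ × (ℝ × ℝ) :=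
  b.measurableEquiv.trans ((MeasurableEquiv.toLp 2 (Fin 3 → ℝ)).symm.trans
    ((MeasurableEquiv.piFinSuccAbove (fun _ : Fin 3 => ℝ) 0).trans
      ((MeasurableEquiv.refl ℝ).prodCongr (MeasurableEquiv.finTwoArrow (α := ℝ)))))

lemma ceq3_apply (b : OrthonormalBasis (Fin 3) ℝ E3) (y : E3) :
    ceq3 b y = (⟪b 0, y⟫, (⟪b 1, y⟫, ⟪b 2, y⟫)) := by
  have h0 : b.repr y 0 = ⟪b 0, y⟫ := b.repr_apply_apply y 0
  have h1 : b.repr y 1 = ⟪b 1, y⟫ := b.repr_apply_apply y 1
  have h2 : b.repr y 2 = ⟪b 2, y⟫ := b.repr_apply_apply y 2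
  rw [← h0, ← h1, ← h2]
  rfl

lemma ceq3_mp (b : OrthonormalBasis (Fin 3) ℝ E3) : MeasurePreserving (ceq3 b) volume volume := by
  have h1 : MeasurePreserving (MeasurableEquiv.piFinSuccAbove (fun _ : Fin 3 => ℝ) 0)
      volume volume := volume_preserving_piFinSuccAbove (fun _ : Fin 3 => ℝ) 0
  have h2 : MeasurePreserving ((MeasurableEquiv.refl ℝ).prodCongr
      (MeasurableEquiv.finTwoArrow (α := ℝ))) volume volume :=
    (MeasurePreserving.id (volume : Measure ℝ)).prod (volume_preserving_finTwoArrow ℝ)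
  exact (h2.comp (h1.comp
    (EuclideanSpace.volume_preserving_symm_measurableEquiv_toLp (Fin 3)))).comp
    b.measurePreserving_measurableEquiv

lemma norm_sq_coord3 (b : OrthonormalBasis (Fin 3) ℝ E3) (y : E3) :
    ‖y‖ ^ 2 = ⟪b 0, y⟫ ^ 2 + ⟪b 1, y⟫ ^ 2 + ⟪b 2, y⟫ ^ 2 := by
  have h := b.repr.norm_map y
  rw [← h, EuclideanSpace.norm_sq_eq, Fin.sum_univ_three, b.repr_apply_apply, b.repr_apply_apply,
    b.repr_apply_apply]
  simp only [Real.norm_eq_abs, sq_abs]

lemma exists_basis1 {e : E3} (he : ‖e‖ = 1) : ∃ b : OrthonormalBasis (Fin 3) ℝ E3, b 0 = e := by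
  have hv : Orthonormal ℝ (({0} : Set (Fin 3)).domRestrict (fun _ : Fin 3 => e)) := by
    refine ⟨fun i => he, fun i j hij => ?_⟩
    exact absurd (Subtype.ext (by rw [mem_singleton_iff.1 i.2, mem_singleton_iff.1 j.2])) hij
  obtain ⟨b, hb⟩ := hv.exists_orthonormalBasis_extension_of_card_eq (by simp)
  exact ⟨b, hb 0 rfl⟩

lemma exists_basis2 {e f : E3} (he : ‖e‖ = 1) (hf : ‖f‖ = 1) (hef : ⟪e, f⟫ = 0) :
    ∃ b : OrthonormalBasis (Fin 3) ℝ E3, b 0 = e ∧ b 1 = f := by
  have hv : Orthonormal ℝ (({0, 1} : Set (Fin 3)).domRestrict (![e, f, 0] : Fin 3 → E3)) := by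
    constructor
    · rintro ⟨i, hi⟩
      rcases hi with rfl | hi
      · exact he
      · rw [mem_singleton_iff] at hi; subst hi; exact hf
    · rintro ⟨i, hi⟩ ⟨j, hj⟩ hij
      rcases hi with rfl | hi
      · rcases hj with rfl | hj
        · exact absurd rfl hij
        · rw [mem_singleton_iff] at hj; subst hj; exact hef
      · rw [mem_singleton_iff] at hi; subst hi
        rcases hj with rfl | hj
        · change ⟪f, e⟫ = 0
          rw [real_inner_comm]; exact hef
        · rw [mem_singleton_iff] at hj; subst hj; exact absurd rfl hij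
  obtain ⟨b, hb⟩ := hv.exists_orthonormalBasis_extension_of_card_eq (by simp)
  exact ⟨b, hb 0 (by simp), hb 1 (by simp)⟩

/-- the kernel of the ball multiplier -/
noncomputable def Dk3 (R : ℝ) (x : E3) : ℂ :=
  ∫ ξ in Metric.closedBall (0 : E3) R, Complex.exp (2 * π * Complex.I * ((⟪x, ξ⟫ : ℝ) : ℂ))

/-- its profile -/
noncomputable def gk3 (R r : ℝ) : ℝ := R * (sinc (2 * π * R * r) - cos (2 * π * R * r)) / (π * r ^ 2)

lemma disc_vol {ρ : ℝ} (_hρ : 0 ≤ ρ) :
    volume {q : ℝ × ℝ | q.1 ^ 2 + q.2 ^ 2 ≤ ρ ^ 2} = ENNReal.ofReal (π * ρ ^ 2) := by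
  obtain ⟨b, -⟩ := Pool.Agent.Helper854_QC.exists_basis (e := EuclideanSpace.single 0 1) (by simp)
  have hm : MeasurableSet {q : ℝ × ℝ | q.1 ^ 2 + q.2 ^ 2 ≤ ρ ^ 2} :=
    (isClosed_le (by fun_prop) (by fun_prop)).measurableSet
  rw [← (ceq_mp b).measure_preimage hm.nullMeasurableSet]
  have : (ceq b) ⁻¹' {q : ℝ × ℝ | q.1 ^ 2 + q.2 ^ 2 ≤ ρ ^ 2} = Metric.closedBall (0 : E2) ρ := by
    ext y
    rw [mem_preimage, ceq_apply, mem_ofPred_eq, mem_closedBall_zero_iff, ← norm_sq_coord b y]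
    exact sq_le_sq₀ (norm_nonneg _) _hρ
  rw [this, EuclideanSpace.volume_closedBall_fin_two, ENNReal.ofReal_mul pi_pos.le,
    ENNReal.ofReal_pow _hρ, mul_comm]

lemma Dk3_eq {R : ℝ} (hR : 0 < R) {x : E3} (hx : x ≠ 0) : Dk3 R x = ((gk3 R ‖x‖ : ℝ) : ℂ) := by
  have hx0 : 0 < ‖x‖ := norm_pos_iff.2 hx
  obtain ⟨b, hb⟩ := exists_basis1 (e := ‖x‖⁻¹ • x) (by
    rw [norm_smul, norm_inv, norm_norm, inv_mul_cancel₀ hx0.ne'])
  have hin : ∀ ξ : E3, ⟪x, ξ⟫ = ‖x‖ * ⟪b 0, ξ⟫ := by
    intro ξ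
    rw [hb, real_inner_smul_left, ← mul_assoc, mul_inv_cancel₀ hx0.ne', one_mul]
  set s : ℝ := ‖x‖ with hs
  set Sb : Set (ℝ × (ℝ × ℝ)) := {z | z.1 ^ 2 + (z.2.1 ^ 2 + z.2.2 ^ 2) ≤ R ^ 2} with hSb
  set F : ℝ × (ℝ × ℝ) → ℂ := Sb.indicator
    (fun z => Complex.exp (2 * π * Complex.I * ((s * z.1 : ℝ) : ℂ))) with hF
  have hSm : MeasurableSet Sb := (isClosed_le (by fun_prop) (by fun_prop)).measurableSet
  have hmem : ∀ ξ : E3, ξ ∈ Metric.closedBall (0 : E3) R ↔ ceq3 b ξ ∈ Sb := by
    intro ξ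
    rw [ceq3_apply, mem_closedBall_zero_iff, hSb, mem_ofPred_eq]
    simp only
    rw [← add_assoc, ← norm_sq_coord3 b ξ]
    exact (sq_le_sq₀ (norm_nonneg _) hR.le).symm
  have e1 : Dk3 R x = ∫ z, F z := by
    rw [← (ceq3_mp b).integral_comp' F, Dk3, ← integral_indicator Metric.isClosed_closedBall.measurableSet]
    refine integral_congr_ae (Eventually.of_forall fun ξ => ?_)
    simp only [hF]
    by_cases h : ξ ∈ Metric.closedBall (0 : E3) R
    · rw [indicator_of_mem h, indicator_of_mem ((hmem ξ).1 h), ceq3_apply, hin ξ]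
    · rw [indicator_of_notMem h, indicator_of_notMem (fun h' => h ((hmem ξ).2 h'))]
  have hfin : volume Sb < ⊤ := by
    have h1 := (ceq3_mp b).measure_preimage hSm.nullMeasurableSet
    rw [← h1]
    have : (ceq3 b) ⁻¹' Sb = Metric.closedBall (0 : E3) R := by
      ext ξ; rw [mem_preimage]; exact (hmem ξ).symm
    rw [this]
    exact Metric.isBounded_closedBall.measure_lt_top
  have hFi : Integrable F := by
    rw [hF, integrable_indicator_iff hSm]
    refine Measure.integrableOn_of_bounded (M := 1) hfin.ne ?_ ?_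
    · exact (by fun_prop : Continuous fun z : ℝ × (ℝ × ℝ) =>
        Complex.exp (2 * π * Complex.I * ((s * z.1 : ℝ) : ℂ))).aestronglyMeasurable
    · refine Eventually.of_forall fun z => ?_
      rw [show 2 * (π : ℂ) * Complex.I * ((s * z.1 : ℝ) : ℂ)
        = ((2 * π * (s * z.1) : ℝ) : ℂ) * Complex.I by push_cast; ring]
      exact (Complex.norm_exp_ofReal_mul_I _).le
  set w : ℝ → ℝ := (Icc (-R) R).indicator (fun a => π * (R ^ 2 - a ^ 2)) with hw
  have e2 : ∫ z, F z = ∫ a : ℝ, ((w a : ℝ) : ℂ) *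
      Complex.exp (2 * π * Complex.I * ((s * a : ℝ) : ℂ)) := by
    rw [Measure.volume_eq_prod, integral_prod _ hFi]
    refine integral_congr_ae (Eventually.of_forall fun a => ?_)
    simp only [hF]
    have h1 : (fun q : ℝ × ℝ => Sb.indicator
        (fun z => Complex.exp (2 * π * Complex.I * ((s * z.1 : ℝ) : ℂ))) (a, q))
        = {q : ℝ × ℝ | a ^ 2 + (q.1 ^ 2 + q.2 ^ 2) ≤ R ^ 2}.indicator
          (fun _ => Complex.exp (2 * π * Complex.I * ((s * a : ℝ) : ℂ))) := by
      funext q; rfl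
    rw [h1, integral_indicator (isClosed_le (by fun_prop) (by fun_prop)).measurableSet,
      setIntegral_const, Complex.real_smul]
    congr 2
    rw [measureReal_def]
    by_cases h2 : a ∈ Icc (-R) R
    · have h2' : a ^ 2 ≤ R ^ 2 := sq_le_sq' h2.1 h2.2
      have h3 : {q : ℝ × ℝ | a ^ 2 + (q.1 ^ 2 + q.2 ^ 2) ≤ R ^ 2} =
          {q : ℝ × ℝ | q.1 ^ 2 + q.2 ^ 2 ≤ √(R ^ 2 - a ^ 2) ^ 2} := by
        ext q
        simp only [mem_ofPred_eq]
        rw [sq_sqrt (by linarith)]
        constructor <;> intro h <;> linarith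
      rw [h3, disc_vol (sqrt_nonneg _), sq_sqrt (by linarith), hw, indicator_of_mem h2,
        ENNReal.toReal_ofReal (by have := pi_pos; have : 0 ≤ R ^ 2 - a ^ 2 := by linarith
                                  positivity)]
    · have h3 : {q : ℝ × ℝ | a ^ 2 + (q.1 ^ 2 + q.2 ^ 2) ≤ R ^ 2} = ∅ := by
        ext q
        simp only [mem_ofPred_eq, mem_empty_iff_false, iff_false, not_le]
        have : R ^ 2 < a ^ 2 := by
          by_contra hc
          rw [not_lt] at hc
          exact h2 (abs_le.1 (abs_le_of_sq_le_sq hc hR.le))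
        nlinarith [sq_nonneg q.1, sq_nonneg q.2]
      rw [h3, measure_empty, hw, indicator_of_notMem h2]
      simp
  have icos : Integrable fun a : ℝ => w a * cos (2 * π * (s * a)) := by
    have h1 : (fun a : ℝ => w a * cos (2 * π * (s * a))) = (Icc (-R) R).indicator
        (fun a => π * (R ^ 2 - a ^ 2) * cos (2 * π * (s * a))) := by
      funext a
      rw [hw]
      by_cases h : a ∈ Icc (-R) R
      · rw [indicator_of_mem h, indicator_of_mem h]
      · rw [indicator_of_notMem h, indicator_of_notMem h, zero_mul]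
    rw [h1, integrable_indicator_iff measurableSet_Icc]
    exact (by fun_prop : Continuous fun a : ℝ =>
      π * (R ^ 2 - a ^ 2) * cos (2 * π * (s * a))).continuousOn.integrableOn_Icc
  have isin : Integrable fun a : ℝ => w a * sin (2 * π * (s * a)) := by
    have h1 : (fun a : ℝ => w a * sin (2 * π * (s * a))) = (Icc (-R) R).indicator
        (fun a => π * (R ^ 2 - a ^ 2) * sin (2 * π * (s * a))) := by
      funext a
      rw [hw]
      by_cases h : a ∈ Icc (-R) R
      · rw [indicator_of_mem h, indicator_of_mem h]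
      · rw [indicator_of_notMem h, indicator_of_notMem h, zero_mul]
    rw [h1, integrable_indicator_iff measurableSet_Icc]
    exact (by fun_prop : Continuous fun a : ℝ =>
      π * (R ^ 2 - a ^ 2) * sin (2 * π * (s * a))).continuousOn.integrableOn_Icc
  have e3 : ∫ a : ℝ, ((w a : ℝ) : ℂ) * Complex.exp (2 * π * Complex.I * ((s * a : ℝ) : ℂ))
      = ((∫ a : ℝ, w a * cos (2 * π * (s * a)) : ℝ) : ℂ)
        + ((∫ a : ℝ, w a * sin (2 * π * (s * a)) : ℝ) : ℂ) * Complex.I := by
    rw [← integral_complex_ofReal, ← integral_complex_ofReal, ← integral_mul_const,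
      ← integral_add icos.ofReal (isin.ofReal.mul_const _)]
    refine integral_congr_ae (Eventually.of_forall fun a => ?_)
    simp only
    rw [show 2 * (π : ℂ) * Complex.I * ((s * a : ℝ) : ℂ)
        = ((2 * π * (s * a) : ℝ) : ℂ) * Complex.I by push_cast; ring, Complex.exp_mul_I]
    push_cast
    ring
  have weven : ∀ a, w (-a) = w a := by
    intro a
    simp only [hw]
    by_cases h : a ∈ Icc (-R) R
    · rw [indicator_of_mem h, indicator_of_mem (by constructor <;> linarith [h.1, h.2]), neg_sq]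
    · rw [indicator_of_notMem h, indicator_of_notMem]
      intro h'
      exact h (by constructor <;> linarith [h'.1, h'.2])
  have e4 : ∫ a : ℝ, w a * sin (2 * π * (s * a)) = 0 := by
    have h1 := integral_neg_eq_self (fun a : ℝ => w a * sin (2 * π * (s * a))) volume
    have h2 : ∫ a : ℝ, w (-a) * sin (2 * π * (s * (-a)))
        = -∫ a : ℝ, w a * sin (2 * π * (s * a)) := by
      rw [← integral_neg]
      refine integral_congr_ae (Eventually.of_forall fun a => ?_)
      simp only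
      rw [weven, show 2 * π * (s * (-a)) = -(2 * π * (s * a)) by ring, sin_neg]
      ring
    rw [h2] at h1
    linarith
  have e5 : ∫ a : ℝ, w a * cos (2 * π * (s * a)) =
      ∫ a in (-R)..R, π * (R ^ 2 - a ^ 2) * cos (2 * π * s * a) := by
    rw [intervalIntegral.integral_of_le (by linarith), ← integral_Icc_eq_integral_Ioc,
      ← integral_indicator measurableSet_Icc]
    refine integral_congr_ae (Eventually.of_forall fun a => ?_)
    simp only [hw]
    by_cases h : a ∈ Icc (-R) R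
    · rw [indicator_of_mem h, indicator_of_mem h, mul_assoc (2 * π)]
    · rw [indicator_of_notMem h, indicator_of_notMem h, zero_mul]
  have hk : 0 < 2 * π * s := by have := pi_pos; positivity
  have e6 : ∫ a in (-R)..R, π * (R ^ 2 - a ^ 2) * cos (2 * π * s * a)
      = π * ((R ^ 2 - R ^ 2) * sin (2 * π * s * R) / (2 * π * s)
          - 2 * R * cos (2 * π * s * R) / (2 * π * s) ^ 2 + 2 * sin (2 * π * s * R) / (2 * π * s) ^ 3)
        - π * ((R ^ 2 - (-R) ^ 2) * sin (2 * π * s * (-R)) / (2 * π * s)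
          - 2 * (-R) * cos (2 * π * s * (-R)) / (2 * π * s) ^ 2 +
            2 * sin (2 * π * s * (-R)) / (2 * π * s) ^ 3) := by
    refine intervalIntegral.integral_eq_sub_of_hasDerivAt (f := fun a =>
      π * ((R ^ 2 - a ^ 2) * sin (2 * π * s * a) / (2 * π * s)
          - 2 * a * cos (2 * π * s * a) / (2 * π * s) ^ 2 + 2 * sin (2 * π * s * a) / (2 * π * s) ^ 3))
      (fun a _ => ?_) ((by fun_prop : Continuous fun a : ℝ =>
        π * (R ^ 2 - a ^ 2) * cos (2 * π * s * a)).intervalIntegrable _ _)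
    have h1 : HasDerivAt (fun a : ℝ => 2 * π * s * a) (2 * π * s * 1) a := (hasDerivAt_id a).const_mul _
    have h2 : HasDerivAt (fun a : ℝ => R ^ 2 - a ^ 2) (-(2 * a)) a := by
      simpa using (hasDerivAt_pow 2 a).const_sub (R ^ 2)
    have h3 : HasDerivAt (fun a : ℝ => 2 * a) (2 * 1) a := (hasDerivAt_id a).const_mul 2
    have h4 := ((((h2.mul h1.sin).div_const (2 * π * s)).sub
      ((h3.mul h1.cos).div_const ((2 * π * s) ^ 2))).add
        ((h1.sin.const_mul 2).div_const ((2 * π * s) ^ 3))).const_mul π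
    refine h4.congr_deriv ?_
    have := pi_pos
    have hs0 : (0 : ℝ) < s := hx0
    field_simp
    ring
  rw [e1, e2, e3, e4, e5, e6, gk3, sinc_of_ne_zero (by have := pi_pos; positivity)]
  rw [Complex.ofReal_zero, zero_mul, add_zero]
  congr 1
  rw [show 2 * π * s * (-R) = -(2 * π * s * R) by ring, sin_neg, cos_neg,
    show 2 * π * R * s = 2 * π * s * R by ring]
  have := pi_pos
  have hs0 : (0 : ℝ) < s := hx0
  field_simp
  ring

end Pool.Agent.Helper854_Q3
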