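import Mathlib
import Pool.Agent.Helper854_Q3.B
import Pool.Agent.Helper854_QC.D

/-! Integrals of the kernel along rays and chords, in space. -/

set_option autoImplicit false

open MeasureTheory Real Set Filter Topology
open scoped ENNReal NNReal RealInnerProductSpace

namespace Pool.Agent.Helper854_Q3

open Pool.Agent.Helper854_QC (NInt ord_ae nint_bound int_le)

lemma sub_le_sq (u : ℝ) : |sinc u - cos u| ≤ u ^ 2 := by
  have h1 : |1 - cos u| ≤ u ^ 2 / 2 := by
    rw [abs_of_nonneg (by linarith [cos_le_one u])]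
    have := one_sub_sq_div_two_le_cos (x := u)
    linarith
  have h2 : |sinc u - 1| ≤ u ^ 2 / 2 := by
    rw [abs_sub_comm, abs_of_nonneg (by linarith [sinc_le_one u])]
    rcases eq_or_ne u 0 with rfl | hu
    · simp
    · have key : ∀ v : ℝ, 0 < v → 1 - sinc v ≤ v ^ 2 / 2 := by
        intro v hv
        rw [sinc_of_ne_zero hv.ne']
        have h3 : v - v ^ 3 / 6 ≤ sin v := (sin_gt_sub_cube hv).le
        have h4 : (v - v ^ 3 / 6) / v ≤ sin v / v := by gcongr
        have h5 : (v - v ^ 3 / 6) / v = 1 - v ^ 2 / 6 := by field_simp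
        nlinarith [sq_nonneg v]
      rcases lt_or_gt_of_ne hu with h | h
      · have := key (-u) (by linarith)
        rwa [sinc_neg, neg_sq] at this
      · exact key u h
  have h3 : sinc u - cos u = (sinc u - 1) + (1 - cos u) := by ring
  rw [h3]
  refine (abs_add_le _ _).trans ?_
  linarith

lemma gk3_meas (R : ℝ) : Measurable (gk3 R) := by
  unfold gk3
  have h1 : Measurable fun r : ℝ => sinc (2 * π * R * r) :=
    (continuous_sinc.comp (by fun_prop)).measurable
  fun_prop

lemma gk3_le_const {R : ℝ} (hR : 0 < R) (r : ℝ) : |gk3 R r| ≤ 4 * π * R ^ 3 := by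
  have hpi := pi_pos
  rcases eq_or_ne r 0 with rfl | hr
  · simp only [gk3]
    simp only [ne_eq, OfNat.ofNat_ne_zero, not_false_eq_true, zero_pow, mul_zero, div_zero, abs_zero]
    positivity
  · have h := sub_le_sq (2 * π * R * r)
    have hr' : 0 < r ^ 2 := by positivity
    rw [gk3, abs_div, abs_mul, abs_of_pos hR, abs_of_pos (by positivity : 0 < π * r ^ 2),
      div_le_iff₀ (by positivity)]
    calc R * |sinc (2 * π * R * r) - cos (2 * π * R * r)| ≤ R * (2 * π * R * r) ^ 2 := by gcongr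
      _ = 4 * π * R ^ 3 * (π * r ^ 2) := by ring

lemma gk3_le {R r : ℝ} (hR : 0 < R) (hr : 0 < r) : |gk3 R r| ≤ R / r ^ 2 := by
  have hpi := pi_pos
  have h : |sinc (2 * π * R * r) - cos (2 * π * R * r)| ≤ 2 := by
    refine (abs_sub _ _).trans ?_
    have h1 := abs_sinc_le_one (2 * π * R * r)
    have h2 := abs_cos_le_one (2 * π * R * r)
    linarith
  rw [gk3, abs_div, abs_mul, abs_of_pos hR, abs_of_pos (by positivity : 0 < π * r ^ 2),
    div_le_div_iff₀ (by positivity) (by positivity)]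
  have h3 : 0 < r ^ 2 := by positivity
  have h4 : 2 ≤ π := by linarith [pi_gt_three]
  calc R * |sinc (2 * π * R * r) - cos (2 * π * R * r)| * r ^ 2 ≤ R * π * r ^ 2 := by
        gcongr; linarith
    _ = R * (π * r ^ 2) := by ring

/-- the integral of `sinc` -/
lemma sinc_int {a b : ℝ} (ha : 0 ≤ a) (hab : a ≤ b) : |∫ u in a..b, sinc u| ≤ 3 := by
  have ii : ∀ c d : ℝ, IntervalIntegrable sinc volume c d := fun c d =>
    continuous_sinc.intervalIntegrable c d
  have near : ∀ c d : ℝ, c ≤ d → d - c ≤ 1 → |∫ u in c..d, sinc u| ≤ 1 := by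
    intro c d hcd h1
    have := int_le (f := sinc) (C := 1) hcd fun θ _ => abs_sinc_le_one θ
    linarith
  have far : ∀ c d : ℝ, 1 ≤ c → c ≤ d → |∫ u in c..d, sinc u| ≤ 2 := by
    intro c d hc hcd
    have hI : uIcc c d = Icc c d := uIcc_of_le hcd
    have hc0 : 0 < c := by linarith
    have hd0 : 0 < d := by linarith
    have cQ : ContinuousOn (fun u => cos u / u ^ 2) (uIcc c d) := by
      refine ContinuousOn.div (by fun_prop) (by fun_prop) fun s hs => ?_
      rw [hI] at hs
      have : 0 < s := hc0.trans_le hs.1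
      positivity
    have key : ∫ u in c..d, (sinc u + cos u / u ^ 2) = -(cos d / d) - -(cos c / c) := by
      refine intervalIntegral.integral_eq_sub_of_hasDerivAt (f := fun u => -(cos u / u))
        (fun s hs => ?_) ((continuous_sinc.continuousOn).add cQ).intervalIntegrable
      rw [hI] at hs
      have hs0 : 0 < s := hc0.trans_le hs.1
      refine (((hasDerivAt_cos s).div (hasDerivAt_id s) hs0.ne').neg).congr_deriv ?_
      rw [sinc_of_ne_zero hs0.ne']
      simp only [id]
      field_simp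
      ring
    rw [intervalIntegral.integral_add (ii _ _) cQ.intervalIntegrable] at key
    have hQ : |∫ u in c..d, cos u / u ^ 2| ≤ 1 / c - 1 / d := by
      have h1 : ∫ u in c..d, 1 / u ^ 2 = -(1 / d) - -(1 / c) := by
        refine intervalIntegral.integral_eq_sub_of_hasDerivAt (f := fun s => -(1 / s))
          (fun s hs => ?_) ?_
        · rw [hI] at hs
          have hs0 : s ≠ 0 := (hc0.trans_le hs.1).ne'
          have := (hasDerivAt_inv hs0).neg
          simp only [one_div]
          refine this.congr_deriv ?_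
          ring
        · refine ContinuousOn.intervalIntegrable ?_
          refine ContinuousOn.div (by fun_prop) (by fun_prop) fun s hs => ?_
          rw [hI] at hs
          have : 0 < s := hc0.trans_le hs.1
          positivity
      have h2 : 1 / c - 1 / d = ∫ u in c..d, 1 / u ^ 2 := by rw [h1]; ring
      rw [h2, ← Real.norm_eq_abs]
      refine intervalIntegral.norm_integral_le_of_norm_le hcd ?_ ?_
      · refine Eventually.of_forall fun s hs => ?_
        have hs0 : 0 < s := hc0.trans hs.1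
        rw [Real.norm_eq_abs, abs_div, abs_of_pos (by positivity : 0 < s ^ 2)]
        gcongr
        exact abs_cos_le_one s
      · refine ContinuousOn.intervalIntegrable ?_
        refine ContinuousOn.div (by fun_prop) (by fun_prop) fun s hs => ?_
        rw [hI] at hs
        have : 0 < s := hc0.trans_le hs.1
        positivity
    have h5 : |cos d / d| ≤ 1 / d := by
      rw [abs_div, abs_of_pos hd0]; gcongr; exact abs_cos_le_one d
    have h6 : |cos c / c| ≤ 1 / c := by
      rw [abs_div, abs_of_pos hc0]; gcongr; exact abs_cos_le_one c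
    have h7 : 1 / c ≤ 1 := by rw [div_le_one hc0]; exact hc
    have a5 := abs_le.1 h5
    have a6 := abs_le.1 h6
    have aQ := abs_le.1 hQ
    rw [abs_le]
    constructor <;> linarith [a5.1, a5.2, a6.1, a6.2, aQ.1, aQ.2]
  rcases le_or_gt b 1 with h | h
  · exact (near a b hab (by linarith)).trans (by norm_num)
  · rcases le_or_gt a 1 with h' | h'
    · have h1 : ∫ u in a..b, sinc u = (∫ u in a..1, sinc u) + ∫ u in (1 : ℝ)..b, sinc u :=
        (intervalIntegral.integral_add_adjacent_intervals (ii _ _) (ii _ _)).symm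
      rw [h1]
      refine (abs_add_le _ _).trans ?_
      have := near a 1 h' (by linarith)
      have := far 1 b le_rfl h.le
      linarith
    · exact (far a b h'.le hab).trans (by norm_num)

/-- the integrand on rays -/
noncomputable def ry (R r : ℝ) : ℝ := R / π * (sinc (2 * π * R * r) - cos (2 * π * R * r))

lemma ry_cont (R : ℝ) : Continuous (ry R) := by
  unfold ry
  exact continuous_const.mul ((continuous_sinc.comp (by fun_prop)).sub (by fun_prop))

lemma ry_eq {R r : ℝ} (hr : r ≠ 0) : r ^ 2 * gk3 R r = ry R r := by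
  have := pi_pos
  rw [gk3, ry]
  field_simp

lemma ray3 {R a b : ℝ} (hR : 0 < R) (ha : 0 ≤ a) (hab : a ≤ b) : |∫ r in a..b, ry R r| ≤ 1 := by
  have hpi := pi_pos
  have hc : 0 < 2 * π * R := by positivity
  have h1 := intervalIntegral.mul_integral_comp_mul_left (a := a) (b := b)
    (f := fun u => sinc u - cos u) (2 * π * R)
  have h2 : ∫ r in a..b, ry R r = 1 / (2 * π ^ 2) *
      ((2 * π * R) * ∫ r in a..b, (sinc (2 * π * R * r) - cos (2 * π * R * r))) := by
    unfold ry
    rw [intervalIntegral.integral_const_mul]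
    field_simp
  rw [h2, h1, intervalIntegral.integral_sub (continuous_sinc.intervalIntegrable _ _)
    (continuous_cos.intervalIntegrable _ _), integral_cos, abs_mul,
    abs_of_pos (by positivity : 0 < 1 / (2 * π ^ 2))]
  have h3 := sinc_int (a := 2 * π * R * a) (b := 2 * π * R * b) (by positivity) (by gcongr)
  have h4 : |(∫ u in (2 * π * R * a)..(2 * π * R * b), sinc u) -
      (sin (2 * π * R * b) - sin (2 * π * R * a))| ≤ 5 := by
    refine (abs_sub _ _).trans ?_
    have h5 : |sin (2 * π * R * b) - sin (2 * π * R * a)| ≤ 2 := by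
      refine (abs_sub _ _).trans ?_
      have := abs_sin_le_one (2 * π * R * b)
      have := abs_sin_le_one (2 * π * R * a)
      linarith
    linarith
  have h6 : 1 / (2 * π ^ 2) ≤ 1 / 18 := by
    have : (3 : ℝ) ^ 2 ≤ π ^ 2 := pow_le_pow_left₀ (by norm_num) pi_gt_three.le 2
    gcongr
    linarith
  calc 1 / (2 * π ^ 2) * _ ≤ 1 / 18 * 5 := by gcongr
    _ ≤ 1 := by norm_num

/-- the one dimensional kernel -/
noncomputable def D1 (R ρ : ℝ) : ℝ := sin (2 * π * R * ρ) / (π * ρ)

lemma D1_le {R ρ : ℝ} (hρ : 0 < ρ) : |D1 R ρ| ≤ 1 / (π * ρ) := by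
  have := pi_pos
  rw [D1, abs_div, abs_of_pos (by positivity : 0 < π * ρ)]
  gcongr
  exact abs_sin_le_one _

lemma D1_deriv {R ρ : ℝ} (hρ : 0 < ρ) : HasDerivAt (D1 R) (-(2 * π * ρ * gk3 R ρ)) ρ := by
  have hpi := pi_pos
  rcases eq_or_ne R 0 with rfl | hR
  · have h1 : D1 0 = fun _ => 0 := by funext r; simp [D1]
    rw [h1]
    simpa [gk3] using hasDerivAt_const ρ (0 : ℝ)
  have h1 : HasDerivAt (fun ρ : ℝ => 2 * π * R * ρ) (2 * π * R * 1) ρ := (hasDerivAt_id ρ).const_mul _
  have h2 : HasDerivAt (fun ρ : ℝ => π * ρ) (π * 1) ρ := (hasDerivAt_id ρ).const_mul _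
  refine ((h1.sin).div h2 (by positivity)).congr_deriv ?_
  rw [gk3, sinc_of_ne_zero (by positivity)]
  field_simp
  ring

/-- the derivative of `D1` of the distance -/
lemma D1_rho {R h s : ℝ} (hp : 0 < s ^ 2 + h ^ 2) :
    HasDerivAt (fun s => D1 R (√(s ^ 2 + h ^ 2))) (-(2 * π * s * gk3 R (√(s ^ 2 + h ^ 2)))) s := by
  have hr : 0 < √(s ^ 2 + h ^ 2) := sqrt_pos.2 hp
  have h1 : HasDerivAt (fun s : ℝ => s ^ 2 + h ^ 2) (2 * s) s := by
    simpa using (hasDerivAt_pow 2 s).add_const (h ^ 2)
  have h2 : HasDerivAt (fun s : ℝ => √(s ^ 2 + h ^ 2)) (2 * s / (2 * √(s ^ 2 + h ^ 2))) s :=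
    h1.sqrt hp.ne'
  refine ((D1_deriv hr).comp s h2).congr_deriv ?_
  field_simp

lemma rho_cont {R h α β : ℝ} (hp : h ≠ 0 ∨ 0 < α) (hab : α ≤ β) :
    ContinuousOn (fun s => gk3 R (√(s ^ 2 + h ^ 2))) (uIcc α β) := by
  have hpi := pi_pos
  unfold gk3
  refine ContinuousOn.div ?_ (by fun_prop) fun s hs => ?_
  · exact (continuous_const.mul ((continuous_sinc.comp (by fun_prop)).sub (by fun_prop))).continuousOn
  · rw [uIcc_of_le hab] at hs
    have : 0 < s ^ 2 + h ^ 2 := by
      rcases hp with hp | hp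
      · have := sq_nonneg s
        positivity
      · have h1 : 0 < s := hp.trans_le hs.1
        positivity
    have := sqrt_pos.2 this
    positivity

/-- integrals over chords far from their foot -/
lemma chord3 {R h α β B : ℝ} (hα : 0 < α) (hab : α ≤ β)
    (hB : ∀ s ∈ Icc α β, |D1 R (√(s ^ 2 + h ^ 2))| ≤ B) :
    |∫ s in α..β, gk3 R (√(s ^ 2 + h ^ 2))| ≤ B / (π * α) := by
  have hpi := pi_pos
  have hI : uIcc α β = Icc α β := uIcc_of_le hab
  have hβ : 0 < β := hα.trans_le hab
  have cJ : ContinuousOn (fun s => D1 R (√(s ^ 2 + h ^ 2))) (uIcc α β) := by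
    intro s hs
    rw [hI] at hs
    have hs0 : 0 < s := hα.trans_le hs.1
    exact (D1_rho (by positivity)).continuousAt.continuousWithinAt
  have cQ : ContinuousOn (fun s => D1 R (√(s ^ 2 + h ^ 2)) / (2 * π * s ^ 2)) (uIcc α β) := by
    refine ContinuousOn.div cJ (by fun_prop) fun s hs => ?_
    rw [hI] at hs
    have : 0 < s := hα.trans_le hs.1
    positivity
  have cG := rho_cont (R := R) (h := h) (Or.inr hα) hab
  have key : ∫ s in α..β, (gk3 R (√(s ^ 2 + h ^ 2)) + D1 R (√(s ^ 2 + h ^ 2)) / (2 * π * s ^ 2))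
      = -(D1 R (√(β ^ 2 + h ^ 2)) / (2 * π * β)) - -(D1 R (√(α ^ 2 + h ^ 2)) / (2 * π * α)) := by
    refine intervalIntegral.integral_eq_sub_of_hasDerivAt
      (f := fun s => -(D1 R (√(s ^ 2 + h ^ 2)) / (2 * π * s))) (fun s hs => ?_)
      (cG.add cQ).intervalIntegrable
    rw [hI] at hs
    have hs0 : 0 < s := hα.trans_le hs.1
    have h3 := D1_rho (R := R) (h := h) (s := s) (by positivity)
    have h4 : HasDerivAt (fun s : ℝ => 2 * π * s) (2 * π * 1) s := (hasDerivAt_id s).const_mul _
    refine ((h3.div h4 (by positivity)).neg).congr_deriv ?_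
    field_simp
    ring
  rw [intervalIntegral.integral_add cG.intervalIntegrable cQ.intervalIntegrable] at key
  have hQ : |∫ s in α..β, D1 R (√(s ^ 2 + h ^ 2)) / (2 * π * s ^ 2)|
      ≤ B / (2 * π) * (1 / α - 1 / β) := by
    have h1 : ∫ s in α..β, B / (2 * π) * (1 / s ^ 2) = B / (2 * π) * (1 / α - 1 / β) := by
      rw [intervalIntegral.integral_const_mul]
      congr 1
      have : ∫ s in α..β, 1 / s ^ 2 = -(1 / β) - -(1 / α) := by
        refine intervalIntegral.integral_eq_sub_of_hasDerivAt (f := fun s => -(1 / s))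
          (fun s hs => ?_) ?_
        · rw [hI] at hs
          have hs0 : s ≠ 0 := (hα.trans_le hs.1).ne'
          have := (hasDerivAt_inv hs0).neg
          simp only [one_div]
          refine this.congr_deriv ?_
          ring
        · refine ContinuousOn.intervalIntegrable ?_
          refine ContinuousOn.div (by fun_prop) (by fun_prop) fun s hs => ?_
          rw [hI] at hs
          have : 0 < s := hα.trans_le hs.1
          positivity
      rw [this]; ring
    rw [← h1, ← Real.norm_eq_abs]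
    refine intervalIntegral.norm_integral_le_of_norm_le hab ?_ ?_
    · refine Eventually.of_forall fun s hs => ?_
      have hs0 : 0 < s := hα.trans hs.1
      rw [Real.norm_eq_abs, abs_div, abs_of_pos (by positivity : 0 < 2 * π * s ^ 2)]
      calc |D1 R (√(s ^ 2 + h ^ 2))| / (2 * π * s ^ 2) ≤ B / (2 * π * s ^ 2) := by
            gcongr; exact hB s ⟨hs.1.le, hs.2⟩
        _ = B / (2 * π) * (1 / s ^ 2) := by field_simp
    · refine (ContinuousOn.mul (by fun_prop) ?_).intervalIntegrable
      refine ContinuousOn.div (by fun_prop) (by fun_prop) fun s hs => ?_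
      rw [hI] at hs
      have : 0 < s := hα.trans_le hs.1
      positivity
  have h5 : |D1 R (√(β ^ 2 + h ^ 2)) / (2 * π * β)| ≤ B / (2 * π * β) := by
    rw [abs_div, abs_of_pos (by positivity : 0 < 2 * π * β)]
    gcongr; exact hB β ⟨hab, le_rfl⟩
  have h6 : |D1 R (√(α ^ 2 + h ^ 2)) / (2 * π * α)| ≤ B / (2 * π * α) := by
    rw [abs_div, abs_of_pos (by positivity : 0 < 2 * π * α)]
    gcongr; exact hB α ⟨le_rfl, hab⟩
  have h7 : B / (π * α) = B / (2 * π * β) + B / (2 * π * α) + B / (2 * π) * (1 / α - 1 / β) := by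
    field_simp; ring
  rw [h7, abs_le]
  have a5 := abs_le.1 h5
  have a6 := abs_le.1 h6
  have aQ := abs_le.1 hQ
  constructor <;> linarith [a5.1, a5.2, a6.1, a6.2, aQ.1, aQ.2]

/-- chords with `s ≥ α`, the whole chord at distance at least `ρ` -/
lemma chord_pos {R h α ρ a b : ℝ} (hα : 0 < α) (hρ : 0 < ρ) (ha : α ≤ a) (hab : a ≤ b)
    (hd : ∀ s, α ≤ s → ρ ≤ √(s ^ 2 + h ^ 2)) :
    |∫ s in a..b, gk3 R (√(s ^ 2 + h ^ 2))| ≤ 1 / (9 * α * ρ) := by
  have hpi := pi_pos
  have ha0 : 0 < a := hα.trans_le ha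
  refine (chord3 (B := 1 / (π * ρ)) ha0 hab fun s hs => ?_).trans ?_
  · have h1 := hd s (ha.trans hs.1)
    refine (D1_le (hρ.trans_le h1)).trans ?_
    gcongr
  · rw [div_div]
    have h3 : 9 * α * ρ ≤ π * ρ * (π * a) := by
      have h1 : 9 ≤ π * π := by nlinarith [pi_gt_three]
      calc 9 * α * ρ ≤ (π * π) * a * ρ := by gcongr
        _ = π * ρ * (π * a) := by ring
    gcongr

lemma chord_neg {R h α ρ a b : ℝ} (hα : 0 < α) (hρ : 0 < ρ) (hb : b ≤ -α) (hab : a ≤ b)
    (hd : ∀ s, α ≤ s → ρ ≤ √(s ^ 2 + h ^ 2)) :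
    |∫ s in a..b, gk3 R (√(s ^ 2 + h ^ 2))| ≤ 1 / (9 * α * ρ) := by
  have h1 := intervalIntegral.integral_comp_neg (a := -b) (b := -a)
    (fun s : ℝ => gk3 R (√(s ^ 2 + h ^ 2)))
  simp only [neg_sq, neg_neg] at h1
  rw [← h1]
  exact chord_pos hα hρ (by linarith) (by linarith) hd

/-- rays in a plane -/
lemma pray {R h a b ρ : ℝ} (ha : 0 ≤ a) (hab : a ≤ b) (hρ : 0 < ρ)
    (hd : ∀ s, a ≤ s → ρ ≤ √(s ^ 2 + h ^ 2)) :
    |∫ s in a..b, s * gk3 R (√(s ^ 2 + h ^ 2))| ≤ 1 / (9 * ρ) := by
  have hpi := pi_pos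
  have hpos : ∀ s, a ≤ s → 0 < s ^ 2 + h ^ 2 := fun s hs => by
    have := hρ.trans_le (hd s hs)
    exact sqrt_pos.1 this
  have hI : uIcc a b = Icc a b := uIcc_of_le hab
  have cG : ContinuousOn (fun s => s * gk3 R (√(s ^ 2 + h ^ 2))) (uIcc a b) := by
    refine continuousOn_id.mul ?_
    unfold gk3
    refine ContinuousOn.div ?_ (by fun_prop) fun s hs => ?_
    · exact (continuous_const.mul ((continuous_sinc.comp (by fun_prop)).sub
        (by fun_prop))).continuousOn
    · rw [hI] at hs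
      have := sqrt_pos.2 (hpos s hs.1)
      positivity
  have key : ∫ s in a..b, s * gk3 R (√(s ^ 2 + h ^ 2)) =
      -(D1 R (√(b ^ 2 + h ^ 2)) / (2 * π)) - -(D1 R (√(a ^ 2 + h ^ 2)) / (2 * π)) := by
    refine intervalIntegral.integral_eq_sub_of_hasDerivAt
      (f := fun s => -(D1 R (√(s ^ 2 + h ^ 2)) / (2 * π))) (fun s hs => ?_) cG.intervalIntegrable
    rw [hI] at hs
    refine (((D1_rho (R := R) (hpos s hs.1)).div_const (2 * π)).neg).congr_deriv ?_
    field_simp
  have hb : ∀ s, a ≤ s → |D1 R (√(s ^ 2 + h ^ 2)) / (2 * π)| ≤ 1 / (18 * ρ) := by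
    intro s hs
    have h1 := hd s hs
    rw [abs_div, abs_of_pos (by positivity : 0 < 2 * π)]
    have h2 : |D1 R (√(s ^ 2 + h ^ 2))| ≤ 1 / (π * ρ) := by
      refine (D1_le (hρ.trans_le h1)).trans ?_
      gcongr
    calc |D1 R (√(s ^ 2 + h ^ 2))| / (2 * π) ≤ 1 / (π * ρ) / (2 * π) := by gcongr
      _ ≤ 1 / (18 * ρ) := by
        rw [div_div]
        have h3 : 18 * ρ ≤ π * ρ * (2 * π) := by
          have h1 : 9 ≤ π * π := by nlinarith [pi_gt_three]
          calc 18 * ρ = 2 * 9 * ρ := by ring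
            _ ≤ 2 * (π * π) * ρ := by gcongr
            _ = π * ρ * (2 * π) := by ring
        gcongr
  rw [key]
  have a5 := abs_le.1 (hb b hab)
  have a6 := abs_le.1 (hb a le_rfl)
  have e : 1 / (9 * ρ) = 1 / (18 * ρ) + 1 / (18 * ρ) := by field_simp; norm_num
  rw [e, abs_le]
  constructor <;> linarith [a5.1, a5.2, a6.1, a6.2]

end Pool.Agent.Helper854_Q3
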