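import Mathlib
import Pool.Agent.Helper854_Q3.C

/-! Integrals over rays, chords and planes. -/

set_option autoImplicit false

open MeasureTheory Real Set Filter Topology
open scoped ENNReal NNReal RealInnerProductSpace

namespace Pool.Agent.Helper854_Q3

open Pool.Agent.Helper854_QC (NInt ord_ae nint_bound int_le)

/-- every line meets `A` in at most `N` intervals -/
def LineN (N : ℕ) (A : Set E3) : Prop := ∀ p v : E3, v ≠ 0 → NInt N {s : ℝ | p + s • v ∈ A}

/-- the partial sum of the indicator function of `A` -/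
noncomputable def VA (R : ℝ) (A : Set E3) (x : E3) : ℝ := ∫ y in A, gk3 R ‖x - y‖

/-- the integrand in coordinates -/
noncomputable def Fc (b : OrthonormalBasis (Fin 3) ℝ E3) (R : ℝ) (A : Set E3) (x : E3) :
    ℝ × (ℝ × ℝ) → ℝ :=
  {p : ℝ × (ℝ × ℝ) | x + p.1 • b 0 + p.2.1 • b 1 + p.2.2 • b 2 ∈ A}.indicator
    (fun p => gk3 R (√(p.1 ^ 2 + (p.2.1 ^ 2 + p.2.2 ^ 2))))

variable {R : ℝ} {A : Set E3} {x : E3} {N : ℕ}

lemma int_fin (hR : 0 < R) (hA : MeasurableSet A) (hf : volume A < ⊤) :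
    Integrable (A.indicator fun y => gk3 R ‖x - y‖) := by
  rw [integrable_indicator_iff hA]
  refine Measure.integrableOn_of_bounded (M := 4 * π * R ^ 3) hf.ne ?_ ?_
  · exact ((gk3_meas R).comp (by fun_prop : Measurable fun y : E3 => ‖x - y‖)).aestronglyMeasurable
  · exact Eventually.of_forall fun y => by rw [Real.norm_eq_abs]; exact gk3_le_const hR _

lemma coord_aux (b : OrthonormalBasis (Fin 3) ℝ E3) (z : E3) :
    Fc b R A x (ceq3 b z) = A.indicator (fun y => gk3 R ‖x - y‖) (x + z) := by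
  have hz : x + (ceq3 b z).1 • b 0 + (ceq3 b z).2.1 • b 1 + (ceq3 b z).2.2 • b 2 = x + z := by
    have h := b.sum_repr' z
    rw [Fin.sum_univ_three] at h
    rw [ceq3_apply]
    simp only
    calc x + ⟪b 0, z⟫ • b 0 + ⟪b 1, z⟫ • b 1 + ⟪b 2, z⟫ • b 2
        = x + (⟪b 0, z⟫ • b 0 + ⟪b 1, z⟫ • b 1 + ⟪b 2, z⟫ • b 2) := by abel
      _ = x + z := by rw [h]
  have hn : √((ceq3 b z).1 ^ 2 + ((ceq3 b z).2.1 ^ 2 + (ceq3 b z).2.2 ^ 2)) = ‖z‖ := by
    rw [ceq3_apply]
    simp only
    rw [← add_assoc, ← norm_sq_coord3 b z, sqrt_sq (norm_nonneg _)]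
  unfold Fc
  by_cases h : x + z ∈ A
  · rw [indicator_of_mem (by rw [mem_ofPred_eq, hz]; exact h), indicator_of_mem h, hn]
    congr 1
    rw [sub_add_cancel_left, norm_neg]
  · rw [indicator_of_notMem (by rw [mem_ofPred_eq, hz]; exact h), indicator_of_notMem h]

lemma Fc_meas (b : OrthonormalBasis (Fin 3) ℝ E3) (hA : MeasurableSet A) :
    Measurable (Fc b R A x) := by
  refine Measurable.indicator ((gk3_meas R).comp (by fun_prop)) ?_
  exact hA.preimage (by fun_prop : Measurable fun p : ℝ × (ℝ × ℝ) =>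
    x + p.1 • b 0 + p.2.1 • b 1 + p.2.2 • b 2)

lemma Fc_int (b : OrthonormalBasis (Fin 3) ℝ E3) (hR : 0 < R) (hA : MeasurableSet A)
    (hf : volume A < ⊤) : Integrable (Fc b R A x) := by
  rw [← (ceq3_mp b).integrable_comp_emb (ceq3 b).measurableEmbedding]
  refine ((int_fin (x := x) hR hA hf).comp_add_left x).congr ?_
  exact Eventually.of_forall fun z => (coord_aux b z).symm

lemma VA_coord (b : OrthonormalBasis (Fin 3) ℝ E3) (hA : MeasurableSet A) :
    VA R A x = ∫ p, Fc b R A x p := by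
  rw [← (ceq3_mp b).integral_comp' (Fc b R A x), VA, ← integral_indicator hA,
    ← integral_add_left_eq_self _ x]
  exact integral_congr_ae (Eventually.of_forall fun z => (coord_aux b z).symm)

lemma bdd_line {p v : E3} (hb : Bornology.IsBounded A) (hv : v ≠ 0) :
    ∃ B, 0 ≤ B ∧ {s : ℝ | p + s • v ∈ A} ⊆ Icc (-B) B := by
  obtain ⟨r, hr⟩ := hb.subset_closedBall 0
  have hv' : 0 < ‖v‖ := norm_pos_iff.2 hv
  refine ⟨(|r| + ‖p‖) / ‖v‖, by positivity, fun s hs => ?_⟩
  have h1 : ‖p + s • v‖ ≤ r := mem_closedBall_zero_iff.1 (hr hs)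
  rw [mem_Icc, ← abs_le, le_div_iff₀ hv']
  have h2 : ‖s • v‖ ≤ ‖p + s • v‖ + ‖p‖ := by
    calc ‖s • v‖ = ‖(p + s • v) - p‖ := by rw [add_sub_cancel_left]
      _ ≤ _ := norm_sub_le _ _
  rw [norm_smul, Real.norm_eq_abs] at h2
  linarith [le_abs_self r]

/-- the total mass of the sphere -/
noncomputable def cS : ℝ := (volume : Measure E3).toSphere.real univ

/-- the bound through rays -/
theorem ray_bound (hR : 0 < R) (hA : MeasurableSet A) (hb : Bornology.IsBounded A)
    (hN : LineN N A) (x : E3) : |VA R A x| ≤ N * cS := by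
  have hf : volume A < ⊤ := hb.measure_lt_top
  set f : E3 → ℝ := fun z => A.indicator (fun y => gk3 R ‖x - y‖) (x + z) with hfdef
  have hfi : Integrable f := (int_fin (x := x) hR hA hf).comp_add_left x
  have e0 : VA R A x = ∫ z, f z := by
    rw [VA, ← integral_indicator hA, ← integral_add_left_eq_self _ x]
  set g : Metric.sphere (0 : E3) 1 × Ioi (0 : ℝ) → ℝ := fun p => f (p.2.1 • p.1.1) with hg
  have hmp := (volume : Measure E3).measurePreserving_homeomorphUnitSphereProd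
  have hgf : ∀ z : ({(0 : E3)}ᶜ : Set E3), g (homeomorphUnitSphereProd E3 z) = f z := by
    intro z
    have hz : ‖(z : E3)‖ ≠ 0 := norm_ne_zero_iff.2 z.2
    simp only [hg]
    congr 1
    rw [homeomorphUnitSphereProd_apply_snd_coe, homeomorphUnitSphereProd_apply_fst_coe,
      smul_smul, mul_inv_cancel₀ hz, one_smul]
  have hgi : Integrable g ((volume : Measure E3).toSphere.prod
      (.volumeIoiPow (Module.finrank ℝ E3 - 1))) := by
    rw [← hmp.integrable_comp_emb (Homeomorph.measurableEmbedding _)]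
    have h1 : Integrable (fun z : ({(0 : E3)}ᶜ : Set E3) => f z)
        ((volume : Measure E3).comap (↑)) := by
      have h2 : IntegrableOn f ({(0 : E3)}ᶜ : Set E3) := hfi.integrableOn
      rwa [integrableOn_iff_comap_subtypeVal (measurableSet_singleton _).compl] at h2
    exact h1.congr (Eventually.of_forall fun z => (hgf z).symm)
  have e1 : ∫ z, f z = ∫ p, g p ∂((volume : Measure E3).toSphere.prod
      (.volumeIoiPow (Module.finrank ℝ E3 - 1))) := by
    rw [← hmp.integral_comp (Homeomorph.measurableEmbedding _) g,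
      integral_congr_ae (Eventually.of_forall hgf),
      integral_subtype_comap (measurableSet_singleton _).compl fun z => f z,
      restrict_compl_singleton]
  rw [e0, e1, integral_prod _ hgi, ← Real.norm_eq_abs, cS]
  refine norm_integral_le_of_norm_le_const (Eventually.of_forall fun ω => ?_)
  have hω : ‖(ω : E3)‖ = 1 := by simp
  have hω0 : (ω : E3) ≠ 0 := by
    intro h; rw [h, norm_zero] at hω; exact zero_ne_one hω
  have hTm : MeasurableSet {s : ℝ | x + s • (ω : E3) ∈ A} :=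
    hA.preimage (by fun_prop : Measurable fun s : ℝ => x + s • (ω : E3))
  have e2 : ∫ r, g (ω, r) ∂(Measure.volumeIoiPow (Module.finrank ℝ E3 - 1)) =
      ∫ r in {s : ℝ | x + s • (ω : E3) ∈ A} ∩ Ioi 0, ry R r := by
    simp only [Measure.volumeIoiPow, ENNReal.ofReal]
    rw [integral_withDensity_eq_integral_smul
      ((measurable_subtype_coe.pow_const _).real_toNNReal),
      integral_subtype_comap measurableSet_Ioi
        fun a => Real.toNNReal (a ^ (Module.finrank ℝ E3 - 1)) • f (a • (ω : E3)),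
      inter_comm, ← setIntegral_indicator hTm]
    refine setIntegral_congr_fun measurableSet_Ioi fun r hr => ?_
    have hr0 : 0 < r := hr
    simp only [finrank_euclideanSpace, Fintype.card_fin]
    rw [NNReal.smul_def, Real.coe_toNNReal _ (by positivity), smul_eq_mul]
    simp only [hfdef]
    by_cases h : x + r • (ω : E3) ∈ A
    · rw [indicator_of_mem h, indicator_of_mem (s := {s : ℝ | x + s • (ω : E3) ∈ A}) h,
        sub_add_cancel_left, norm_neg, norm_smul, hω, mul_one, Real.norm_eq_abs, abs_of_pos hr0]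
      exact ry_eq hr0.ne'
    · rw [indicator_of_notMem h, indicator_of_notMem (s := {s : ℝ | x + s • (ω : E3) ∈ A}) h,
        mul_zero]
  rw [e2, Real.norm_eq_abs]
  obtain ⟨B, hB0, hB⟩ := bdd_line (p := x) hb hω0
  have h3 := nint_bound (A := 0) (B := B) (M := 1) (φ := ry R) ((hN x ω hω0).inter ordConnected_Ioi)
    hB0 (fun s hs => ⟨le_of_lt hs.2, (hB hs.1).2⟩) (ry_cont R).continuousOn.integrableOn_Icc
    (fun a b ha hab _ => ray3 hR ha hab)
  rwa [mul_one] at h3

lemma gk3_intOn (hR : 0 < R) (h : ℝ → ℝ) (hh : Measurable h) (a b : ℝ) (F : ℝ → ℝ)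
    (hF : Continuous F) : IntegrableOn (fun s => F s * gk3 R (h s)) (Icc a b) := by
  have h1 : IntegrableOn F (Icc a b) := hF.continuousOn.integrableOn_Icc
  refine (h1.mul_const (4 * π * R ^ 3)).mono ?_ ?_
  · exact (hF.measurable.mul ((gk3_meas R).comp hh)).aestronglyMeasurable
  · refine Eventually.of_forall fun s => ?_
    rw [norm_mul, norm_mul, Real.norm_eq_abs (gk3 R (h s)), Real.norm_eq_abs (4 * π * R ^ 3)]
    exact mul_le_mul_of_nonneg_left ((gk3_le_const hR _).trans (le_abs_self _)) (norm_nonneg _)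

/-- slicing by lines of direction `b 0` -/
theorem line3 (b : OrthonormalBasis (Fin 3) ℝ E3) (hR : 0 < R) (hA : MeasurableSet A)
    (hb : Bornology.IsBounded A) (hN : LineN N A) {M τ₁ τ₂ υ₁ υ₂ A₀ B₀ : ℝ} (hτ : τ₁ ≤ τ₂)
    (hυ : υ₁ ≤ υ₂) (hAB : A₀ ≤ B₀)
    (hout : ∀ s t u : ℝ, x + s • b 0 + t • b 1 + u • b 2 ∈ A →
      (A₀ ≤ s ∧ s ≤ B₀) ∧ (τ₁ ≤ t ∧ t ≤ τ₂) ∧ (υ₁ ≤ u ∧ u ≤ υ₂))
    (hM0 : 0 ≤ M)
    (hM : ∀ s t u : ℝ, x + s • b 0 + t • b 1 + u • b 2 ∈ A → ∀ v w, A₀ ≤ v → v ≤ w → w ≤ B₀ →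
      |∫ s in v..w, gk3 R (√(s ^ 2 + (t ^ 2 + u ^ 2)))| ≤ M) :
    |VA R A x| ≤ N * M * ((τ₂ - τ₁) * (υ₂ - υ₁)) := by
  have hf : volume A < ⊤ := hb.measure_lt_top
  have hb0 : b 0 ≠ 0 := b.orthonormal.ne_zero 0
  rw [VA_coord b hA, Measure.volume_eq_prod, integral_prod_symm _ (by
    rw [← Measure.volume_eq_prod]; exact Fc_int b hR hA hf)]
  set J : Set (ℝ × ℝ) := Icc τ₁ τ₂ ×ˢ Icc υ₁ υ₂ with hJ
  have hz : ∀ q, q ∉ J → ∫ s, Fc b R A x (s, q) = 0 := by
    intro q hq
    have : (fun s => Fc b R A x (s, q)) = fun _ => 0 := by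
      funext s
      unfold Fc
      rw [indicator_of_notMem]
      intro h
      obtain ⟨-, h2, h3⟩ := hout s q.1 q.2 h
      exact hq ⟨h2, h3⟩
    rw [this, integral_zero]
  have hJv : (volume : Measure (ℝ × ℝ)) J = ENNReal.ofReal ((τ₂ - τ₁) * (υ₂ - υ₁)) := by
    rw [hJ, Measure.volume_eq_prod, Measure.prod_prod, Real.volume_Icc, Real.volume_Icc,
      ENNReal.ofReal_mul (by linarith)]
  rw [← setIntegral_eq_integral_of_forall_compl_eq_zero hz, ← Real.norm_eq_abs]
  refine (norm_setIntegral_le_of_norm_le_const (C := N * M) ?_ fun q hq => ?_).trans ?_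
  · rw [hJv]; exact ENNReal.ofReal_lt_top
  · have hTm : MeasurableSet {s : ℝ | x + q.1 • b 1 + q.2 • b 2 + s • b 0 ∈ A} :=
      hA.preimage (by fun_prop : Measurable fun s : ℝ => x + q.1 • b 1 + q.2 • b 2 + s • b 0)
    have hcm : ∀ s : ℝ, x + s • b 0 + q.1 • b 1 + q.2 • b 2 =
        x + q.1 • b 1 + q.2 • b 2 + s • b 0 := fun s => by abel
    have e1 : ∫ s, Fc b R A x (s, q) =
        ∫ s in {s : ℝ | x + q.1 • b 1 + q.2 • b 2 + s • b 0 ∈ A},
          gk3 R (√(s ^ 2 + (q.1 ^ 2 + q.2 ^ 2))) := by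
      rw [← integral_indicator hTm]
      refine integral_congr_ae (Eventually.of_forall fun s => ?_)
      change Fc b R A x (s, q) = _
      unfold Fc
      by_cases h : x + q.1 • b 1 + q.2 • b 2 + s • b 0 ∈ A
      · rw [indicator_of_mem (s := {s : ℝ | x + q.1 • b 1 + q.2 • b 2 + s • b 0 ∈ A}) h,
          indicator_of_mem]
        rw [mem_ofPred_eq]; simp only; rw [hcm]; exact h
      · rw [indicator_of_notMem (s := {s : ℝ | x + q.1 • b 1 + q.2 • b 2 + s • b 0 ∈ A}) h,
          indicator_of_notMem]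
        rw [mem_ofPred_eq]; simp only; rw [hcm]; exact h
    rw [e1, Real.norm_eq_abs]
    rcases eq_empty_or_nonempty {s : ℝ | x + q.1 • b 1 + q.2 • b 2 + s • b 0 ∈ A} with h | ⟨s₀, h⟩
    · rw [h, setIntegral_empty, abs_zero]; positivity
    · have hs₀ : x + s₀ • b 0 + q.1 • b 1 + q.2 • b 2 ∈ A := by rw [hcm]; exact h
      refine nint_bound (hN (x + q.1 • b 1 + q.2 • b 2) (b 0) hb0) hAB ?_ ?_ ?_
      · intro s hs
        have hs' : x + s • b 0 + q.1 • b 1 + q.2 • b 2 ∈ A := by rw [hcm]; exact hs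
        exact (hout s q.1 q.2 hs').1
      · have := gk3_intOn hR (fun s => √(s ^ 2 + (q.1 ^ 2 + q.2 ^ 2))) (by fun_prop) A₀ B₀
          (fun _ => 1) continuous_const
        simpa using this
      · exact fun v w h1 h2 h3 => hM s₀ q.1 q.2 hs₀ v w h1 h2 h3
  · rw [measureReal_def, hJv, ENNReal.toReal_ofReal (by
      exact mul_nonneg (by linarith) (by linarith))]

/-- polar coordinates in the plane, with a bound for the angle -/
lemma planar {F : ℝ × ℝ → ℝ} (hFm : Measurable F) (hF : Integrable F) {φ₀ C : ℝ} (h0 : 0 ≤ φ₀)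
    (hC : ∀ φ, |∫ r in Ioi (0 : ℝ), r * F (r * cos φ, r * sin φ)| ≤ C)
    (hz : ∀ φ ∈ Ioo (-π) π, φ₀ < |φ| → ∀ r, 0 < r → F (r * cos φ, r * sin φ) = 0) :
    |∫ p, F p| ≤ C * (2 * φ₀) := by
  have hC0 : 0 ≤ C := (abs_nonneg _).trans (hC 0)
  have hint : IntegrableOn (fun p : ℝ × ℝ => p.1 • F (polarCoord.symm p)) polarCoord.target := by
    have hmeas : Measurable fun p : ℝ × ℝ => p.1 • F (polarCoord.symm p) :=
      measurable_fst.smul (hFm.comp continuous_polarCoord_symm.measurable)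
    refine ⟨hmeas.aestronglyMeasurable, ?_⟩
    have h1 := lintegral_comp_polarCoord_symm (fun p => ‖F p‖ₑ)
    have h2 : ∫⁻ p in polarCoord.target, ‖p.1 • F (polarCoord.symm p)‖ₑ = ∫⁻ p, ‖F p‖ₑ := by
      rw [← h1]
      refine setLIntegral_congr_fun polarCoord.open_target.measurableSet fun p hp => ?_
      have hp0 : 0 < p.1 := hp.1
      rw [smul_eq_mul, enorm_mul, Real.enorm_eq_ofReal hp0.le, smul_eq_mul]
    rw [HasFiniteIntegral, h2]
    exact hF.2
  have e1 : polarCoord.target = Ioi (0 : ℝ) ×ˢ Ioo (-π) π := rfl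
  rw [e1, IntegrableOn, Measure.volume_eq_prod, ← Measure.prod_restrict] at hint
  rw [← integral_comp_polarCoord_symm, e1, Measure.volume_eq_prod, ← Measure.prod_restrict,
    integral_prod_symm _ hint]
  have e2 : ∀ φ, ∫ r in Ioi (0 : ℝ), (r, φ).1 • F (polarCoord.symm (r, φ)) =
      ∫ r in Ioi (0 : ℝ), r * F (r * cos φ, r * sin φ) := fun φ => rfl
  simp_rw [e2]
  have e3 : ∫ φ in Ioo (-π) π, ∫ r in Ioi (0 : ℝ), r * F (r * cos φ, r * sin φ) =
      ∫ φ in Ioo (-π) π ∩ Icc (-φ₀) φ₀, ∫ r in Ioi (0 : ℝ), r * F (r * cos φ, r * sin φ) := by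
    refine setIntegral_eq_of_subset_of_forall_sdiff_eq_zero measurableSet_Ioo inter_subset_left ?_
    rintro φ ⟨h1, h2⟩
    have h3 : φ₀ < |φ| := by
      by_contra hc
      rw [not_lt] at hc
      exact h2 ⟨h1, abs_le.1 hc⟩
    rw [setIntegral_congr_fun (g := fun _ => 0) measurableSet_Ioi fun r hr => ?_, integral_zero]
    simp only
    rw [hz φ h1 h3 r hr, mul_zero]
  rw [e3, ← Real.norm_eq_abs]
  have hv : (volume (Ioo (-π) π ∩ Icc (-φ₀) φ₀)) ≤ ENNReal.ofReal (2 * φ₀) := by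
    refine (measure_mono inter_subset_right).trans (le_of_eq ?_)
    rw [Real.volume_Icc]; congr 1; ring
  refine (norm_setIntegral_le_of_norm_le_const (C := C) (hv.trans_lt ENNReal.ofReal_lt_top)
    fun φ _ => by rw [Real.norm_eq_abs]; exact hC φ).trans ?_
  gcongr
  exact ENNReal.toReal_le_of_le_ofReal (by positivity) hv

/-- slicing by planes orthogonal to `b 0` -/
theorem plane3 (b : OrthonormalBasis (Fin 3) ℝ E3) (hR : 0 < R) (hA : MeasurableSet A)
    (hb : Bornology.IsBounded A) (hN : LineN N A) {M σ₁ σ₂ φ₀ a₀ B₀ : ℝ} (hσ : σ₁ ≤ σ₂)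
    (h0 : 0 ≤ φ₀) (hAB : a₀ ≤ B₀)
    (hout : ∀ s t u : ℝ, x + s • b 0 + t • b 1 + u • b 2 ∈ A → σ₁ ≤ s ∧ s ≤ σ₂)
    (hang : ∀ s r φ : ℝ, 0 < r → φ ∈ Ioo (-π) π →
      x + s • b 0 + (r * cos φ) • b 1 + (r * sin φ) • b 2 ∈ A → |φ| ≤ φ₀)
    (hrad : ∀ s r φ : ℝ, 0 < r →
      x + s • b 0 + (r * cos φ) • b 1 + (r * sin φ) • b 2 ∈ A → a₀ ≤ r ∧ r ≤ B₀)
    (hM : ∀ s, σ₁ ≤ s → s ≤ σ₂ → ∀ v w, a₀ ≤ v → v ≤ w →
      |∫ r in v..w, r * gk3 R (√(r ^ 2 + s ^ 2))| ≤ M) :
    |VA R A x| ≤ N * M * (2 * φ₀) * (σ₂ - σ₁) := by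
  have hf : volume A < ⊤ := hb.measure_lt_top
  have hFi : Integrable (Fc b R A x) ((volume : Measure ℝ).prod (volume : Measure (ℝ × ℝ))) := by
    rw [← Measure.volume_eq_prod]; exact Fc_int b hR hA hf
  rw [VA_coord b hA, Measure.volume_eq_prod, integral_prod _ hFi]
  have hz : ∀ s, s ∉ Icc σ₁ σ₂ → ∫ q, Fc b R A x (s, q) = 0 := by
    intro s hs
    have : (fun q => Fc b R A x (s, q)) = fun _ => 0 := by
      funext q
      unfold Fc
      rw [indicator_of_notMem]
      intro h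
      exact hs (hout s q.1 q.2 h)
    rw [this, integral_zero]
  rw [← setIntegral_eq_integral_of_forall_compl_eq_zero hz, ← Real.norm_eq_abs]
  have hv : (volume (Icc σ₁ σ₂)).toReal = σ₂ - σ₁ := by
    rw [Real.volume_Icc, ENNReal.toReal_ofReal (by linarith)]
  refine (norm_setIntegral_le_of_norm_le_const_ae' (C := N * M * (2 * φ₀)) ?_ ?_).trans ?_
  · rw [Real.volume_Icc]; exact ENNReal.ofReal_lt_top
  · filter_upwards [hFi.prod_right_ae] with s hs hsI
    rw [Real.norm_eq_abs]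
    refine planar ((Fc_meas b hA).comp measurable_prodMk_left) hs h0 (fun φ => ?_)
      (fun φ hφ hφ0 r hr => ?_)
    · set v : E3 := cos φ • b 1 + sin φ • b 2 with hvdef
      have hv0 : v ≠ 0 := by
        intro hc
        have i1 : ⟪b 1, v⟫ = cos φ := by
          rw [hvdef, inner_add_right, real_inner_smul_right, real_inner_smul_right,
            real_inner_self_eq_norm_sq, b.norm_eq_one, b.inner_eq_zero (by decide)]
          ring
        have i2 : ⟪b 2, v⟫ = sin φ := by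
          rw [hvdef, inner_add_right, real_inner_smul_right, real_inner_smul_right,
            real_inner_self_eq_norm_sq, b.norm_eq_one, b.inner_eq_zero (by decide)]
          ring
        rw [hc, inner_zero_right] at i1 i2
        have := sin_sq_add_cos_sq φ
        rw [← i1, ← i2] at this
        norm_num at this
      have hTm : MeasurableSet {r : ℝ | x + s • b 0 + r • v ∈ A} :=
        hA.preimage (by fun_prop : Measurable fun r : ℝ => x + s • b 0 + r • v)
      have hmem : ∀ r : ℝ, x + s • b 0 + (r * cos φ) • b 1 + (r * sin φ) • b 2 =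
          x + s • b 0 + r • v := fun r => by
        rw [hvdef, smul_add, smul_smul, smul_smul, add_assoc]
      have e2 : ∫ r in Ioi (0 : ℝ), r * Fc b R A x (s, (r * cos φ, r * sin φ)) =
          ∫ r in {r : ℝ | x + s • b 0 + r • v ∈ A} ∩ Ioi 0, r * gk3 R (√(r ^ 2 + s ^ 2)) := by
        rw [inter_comm, ← setIntegral_indicator hTm]
        refine setIntegral_congr_fun measurableSet_Ioi fun r hr => ?_
        have hr0 : 0 < r := hr
        unfold Fc
        by_cases h : x + s • b 0 + r • v ∈ A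
        · rw [indicator_of_mem (by rw [mem_ofPred_eq]; simp only; rw [hmem]; exact h),
            indicator_of_mem (s := {r : ℝ | x + s • b 0 + r • v ∈ A}) h]
          simp only
          congr 3
          have := sin_sq_add_cos_sq φ
          have h2 : (r * cos φ) ^ 2 + (r * sin φ) ^ 2 = r ^ 2 := by nlinarith
          rw [h2, add_comm]
        · rw [indicator_of_notMem (by rw [mem_ofPred_eq]; simp only; rw [hmem]; exact h),
            indicator_of_notMem (s := {r : ℝ | x + s • b 0 + r • v ∈ A}) h, mul_zero]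
      change |∫ r in Ioi (0 : ℝ), r * Fc b R A x (s, (r * cos φ, r * sin φ))| ≤ _
      rw [e2]
      refine nint_bound ((hN (x + s • b 0) v hv0).inter ordConnected_Ioi) hAB ?_ ?_ ?_
      · rintro r ⟨hr1, hr2⟩
        refine hrad s r φ hr2 ?_
        rw [hmem]; exact hr1
      · exact gk3_intOn hR (fun r => √(r ^ 2 + s ^ 2)) (by fun_prop) a₀ B₀ (fun r => r) continuous_id
      · exact fun u w hu huw _ => hM s hsI.1 hsI.2 u w hu huw
    · change Fc b R A x (s, (r * cos φ, r * sin φ)) = 0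
      unfold Fc
      rw [indicator_of_notMem]
      intro h
      exact absurd (hang s r φ hr hφ h) (not_le.2 hφ0)
  · rw [measureReal_def, hv]

end Pool.Agent.Helper854_Q3
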