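import Mathlib
import Pool.Agent.Helper854_Q3.D

/-! The three pointwise bounds. -/

set_option autoImplicit false

open MeasureTheory Real Set Filter Topology
open scoped ENNReal NNReal RealInnerProductSpace

namespace Pool.Agent.Helper854_Q3

open Pool.Agent.Helper854_QC (NInt ord_ae nint_bound int_le NInt.inter)

variable {R : ℝ} {A : Set E3} {x : E3} {N : ℕ}

/-- `A` lies in the box with centre `c` and half sides `d₁`, `d₂`, `d₃` along the axes of `b` -/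
def InBox (b : OrthonormalBasis (Fin 3) ℝ E3) (c : E3) (d₁ d₂ d₃ : ℝ) (A : Set E3) : Prop :=
  ∀ y ∈ A, |⟪b 0, y - c⟫| ≤ d₁ ∧ |⟪b 1, y - c⟫| ≤ d₂ ∧ |⟪b 2, y - c⟫| ≤ d₃

lemma inner_coord3 (b : OrthonormalBasis (Fin 3) ℝ E3) (x c : E3) (s t u : ℝ) :
    ⟪b 0, x + s • b 0 + t • b 1 + u • b 2 - c⟫ = ⟪b 0, x - c⟫ + s ∧
    ⟪b 1, x + s • b 0 + t • b 1 + u • b 2 - c⟫ = ⟪b 1, x - c⟫ + t ∧
    ⟪b 2, x + s • b 0 + t • b 1 + u • b 2 - c⟫ = ⟪b 2, x - c⟫ + u := by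
  have h01 : ⟪b 0, b 1⟫ = (0 : ℝ) := b.inner_eq_zero (by decide)
  have h10 : ⟪b 1, b 0⟫ = (0 : ℝ) := b.inner_eq_zero (by decide)
  have h02 : ⟪b 0, b 2⟫ = (0 : ℝ) := b.inner_eq_zero (by decide)
  have h20 : ⟪b 2, b 0⟫ = (0 : ℝ) := b.inner_eq_zero (by decide)
  have h12 : ⟪b 1, b 2⟫ = (0 : ℝ) := b.inner_eq_zero (by decide)
  have h21 : ⟪b 2, b 1⟫ = (0 : ℝ) := b.inner_eq_zero (by decide)
  have h00 : ⟪b 0, b 0⟫ = (1 : ℝ) := by rw [real_inner_self_eq_norm_sq, b.norm_eq_one]; norm_num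
  have h11 : ⟪b 1, b 1⟫ = (1 : ℝ) := by rw [real_inner_self_eq_norm_sq, b.norm_eq_one]; norm_num
  have h22 : ⟪b 2, b 2⟫ = (1 : ℝ) := by rw [real_inner_self_eq_norm_sq, b.norm_eq_one]; norm_num
  have e : x + s • b 0 + t • b 1 + u • b 2 - c = (x - c) + s • b 0 + t • b 1 + u • b 2 := by abel
  rw [e]
  refine ⟨?_, ?_, ?_⟩ <;>
    simp only [inner_add_right, real_inner_smul_right, h00, h01, h02, h10, h11, h12, h20, h21, h22]
      <;> ring

lemma LineN.inter (hN : LineN N A) {C : Set E3} (hC : Convex ℝ C) : LineN N (A ∩ C) := by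
  intro p v hv
  have h1 : {s : ℝ | p + s • v ∈ A ∩ C} = {s : ℝ | p + s • v ∈ A} ∩ {s : ℝ | p + s • v ∈ C} := rfl
  rw [h1]
  refine (hN p v hv).inter (Convex.ordConnected ?_)
  intro a ha b hb α β hα hβ hαβ
  rw [mem_ofPred_eq] at ha hb ⊢
  have e : p + (α • a + β • b) • v = α • (p + a • v) + β • (p + b • v) := by
    have : p = (α + β) • p := by rw [hαβ, one_smul]
    nth_rw 1 [this]
    simp only [smul_eq_mul]
    module
  rw [e]
  exact hC ha hb hα hβ hαβ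

/-- the bound through planes parallel to the two long sides -/
theorem B1 (b : OrthonormalBasis (Fin 3) ℝ E3) (hR : 0 < R) (hA : MeasurableSet A)
    (hb : Bornology.IsBounded A) (hN : LineN N A) {c : E3} {d₁ d₂ d₃ : ℝ} (hd₁ : 0 < d₁)
    (hr : InBox b c d₁ d₂ d₃ A) (hx : 2 * d₁ ≤ |⟪b 0, x - c⟫|) :
    |VA R A x| ≤ 3 * N * d₁ / |⟪b 0, x - c⟫| := by
  obtain ⟨B, hB⟩ := hb.subset_closedBall x
  set τ : ℝ := ⟪b 0, x - c⟫ with hτ
  have hτ0 : 0 < |τ| := by linarith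
  have hout : ∀ s t u : ℝ, x + s • b 0 + t • b 1 + u • b 2 ∈ A → -τ - d₁ ≤ s ∧ s ≤ -τ + d₁ := by
    intro s t u h
    have h1 := (hr _ h).1
    rw [(inner_coord3 b x c s t u).1] at h1
    have := abs_le.1 h1
    constructor <;> linarith [this.1, this.2]
  have hs : ∀ s, -τ - d₁ ≤ s → s ≤ -τ + d₁ → |τ| / 2 ≤ |s| := by
    intro s h1 h2
    have h3 : |τ + s| ≤ d₁ := abs_le.2 ⟨by linarith, by linarith⟩
    have h4 : |τ| ≤ |τ + s| + |s| := by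
      calc |τ| = |(τ + s) - s| := by rw [add_sub_cancel_right]
        _ ≤ _ := abs_sub _ _
    linarith
  have h := plane3 (x := x) b hR hA hb hN (M := 1 / (9 * (|τ| / 2))) (σ₁ := -τ - d₁)
    (σ₂ := -τ + d₁) (φ₀ := π) (a₀ := 0) (B₀ := |B|) (by linarith) pi_pos.le (abs_nonneg _) hout
    (fun s r φ _ hφ _ => by
      rw [abs_le]; exact ⟨hφ.1.le, hφ.2.le⟩)
    (fun s r φ hr0 h => by
      refine ⟨hr0.le, ?_⟩
      have h1 : ‖x + s • b 0 + (r * cos φ) • b 1 + (r * sin φ) • b 2 - x‖ ≤ B := by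
        rw [← dist_eq_norm]; exact Metric.mem_closedBall.1 (hB h)
      have h2 := norm_sq_coord3 b (x + s • b 0 + (r * cos φ) • b 1 + (r * sin φ) • b 2 - x)
      obtain ⟨i0, i1, i2⟩ := inner_coord3 b x x s (r * cos φ) (r * sin φ)
      rw [sub_self, inner_zero_right, zero_add] at i0 i1 i2
      rw [i0, i1, i2] at h2
      have h3 := sin_sq_add_cos_sq φ
      have h4 : r ^ 2 ≤ |B| ^ 2 := by
        have h5 : ‖x + s • b 0 + (r * cos φ) • b 1 + (r * sin φ) • b 2 - x‖ ^ 2 ≤ |B| ^ 2 :=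
          pow_le_pow_left₀ (norm_nonneg _) (h1.trans (le_abs_self _)) 2
        rw [h2] at h5
        nlinarith [sq_nonneg s]
      exact abs_le_of_sq_le_sq' h4 (abs_nonneg _) |>.2)
    (fun s h1 h2 v w hv hvw => by
      refine pray hv hvw (by positivity) fun r _ => ?_
      apply le_sqrt_of_sq_le
      have h3 := hs s h1 h2
      have h4 : (|τ| / 2) ^ 2 ≤ |s| ^ 2 := pow_le_pow_left₀ (by positivity) h3 2
      rw [sq_abs] at h4
      nlinarith [sq_nonneg r])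
  refine h.trans ?_
  have e : N * (1 / (9 * (|τ| / 2))) * (2 * π) * (-τ + d₁ - (-τ - d₁)) =
      (8 * π / 9) * (N * d₁ / |τ|) := by
    field_simp
    ring
  rw [e]
  have h5 : 8 * π / 9 ≤ 3 := by linarith [pi_lt_d2]
  calc (8 * π / 9) * (N * d₁ / |τ|) ≤ 3 * (N * d₁ / |τ|) := by gcongr
    _ = 3 * N * d₁ / |τ| := by ring

/-- the bound through chords parallel to the longest side, far away in its direction -/
theorem B3 (b : OrthonormalBasis (Fin 3) ℝ E3) (hR : 0 < R) (hA : MeasurableSet A)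
    (hb : Bornology.IsBounded A) (hN : LineN N A) {c : E3} {d₁ d₂ d₃ : ℝ} (hd₁ : 0 < d₁)
    (h12 : d₁ ≤ d₂) (h23 : d₂ ≤ d₃)
    (hr : InBox b c d₁ d₂ d₃ A) (hx : 2 * d₃ ≤ |⟪b 2, x - c⟫|) :
    |VA R A x| ^ 2 ≤ 9 * N ^ 2 * (d₁ * d₂) ^ 2 /
      (|⟪b 2, x - c⟫| ^ 2 * ((d₁ + |⟪b 0, x - c⟫|) * (d₂ + |⟪b 1, x - c⟫|))) := by
  have hd₂ : 0 < d₂ := hd₁.trans_le h12
  have hd₃ : 0 < d₃ := hd₂.trans_le h23
  set x₁ : ℝ := ⟪b 0, x - c⟫ with hx₁
  set x₂ : ℝ := ⟪b 1, x - c⟫ with hx₂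
  set x₃ : ℝ := ⟪b 2, x - c⟫ with hx₃
  have hx₃0 : 0 < |x₃| := by linarith
  obtain ⟨b', hb0, hb1⟩ := exists_basis2 (e := b 2) (f := b 0) (b.norm_eq_one _) (b.norm_eq_one _)
    (b.inner_eq_zero (by decide))
  have hb2 : ∀ z : E3, ⟪b' 2, z⟫ ^ 2 = ⟪b 1, z⟫ ^ 2 := by
    intro z
    have h1 := norm_sq_coord3 b z
    have h2 := norm_sq_coord3 b' z
    rw [hb0, hb1] at h2
    linarith
  set y₂ : ℝ := ⟪b' 2, x - c⟫ with hy₂
  have hyx : |y₂| = |x₂| := by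
    rw [← sq_eq_sq₀ (abs_nonneg _) (abs_nonneg _), sq_abs, sq_abs]; exact hb2 _
  set Mx : ℝ := max (d₁ + |x₁|) (d₂ + |x₂|) with hMx
  have hMx0 : 0 < Mx := lt_of_lt_of_le (by positivity) (le_max_left _ _)
  have hmem : ∀ s t u : ℝ, x + s • b' 0 + t • b' 1 + u • b' 2 ∈ A →
      |x₃ + s| ≤ d₃ ∧ |x₁ + t| ≤ d₁ ∧ |y₂ + u| ≤ d₂ := by
    intro s t u h
    obtain ⟨i0, i1, i2⟩ := inner_coord3 b' x c s t u
    generalize x + s • b' 0 + t • b' 1 + u • b' 2 = y at h i0 i1 i2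
    obtain ⟨h1, h2, h3⟩ := hr _ h
    rw [hb0] at i0
    rw [hb1] at i1
    rw [i0] at h3
    rw [i1] at h1
    refine ⟨h3, h1, ?_⟩
    rw [← i2]
    have h4 := hb2 (y - c)
    have h5 : |⟪b' 2, y - c⟫| = |⟪b 1, y - c⟫| := by
      rw [← sq_eq_sq₀ (abs_nonneg _) (abs_nonneg _), sq_abs, sq_abs]; exact h4
    rw [h5]; exact h2
  have low : ∀ a d δ τ : ℝ, 0 < d → d ≤ d₃ → |a + δ| ≤ d → |x₃| / 2 ≤ τ →
      (d + |a|) / 3 ≤ max τ |δ| := by
    intro a d δ τ hd hd3 h1 h2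
    rcases le_or_gt (2 * d) |a| with h | h
    · refine le_trans ?_ (le_max_right _ _)
      have h4 : |a| ≤ |a + δ| + |δ| := by
        calc |a| = |(a + δ) - δ| := by rw [add_sub_cancel_right]
          _ ≤ _ := abs_sub _ _
      linarith
    · refine le_trans ?_ (le_max_left _ _)
      linarith
  have hdist : ∀ s t u : ℝ, x + s • b' 0 + t • b' 1 + u • b' 2 ∈ A → ∀ s', |x₃| / 2 ≤ s' →
      Mx / 3 ≤ √(s' ^ 2 + √(t ^ 2 + u ^ 2) ^ 2) := by
    intro s t u h s' hs'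
    obtain ⟨-, h1, h2⟩ := hmem s t u h
    apply le_sqrt_of_sq_le
    rw [sq_sqrt (by positivity)]
    have l1 := low x₁ d₁ t s' hd₁ (h12.trans h23) h1 hs'
    have l2 := low y₂ d₂ u s' hd₂ h23 h2 hs'
    rw [hyx] at l2
    have hs0 : 0 ≤ s' := le_trans (by positivity) hs'
    have m1 : (max s' |t|) ^ 2 ≤ s' ^ 2 + (t ^ 2 + u ^ 2) := by
      rcases max_cases s' |t| with ⟨h, -⟩ | ⟨h, -⟩
      · rw [h]; nlinarith [sq_nonneg t, sq_nonneg u]
      · rw [h, sq_abs]; nlinarith [sq_nonneg s', sq_nonneg u]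
    have m2 : (max s' |u|) ^ 2 ≤ s' ^ 2 + (t ^ 2 + u ^ 2) := by
      rcases max_cases s' |u| with ⟨h, -⟩ | ⟨h, -⟩
      · rw [h]; nlinarith [sq_nonneg t, sq_nonneg u]
      · rw [h, sq_abs]; nlinarith [sq_nonneg s', sq_nonneg t]
    rcases max_cases (d₁ + |x₁|) (d₂ + |x₂|) with ⟨h, -⟩ | ⟨h, -⟩
    · rw [hMx, h]
      exact (pow_le_pow_left₀ (by positivity) l1 2).trans m1
    · rw [hMx, h]
      exact (pow_le_pow_left₀ (by positivity) l2 2).trans m2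
  have main : |VA R A x| ≤ N * (1 / (9 * (|x₃| / 2) * (Mx / 3))) *
      ((-x₁ + d₁ - (-x₁ - d₁)) * (-y₂ + d₂ - (-y₂ - d₂))) := by
    refine line3 (x := x) b' hR hA hb hN (A₀ := -x₃ - d₃) (B₀ := -x₃ + d₃) (by linarith)
      (by linarith) (by linarith) ?_ (by positivity) ?_
    · intro s t u h
      obtain ⟨h1, h2, h3⟩ := hmem s t u h
      have := abs_le.1 h1
      have := abs_le.1 h2
      have := abs_le.1 h3
      refine ⟨⟨?_, ?_⟩, ⟨?_, ?_⟩, ⟨?_, ?_⟩⟩ <;> linarith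
    · intro s t u h v w hv hvw hw
      have hsq : ∀ s : ℝ, √(s ^ 2 + (t ^ 2 + u ^ 2)) = √(s ^ 2 + √(t ^ 2 + u ^ 2) ^ 2) := by
        intro s; rw [sq_sqrt (by positivity)]
      simp_rw [hsq]
      rcases lt_or_ge x₃ 0 with hneg | hpos
      · have hab : |x₃| = -x₃ := abs_of_neg hneg
        refine chord_pos (α := |x₃| / 2) (ρ := Mx / 3) (by positivity) (by positivity)
          (by linarith) hvw ?_
        exact fun s' hs' => hdist s t u h s' hs'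
      · have hab : |x₃| = x₃ := abs_of_nonneg hpos
        refine chord_neg (α := |x₃| / 2) (ρ := Mx / 3) (by positivity) (by positivity)
          (by linarith) hvw ?_
        exact fun s' hs' => hdist s t u h s' hs'
  have main2 : |VA R A x| ≤ 3 * N * (d₁ * d₂) / (|x₃| * Mx) := by
    refine main.trans ?_
    have e : N * (1 / (9 * (|x₃| / 2) * (Mx / 3))) *
      ((-x₁ + d₁ - (-x₁ - d₁)) * (-y₂ + d₂ - (-y₂ - d₂))) = 8 / 3 * (N * (d₁ * d₂) / (|x₃| * Mx)) := by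
      field_simp
      ring
    rw [e]
    have : 0 ≤ N * (d₁ * d₂) / (|x₃| * Mx) := by positivity
    calc 8 / 3 * (N * (d₁ * d₂) / (|x₃| * Mx)) ≤ 3 * (N * (d₁ * d₂) / (|x₃| * Mx)) := by linarith
      _ = _ := by ring
  have hPQ : (d₁ + |x₁|) * (d₂ + |x₂|) ≤ Mx ^ 2 := by
    rw [sq]
    exact mul_le_mul (le_max_left _ _) (le_max_right _ _) (by positivity) hMx0.le
  calc |VA R A x| ^ 2 ≤ (3 * N * (d₁ * d₂) / (|x₃| * Mx)) ^ 2 :=
        pow_le_pow_left₀ (abs_nonneg _) main2 2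
    _ = 9 * N ^ 2 * (d₁ * d₂) ^ 2 / (|x₃| ^ 2 * Mx ^ 2) := by
        rw [div_pow]; ring
    _ ≤ _ := by gcongr

end Pool.Agent.Helper854_Q3
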