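import Mathlib
import Pool.Agent.Helper854_Q3.E

/-! The bound far away in the directions of the shorter sides. -/

set_option autoImplicit false

open MeasureTheory Real Set Filter Topology
open scoped ENNReal NNReal RealInnerProductSpace

namespace Pool.Agent.Helper854_Q3

open Pool.Agent.Helper854_QC (NInt ord_ae nint_bound int_le NInt.inter)

variable {R : ℝ} {A : Set E3} {x : E3} {N : ℕ}

lemma VA_split (hR : 0 < R) (hA : MeasurableSet A) (hf : volume A < ⊤) {C : Set E3}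
    (hC : MeasurableSet C) : VA R A x = VA R (A ∩ C) x + VA R (A \ C) x := by
  have h1 : IntegrableOn (fun y => gk3 R ‖x - y‖) A := by
    rw [← integrable_indicator_iff hA]; exact int_fin hR hA hf
  exact (integral_inter_add_sdiff hC h1).symm

lemma cvx (u x : E3) {I : Set ℝ} (hI : Convex ℝ I) : Convex ℝ {y : E3 | ⟪u, y - x⟫ ∈ I} := by
  intro y hy z hz α β hα hβ hαβ
  have e : ⟪u, α • y + β • z - x⟫ = α • ⟪u, y - x⟫ + β • ⟪u, z - x⟫ := by
    have h : α • y + β • z - x = α • (y - x) + β • (z - x) := by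
      have h2 : x = (α + β) • x := by rw [hαβ, one_smul]
      nth_rw 1 [h2]
      module
    rw [h, inner_add_right, real_inner_smul_right, real_inner_smul_right]
    rfl
  rw [mem_ofPred_eq, e]
  exact hI hy hz hα hβ hαβ

theorem B2 (b : OrthonormalBasis (Fin 3) ℝ E3) (hR : 0 < R) (hA : MeasurableSet A)
    (hb : Bornology.IsBounded A) (hN : LineN N A) {c : E3} {d₁ d₂ d₃ : ℝ} (hd₂ : 0 < d₂)
    (h12 : d₁ ≤ d₂) (hr : InBox b c d₁ d₂ d₃ A) {t : ℝ}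
    (ht : t ^ 2 = ⟪b 0, x - c⟫ ^ 2 + ⟪b 1, x - c⟫ ^ 2) (hx : 8 * d₂ ≤ t) :
    |VA R A x| ^ 2 ≤ 196 * N ^ 2 * (d₂ / t) ^ 3 := by
  have ht0 : 0 < t := by linarith
  have hf : volume A < ⊤ := hb.measure_lt_top
  obtain ⟨B, hB⟩ := hb.subset_closedBall x
  set x₁ : ℝ := ⟪b 0, x - c⟫ with hx₁
  set x₂ : ℝ := ⟪b 1, x - c⟫ with hx₂
  set x₃ : ℝ := ⟪b 2, x - c⟫ with hx₃
  set f : E3 := -(t⁻¹ • (x₁ • b 0 + x₂ • b 1)) with hfdef
  have inf : ∀ z : E3, ⟪f, z⟫ = -(t⁻¹ * (x₁ * ⟪b 0, z⟫ + x₂ * ⟪b 1, z⟫)) := by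
    intro z
    rw [hfdef, inner_neg_left, real_inner_smul_left, inner_add_left, real_inner_smul_left,
      real_inner_smul_left]
  have h01 : ⟪b 0, b 1⟫ = (0 : ℝ) := b.inner_eq_zero (by decide)
  have h10 : ⟪b 1, b 0⟫ = (0 : ℝ) := b.inner_eq_zero (by decide)
  have h20 : ⟪b 2, b 0⟫ = (0 : ℝ) := b.inner_eq_zero (by decide)
  have h21 : ⟪b 2, b 1⟫ = (0 : ℝ) := b.inner_eq_zero (by decide)
  have h02 : ⟪b 0, b 2⟫ = (0 : ℝ) := b.inner_eq_zero (by decide)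
  have h12' : ⟪b 1, b 2⟫ = (0 : ℝ) := b.inner_eq_zero (by decide)
  have h00 : ⟪b 0, b 0⟫ = (1 : ℝ) := by rw [real_inner_self_eq_norm_sq, b.norm_eq_one]; norm_num
  have h11 : ⟪b 1, b 1⟫ = (1 : ℝ) := by rw [real_inner_self_eq_norm_sq, b.norm_eq_one]; norm_num
  have f0 : ⟪b 0, f⟫ = -(t⁻¹ * x₁) := by
    rw [real_inner_comm, inf, h00, h10]; ring
  have f1 : ⟪b 1, f⟫ = -(t⁻¹ * x₂) := by
    rw [real_inner_comm, inf, h01, h11]; ring
  have f2 : ⟪b 2, f⟫ = 0 := by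
    rw [real_inner_comm, inf, h02, h12']; ring
  have hfn : ‖f‖ = 1 := by
    have h := norm_sq_coord3 b f
    rw [f0, f1, f2] at h
    have h3 : ‖f‖ ^ 2 = 1 := by
      rw [h]
      have : (-(t⁻¹ * x₁)) ^ 2 + (-(t⁻¹ * x₂)) ^ 2 + 0 ^ 2 = (t⁻¹) ^ 2 * (x₁ ^ 2 + x₂ ^ 2) := by ring
      rw [this, ← ht]
      field_simp
    exact (pow_eq_one_iff_of_nonneg (norm_nonneg f) two_ne_zero).1 h3
  obtain ⟨b', hb0, hb1⟩ := exists_basis2 (e := b 2) (f := f) (b.norm_eq_one _) hfn f2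
  have key : ∀ z : E3, ⟪b' 1, z⟫ ^ 2 + ⟪b' 2, z⟫ ^ 2 = ⟪b 0, z⟫ ^ 2 + ⟪b 1, z⟫ ^ 2 := by
    intro z
    have h1 := norm_sq_coord3 b z
    have h2 := norm_sq_coord3 b' z
    rw [hb0] at h2
    linarith
  have c1 : ⟪b' 1, x - c⟫ = -t := by
    rw [hb1, inf, ← hx₁, ← hx₂]
    have : x₁ * x₁ + x₂ * x₂ = t ^ 2 := by rw [ht]; ring
    rw [this]
    field_simp
  have c2 : ⟪b' 2, x - c⟫ = 0 := by
    have h := key (x - c)
    rw [c1, ← hx₁, ← hx₂, ← ht] at h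
    have h2 : ⟪b' 2, x - c⟫ ^ 2 = 0 := by linarith
    exact pow_eq_zero_iff (two_ne_zero) |>.1 h2
  have hmem : ∀ s τ υ : ℝ, x + s • b' 0 + τ • b' 1 + υ • b' 2 ∈ A →
      |-t + τ| ≤ 2 * d₂ ∧ |υ| ≤ 2 * d₂ := by
    intro s τ υ h
    obtain ⟨i0, i1, i2⟩ := inner_coord3 b' x c s τ υ
    rw [c1] at i1
    rw [c2, zero_add] at i2
    obtain ⟨h1, h2, -⟩ := hr _ h
    have h3 := key (x + s • b' 0 + τ • b' 1 + υ • b' 2 - c)
    rw [i1, i2] at h3
    have h4 : ⟪b 0, x + s • b' 0 + τ • b' 1 + υ • b' 2 - c⟫ ^ 2 ≤ d₂ ^ 2 := by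
      rw [← sq_abs]; exact pow_le_pow_left₀ (abs_nonneg _) (h1.trans h12) 2
    have h5 : ⟪b 1, x + s • b' 0 + τ • b' 1 + υ • b' 2 - c⟫ ^ 2 ≤ d₂ ^ 2 := by
      rw [← sq_abs]; exact pow_le_pow_left₀ (abs_nonneg _) h2 2
    constructor
    · refine abs_le_of_sq_le_sq ?_ (by positivity)
      nlinarith [sq_nonneg υ]
    · refine abs_le_of_sq_le_sq ?_ (by positivity)
      nlinarith [sq_nonneg (-t + τ)]
  have hmem' : ∀ s τ υ : ℝ, x + s • b' 0 + τ • b' 1 + υ • b' 2 ∈ A →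
      (t - 2 * d₂ ≤ τ ∧ τ ≤ t + 2 * d₂) ∧ (-(2 * d₂) ≤ υ ∧ υ ≤ 2 * d₂) := by
    intro s τ υ h
    obtain ⟨h1, h2⟩ := hmem s τ υ h
    have h3 := abs_le.1 h1
    have h4 := abs_le.1 h2
    exact ⟨⟨by linarith, by linarith⟩, h4⟩
  set s₀ : ℝ := √(t * d₂) with hs₀
  have hs0 : 0 < s₀ := sqrt_pos.2 (by positivity)
  have hss : s₀ * s₀ = t * d₂ := mul_self_sqrt (by positivity)
  -- the pieces
  set C₀ : Set E3 := {y | ⟪b 2, y - x⟫ ∈ Icc (-s₀) s₀} with hC₀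
  set C₁ : Set E3 := {y | ⟪b 2, y - x⟫ ∈ Ici s₀} with hC₁
  set C₂ : Set E3 := {y | ⟪b 2, y - x⟫ ∈ Iic (-s₀)} with hC₂
  have hcv1 : Convex ℝ C₁ := cvx _ _ (convex_Ici _)
  have hcv2 : Convex ℝ C₂ := cvx _ _ (convex_Iic _)
  have hcv0 : Convex ℝ C₀ := cvx _ _ (convex_Icc _ _)
  have hmf : Measurable fun y : E3 => ⟪b 2, y - x⟫ := by fun_prop
  have hm0 : MeasurableSet C₀ := hmf measurableSet_Icc
  have hm1 : MeasurableSet C₁ := hmf measurableSet_Ici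
  have hm2 : MeasurableSet C₂ := hmf measurableSet_Iic
  have hst : ∀ s τ υ : ℝ, ⟪b 2, x + s • b' 0 + τ • b' 1 + υ • b' 2 - x⟫ = s := by
    intro s τ υ
    obtain ⟨i0, -, -⟩ := inner_coord3 b' x x s τ υ
    rw [sub_self, inner_zero_right, zero_add] at i0
    generalize x + s • b' 0 + τ • b' 1 + υ • b' 2 = y at i0
    rwa [hb0] at i0
  have hd4 : 2 * d₂ ≤ t / 4 := by linarith
  -- the near part
  have hnear : |VA R (A ∩ C₀) x| ≤ 6 * N * (d₂ * s₀ / t ^ 2) := by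
    have h := plane3 (x := x) b' hR (hA.inter hm0) (hb.subset inter_subset_left)
      (hN.inter hcv0) (M := 1 / (9 * (t / 2))) (σ₁ := -s₀) (σ₂ := s₀) (φ₀ := 2 * π * d₂ / t)
      (a₀ := t / 2) (B₀ := |B| + t / 2) (by linarith) (by positivity)
      (by linarith [abs_nonneg B])
      (fun s τ υ h => by
        have h1 := h.2
        rw [hC₀, mem_ofPred_eq, hst] at h1
        exact h1)
      (fun s r φ hr0 hφ h => by
        obtain ⟨⟨h1, h2⟩, h3, h4⟩ := hmem' s (r * cos φ) (r * sin φ) h.1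
        have hc : 0 < cos φ := by
          by_contra hc
          rw [not_lt] at hc
          nlinarith
        have hφ2 : |φ| ≤ π / 2 := by
          by_contra hcc
          rw [not_le] at hcc
          have h5 : cos |φ| ≤ 0 := cos_nonpos_of_pi_div_two_le_of_le hcc.le (by
            have : |φ| ≤ π := abs_le.2 ⟨hφ.1.le, hφ.2.le⟩
            linarith [pi_pos])
          rw [cos_abs] at h5
          linarith
        have h5 := mul_abs_le_abs_sin hφ2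
        have h6 : r * |sin φ| ≤ 2 * d₂ := by
          have : |r * sin φ| ≤ 2 * d₂ := abs_le.2 ⟨h3, h4⟩
          rwa [abs_mul, abs_of_pos hr0] at this
        have h7 : 3 * t / 4 ≤ r := by
          have : r * cos φ ≤ r * 1 := mul_le_mul_of_nonneg_left (cos_le_one φ) hr0.le
          linarith
        have h8 : 3 * t / 4 * |sin φ| ≤ 2 * d₂ :=
          (mul_le_mul_of_nonneg_right h7 (abs_nonneg _)).trans h6
        have h9 : 3 * t / 4 * (2 / π * |φ|) ≤ 2 * d₂ :=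
          (mul_le_mul_of_nonneg_left h5 (by positivity)).trans h8
        rw [le_div_iff₀ ht0]
        have h10 : 3 * t / 4 * (2 / π * |φ|) * π = 3 / 2 * (|φ| * t) := by
          field_simp
          ring
        have h11 : 3 * t / 4 * (2 / π * |φ|) * π ≤ 2 * d₂ * π :=
          mul_le_mul_of_nonneg_right h9 pi_pos.le
        have : 0 ≤ |φ| * t := by positivity
        nlinarith [pi_pos])
      (fun s r φ hr0 h => by
        obtain ⟨⟨h1, h2⟩, h3, h4⟩ := hmem' s (r * cos φ) (r * sin φ) h.1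
        constructor
        · have : r * cos φ ≤ r * 1 := mul_le_mul_of_nonneg_left (cos_le_one φ) hr0.le
          linarith
        · have h1 : ‖x + s • b' 0 + (r * cos φ) • b' 1 + (r * sin φ) • b' 2 - x‖ ≤ B := by
            rw [← dist_eq_norm]; exact Metric.mem_closedBall.1 (hB h.1)
          have h2 := norm_sq_coord3 b' (x + s • b' 0 + (r * cos φ) • b' 1 + (r * sin φ) • b' 2 - x)
          obtain ⟨i0, i1, i2⟩ := inner_coord3 b' x x s (r * cos φ) (r * sin φ)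
          rw [sub_self, inner_zero_right, zero_add] at i0 i1 i2
          rw [i0, i1, i2] at h2
          have h3 := sin_sq_add_cos_sq φ
          have h4 : r ^ 2 ≤ |B| ^ 2 := by
            have h5 : ‖x + s • b' 0 + (r * cos φ) • b' 1 + (r * sin φ) • b' 2 - x‖ ^ 2 ≤ |B| ^ 2 :=
              pow_le_pow_left₀ (norm_nonneg _) (h1.trans (le_abs_self _)) 2
            rw [h2] at h5
            nlinarith [sq_nonneg s]
          have h6 := abs_le_of_sq_le_sq' h4 (abs_nonneg _) |>.2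
          linarith)
      (fun s h1 h2 v w hv hvw => by
        refine pray (by linarith) hvw (by positivity) fun r hr => ?_
        apply le_sqrt_of_sq_le
        nlinarith [sq_nonneg s])
    refine h.trans ?_
    have e : N * (1 / (9 * (t / 2))) * (2 * (2 * π * d₂ / t)) * (s₀ - -s₀) =
        (16 * π / 9) * (N * (d₂ * s₀ / t ^ 2)) := by
      field_simp
      ring
    rw [e]
    have h5 : 16 * π / 9 ≤ 6 := by linarith [pi_lt_d2]
    calc (16 * π / 9) * (N * (d₂ * s₀ / t ^ 2)) ≤ 6 * (N * (d₂ * s₀ / t ^ 2)) := by gcongr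
      _ = _ := by ring
  -- the far parts
  have hfar_e : N * (1 / (9 * s₀ * (t / 2))) * ((t + 2 * d₂ - (t - 2 * d₂)) *
      (2 * d₂ - -(2 * d₂))) ≤ 4 * N * (d₂ * s₀ / t ^ 2) := by
    have e1 : d₂ * s₀ / t ^ 2 = d₂ ^ 2 / (s₀ * t) := by
      rw [div_eq_div_iff (by positivity) (by positivity)]
      calc d₂ * s₀ * (s₀ * t) = d₂ * (s₀ * s₀) * t := by ring
        _ = d₂ ^ 2 * t ^ 2 := by rw [hss]; ring
    rw [e1]
    have e2 : N * (1 / (9 * s₀ * (t / 2))) * ((t + 2 * d₂ - (t - 2 * d₂)) *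
      (2 * d₂ - -(2 * d₂))) = 32 / 9 * (N * (d₂ ^ 2 / (s₀ * t))) := by
      field_simp
      ring
    rw [e2]
    have : 0 ≤ N * (d₂ ^ 2 / (s₀ * t)) := by positivity
    linarith
  have hdist : ∀ s τ υ : ℝ, x + s • b' 0 + τ • b' 1 + υ • b' 2 ∈ A → ∀ s' : ℝ,
      t / 2 ≤ √(s' ^ 2 + (τ ^ 2 + υ ^ 2)) := by
    intro s τ υ h s'
    obtain ⟨⟨h1, h2⟩, -⟩ := hmem' s τ υ h
    apply le_sqrt_of_sq_le
    have h3 : t / 2 ≤ τ := by linarith
    nlinarith [sq_nonneg s', sq_nonneg υ]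
  have hbig : ∀ s τ υ : ℝ, x + s • b' 0 + τ • b' 1 + υ • b' 2 ∈ A → -|B| ≤ s ∧ s ≤ |B| := by
    intro s τ υ h
    have h1 : ‖x + s • b' 0 + τ • b' 1 + υ • b' 2 - x‖ ≤ B := by
      rw [← dist_eq_norm]; exact Metric.mem_closedBall.1 (hB h)
    have h2 := norm_sq_coord3 b' (x + s • b' 0 + τ • b' 1 + υ • b' 2 - x)
    obtain ⟨i0, i1, i2⟩ := inner_coord3 b' x x s τ υ
    rw [sub_self, inner_zero_right, zero_add] at i0 i1 i2
    rw [i0, i1, i2] at h2
    have h5 : ‖x + s • b' 0 + τ • b' 1 + υ • b' 2 - x‖ ^ 2 ≤ |B| ^ 2 :=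
      pow_le_pow_left₀ (norm_nonneg _) (h1.trans (le_abs_self _)) 2
    rw [h2] at h5
    exact abs_le_of_sq_le_sq' (by nlinarith [sq_nonneg τ, sq_nonneg υ]) (abs_nonneg _)
  have hsq : ∀ s τ υ : ℝ, √(s ^ 2 + (τ ^ 2 + υ ^ 2)) = √(s ^ 2 + √(τ ^ 2 + υ ^ 2) ^ 2) := by
    intro s τ υ; rw [sq_sqrt (by positivity)]
  have hfar1 : |VA R (A ∩ C₁) x| ≤ 4 * N * (d₂ * s₀ / t ^ 2) := by
    refine (line3 (x := x) b' hR (hA.inter hm1) (hb.subset inter_subset_left) (hN.inter hcv1)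
      (M := 1 / (9 * s₀ * (t / 2))) (τ₁ := t - 2 * d₂) (τ₂ := t + 2 * d₂) (υ₁ := -(2 * d₂))
      (υ₂ := 2 * d₂) (A₀ := s₀) (B₀ := |B| + s₀) (by linarith)
      (by linarith) (by linarith [abs_nonneg B]) ?_ (by positivity) ?_).trans hfar_e
    · intro s τ υ h
      have h1 := h.2
      rw [hC₁, mem_ofPred_eq, hst] at h1
      have h2 := hbig s τ υ h.1
      exact ⟨⟨h1, by linarith [h2.2]⟩, hmem' s τ υ h.1⟩
    · intro s τ υ h v w hv hvw hw
      simp_rw [hsq]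
      refine chord_pos hs0 (by positivity) hv hvw fun s' _ => ?_
      rw [← hsq]
      exact hdist s τ υ h.1 s'
  have hfar2 : |VA R (A ∩ C₂) x| ≤ 4 * N * (d₂ * s₀ / t ^ 2) := by
    refine (line3 (x := x) b' hR (hA.inter hm2) (hb.subset inter_subset_left) (hN.inter hcv2)
      (M := 1 / (9 * s₀ * (t / 2))) (τ₁ := t - 2 * d₂) (τ₂ := t + 2 * d₂) (υ₁ := -(2 * d₂))
      (υ₂ := 2 * d₂) (A₀ := -|B| - s₀) (B₀ := -s₀) (by linarith)
      (by linarith) (by linarith [abs_nonneg B]) ?_ (by positivity) ?_).trans hfar_e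
    · intro s τ υ h
      have h1 := h.2
      rw [hC₂, mem_ofPred_eq, hst] at h1
      have h2 := hbig s τ υ h.1
      exact ⟨⟨by linarith [h2.1], h1⟩, hmem' s τ υ h.1⟩
    · intro s τ υ h v w hv hvw hw
      simp_rw [hsq]
      refine chord_neg hs0 (by positivity) hw hvw fun s' _ => ?_
      rw [← hsq]
      exact hdist s τ υ h.1 s'
  -- almost everywhere partition
  have hz : ∀ a : ℝ, volume {y : E3 | ⟪b 2, y - x⟫ = a} = 0 := by
    intro a
    have h1 : {y : E3 | ⟪b 2, y - x⟫ = a} = (fun y => ceq3 b (y - x)) ⁻¹' {p | p.2.2 = a} := by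
      ext y
      simp only [mem_ofPred_eq, mem_preimage, ceq3_apply]
    have mp : MeasurePreserving (fun y => ceq3 b (y - x)) volume volume :=
      (ceq3_mp b).comp (measurePreserving_sub_right volume x)
    have hmm : MeasurableSet {p : ℝ × (ℝ × ℝ) | p.2.2 = a} :=
      measurableSet_eq_fun (by fun_prop) measurable_const
    rw [h1, mp.measure_preimage hmm.nullMeasurableSet]
    have h2 : {p : ℝ × (ℝ × ℝ) | p.2.2 = a} = univ ×ˢ (univ ×ˢ {a}) := by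
      ext p
      simp
    rw [h2, Measure.volume_eq_prod, Measure.prod_prod, Measure.volume_eq_prod, Measure.prod_prod]
    simp
  have hcup : |VA R A x| ≤ 14 * N * (d₂ * s₀ / t ^ 2) := by
    have e1 := VA_split (x := x) hR hA hf hm0
    have e2 := VA_split (x := x) (A := A \ C₀) hR (hA.diff hm0)
      ((measure_mono diff_subset).trans_lt hf) hm1
    have e3 : VA R ((A \ C₀) ∩ C₁) x = VA R (A ∩ C₁) x := by
      rw [VA, VA]
      refine setIntegral_congr_set ?_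
      have hne : ∀ᵐ y : E3, ⟪b 2, y - x⟫ ≠ s₀ := by
        rw [ae_iff]; simpa using hz s₀
      filter_upwards [hne] with y hy
      refine propext ⟨fun h => ⟨h.1.1, h.2⟩, fun h => ⟨⟨h.1, fun h0 => ?_⟩, h.2⟩⟩
      have h1 : ⟪b 2, y - x⟫ ∈ Icc (-s₀) s₀ := h0
      have h2 : s₀ ≤ ⟪b 2, y - x⟫ := h.2
      exact hy (le_antisymm h1.2 h2)
    have e4 : VA R ((A \ C₀) \ C₁) x = VA R (A ∩ C₂) x := by
      rw [VA, VA]
      refine setIntegral_congr_set ?_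
      have hne : ∀ᵐ y : E3, ⟪b 2, y - x⟫ ≠ -s₀ := by
        rw [ae_iff]; simpa using hz (-s₀)
      filter_upwards [hne] with y hy
      refine propext ⟨fun h => ⟨h.1.1, ?_⟩, fun h => ⟨⟨h.1, fun h0 => ?_⟩, fun h1 => ?_⟩⟩
      · have h1 : ¬ ⟪b 2, y - x⟫ ∈ Icc (-s₀) s₀ := h.1.2
        have h2 : ¬ s₀ ≤ ⟪b 2, y - x⟫ := h.2
        rw [not_le] at h2
        change ⟪b 2, y - x⟫ ≤ -s₀
        by_contra h3
        rw [not_le] at h3
        exact h1 ⟨h3.le, h2.le⟩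
      · have h1 : ⟪b 2, y - x⟫ ∈ Icc (-s₀) s₀ := h0
        have h2 : ⟪b 2, y - x⟫ ≤ -s₀ := h.2
        exact hy (le_antisymm h2 h1.1)
      · have h2 : ⟪b 2, y - x⟫ ≤ -s₀ := h.2
        have h3 : s₀ ≤ ⟪b 2, y - x⟫ := h1
        linarith
    rw [e1, e2, e3, e4]
    calc |VA R (A ∩ C₀) x + (VA R (A ∩ C₁) x + VA R (A ∩ C₂) x)|
        ≤ |VA R (A ∩ C₀) x| + (|VA R (A ∩ C₁) x| + |VA R (A ∩ C₂) x|) :=
          (abs_add_le _ _).trans (by gcongr; exact abs_add_le _ _)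
      _ ≤ 6 * N * (d₂ * s₀ / t ^ 2) + (4 * N * (d₂ * s₀ / t ^ 2) + 4 * N * (d₂ * s₀ / t ^ 2)) := by
          gcongr
      _ = _ := by ring
  calc |VA R A x| ^ 2 ≤ (14 * N * (d₂ * s₀ / t ^ 2)) ^ 2 :=
        pow_le_pow_left₀ (abs_nonneg _) hcup 2
    _ = 196 * N ^ 2 * (d₂ ^ 2 * (s₀ * s₀) / t ^ 4) := by rw [mul_pow, div_pow]; ring
    _ = 196 * N ^ 2 * (d₂ / t) ^ 3 := by
        rw [hss, div_pow]
        congr 1
        field_simp

end Pool.Agent.Helper854_Q3
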