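import Mathlib
import Pool.Agent.Helper854_Q3.F

/-! The integrated bound for the maximal partial sum, and the class of sets. -/

set_option autoImplicit false

open MeasureTheory Real Set Filter Topology
open scoped ENNReal NNReal RealInnerProductSpace

namespace Pool.Agent.Helper854_Q3

variable {R : ℝ} {A : Set E3} {x : E3} {N : ℕ}

lemma cS_nonneg : 0 ≤ cS := measureReal_nonneg

lemma comb1 (b : OrthonormalBasis (Fin 3) ℝ E3) (hR : 0 < R) (hA : MeasurableSet A)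
    (hb : Bornology.IsBounded A) (hN : LineN N A) {c : E3} {d₁ d₂ d₃ : ℝ} (hd₁ : 0 < d₁)
    (hr : InBox b c d₁ d₂ d₃ A) :
    |VA R A x| ≤ 27 * (cS + 1) * N * (1 + |⟪b 0, x - c⟫ / d₁|)⁻¹ := by
  set τ : ℝ := ⟪b 0, x - c⟫ with hτ
  have hN0 : (0 : ℝ) ≤ N := Nat.cast_nonneg N
  have hG := cS_nonneg
  have e : (1 + |τ / d₁|)⁻¹ = d₁ / (d₁ + |τ|) := by
    rw [abs_div, abs_of_pos hd₁]; field_simp
  rw [e]
  rcases le_or_gt (2 * d₁) |τ| with h | h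
  · have h1 := B1 b hR hA hb hN hd₁ hr h
    rw [← hτ] at h1
    have h2 : 0 < |τ| := by linarith
    refine h1.trans ?_
    have h3 : d₁ / |τ| ≤ 3 / 2 * (d₁ / (d₁ + |τ|)) := by
      rw [mul_div_assoc', div_le_div_iff₀ h2 (by positivity)]
      nlinarith
    have h4 : 0 ≤ d₁ / (d₁ + |τ|) := by positivity
    calc 3 * N * d₁ / |τ| = 3 * N * (d₁ / |τ|) := by ring
      _ ≤ 3 * N * (3 / 2 * (d₁ / (d₁ + |τ|))) := by gcongr
      _ = 9 / 2 * (N * (d₁ / (d₁ + |τ|))) := by ring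
      _ ≤ 27 * (cS + 1) * (N * (d₁ / (d₁ + |τ|))) := by gcongr; linarith
      _ = _ := by ring
  · refine (ray_bound hR hA hb hN x).trans ?_
    have h3 : 1 / 3 ≤ d₁ / (d₁ + |τ|) := by
      rw [div_le_div_iff₀ (by norm_num) (by positivity)]; linarith
    calc N * cS ≤ 27 * (cS + 1) * N * (1 / 3) := by nlinarith [mul_nonneg hN0 hG]
      _ ≤ _ := by gcongr

lemma comb2 (b : OrthonormalBasis (Fin 3) ℝ E3) (hR : 0 < R) (hA : MeasurableSet A)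
    (hb : Bornology.IsBounded A) (hN : LineN N A) {c : E3} {d₁ d₂ d₃ : ℝ} (hd₂ : 0 < d₂)
    (h12 : d₁ ≤ d₂) (hr : InBox b c d₁ d₂ d₃ A) :
    |VA R A x| ^ 2 ≤ (27 * (cS + 1) * N) ^ 2 * ((1 + |⟪b 1, x - c⟫ / d₂|)⁻¹) ^ 3 := by
  set σ : ℝ := ⟪b 1, x - c⟫ with hσ
  have hN0 : (0 : ℝ) ≤ N := Nat.cast_nonneg N
  have hG := cS_nonneg
  have e : (1 + |σ / d₂|)⁻¹ = d₂ / (d₂ + |σ|) := by
    rw [abs_div, abs_of_pos hd₂]; field_simp
  rw [e]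
  set t : ℝ := √(⟪b 0, x - c⟫ ^ 2 + σ ^ 2) with ht
  have htt : t ^ 2 = ⟪b 0, x - c⟫ ^ 2 + σ ^ 2 := sq_sqrt (by positivity)
  have ht0 : 0 ≤ t := sqrt_nonneg _
  have hs : |σ| ≤ t := by
    apply le_sqrt_of_sq_le
    rw [sq_abs]
    nlinarith [sq_nonneg ⟪b 0, x - c⟫]
  have hs0 := abs_nonneg σ
  rcases le_or_gt (8 * d₂) t with h | h
  · have h1 := B2 b hR hA hb hN hd₂ h12 hr htt h
    refine h1.trans ?_
    have hr0 : 0 < t := by linarith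
    have h2 : d₂ / t ≤ 9 / 8 * (d₂ / (d₂ + |σ|)) := by
      rw [mul_div_assoc', div_le_div_iff₀ hr0 (by positivity)]
      nlinarith
    have h3 : (d₂ / t) ^ 3 ≤ (9 / 8 * (d₂ / (d₂ + |σ|))) ^ 3 :=
      pow_le_pow_left₀ (by positivity) h2 3
    have h4 : 0 ≤ (d₂ / (d₂ + |σ|)) ^ 3 := by positivity
    calc 196 * (N : ℝ) ^ 2 * (d₂ / t) ^ 3 ≤ 196 * (N : ℝ) ^ 2 * (9 / 8 * (d₂ / (d₂ + |σ|))) ^ 3 := by
          gcongr
      _ = 196 * 729 / 512 * ((N : ℝ) ^ 2 * (d₂ / (d₂ + |σ|)) ^ 3) := by ring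
      _ ≤ (27 * (cS + 1)) ^ 2 * ((N : ℝ) ^ 2 * (d₂ / (d₂ + |σ|)) ^ 3) := by
          refine mul_le_mul_of_nonneg_right ?_ (by positivity)
          nlinarith
      _ = _ := by ring
  · have h1 := ray_bound hR hA hb hN x
    have h2 : 1 / 9 ≤ d₂ / (d₂ + |σ|) := by
      rw [div_le_div_iff₀ (by norm_num) (by positivity)]
      nlinarith
    have h3 : (1 / 9 : ℝ) ^ 3 ≤ (d₂ / (d₂ + |σ|)) ^ 3 := pow_le_pow_left₀ (by norm_num) h2 3
    have h5 : N * cS ≤ (cS + 1) * N := by nlinarith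
    calc |VA R A x| ^ 2 ≤ ((cS + 1) * N) ^ 2 := pow_le_pow_left₀ (abs_nonneg _) (h1.trans h5) 2
      _ = (27 * (cS + 1) * N) ^ 2 * (1 / 9 : ℝ) ^ 3 := by ring
      _ ≤ _ := by gcongr

lemma comb3 (b : OrthonormalBasis (Fin 3) ℝ E3) (hR : 0 < R) (hA : MeasurableSet A)
    (hb : Bornology.IsBounded A) (hN : LineN N A) {c : E3} {d₁ d₂ d₃ : ℝ} (hd₁ : 0 < d₁)
    (h12 : d₁ ≤ d₂) (h23 : d₂ ≤ d₃) (hr : InBox b c d₁ d₂ d₃ A) :
    |VA R A x| ^ 2 ≤ (81 * (cS + 1) * N) ^ 2 * (((1 + |⟪b 2, x - c⟫ / d₃|)⁻¹) ^ 2 *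
      ((1 + |⟪b 0, x - c⟫ / d₁|)⁻¹ * (1 + |⟪b 1, x - c⟫ / d₂|)⁻¹)) := by
  have hd₂ : 0 < d₂ := hd₁.trans_le h12
  have hd₃ : 0 < d₃ := hd₂.trans_le h23
  have hN0 : (0 : ℝ) ≤ N := Nat.cast_nonneg N
  have hG := cS_nonneg
  have c1 := comb1 (x := x) b hR hA hb hN hd₁ hr
  have c2 := comb2 (x := x) b hR hA hb hN hd₂ h12 hr
  set x₁ : ℝ := ⟪b 0, x - c⟫ with hx₁
  set x₂ : ℝ := ⟪b 1, x - c⟫ with hx₂
  set x₃ : ℝ := ⟪b 2, x - c⟫ with hx₃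
  have e1 : (1 + |x₁ / d₁|)⁻¹ = d₁ / (d₁ + |x₁|) := by
    rw [abs_div, abs_of_pos hd₁]; field_simp
  have e2 : (1 + |x₂ / d₂|)⁻¹ = d₂ / (d₂ + |x₂|) := by
    rw [abs_div, abs_of_pos hd₂]; field_simp
  have e3 : (1 + |x₃ / d₃|)⁻¹ = d₃ / (d₃ + |x₃|) := by
    rw [abs_div, abs_of_pos hd₃]; field_simp
  rw [e1] at c1
  rw [e2] at c2
  rw [e1, e2, e3]
  set m₁ := d₁ / (d₁ + |x₁|) with hm₁
  set m₂ := d₂ / (d₂ + |x₂|) with hm₂
  have hm₁0 : 0 ≤ m₁ := by positivity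
  have hm₂0 : 0 ≤ m₂ := by positivity
  rcases le_or_gt (2 * d₃) |x₃| with h | h
  · have h1 := B3 b hR hA hb hN hd₁ h12 h23 hr h
    rw [← hx₁, ← hx₂, ← hx₃] at h1
    have h2 : 0 < |x₃| := by linarith
    refine h1.trans ?_
    have h3 : d₃ / |x₃| ≤ 3 / 2 * (d₃ / (d₃ + |x₃|)) := by
      rw [mul_div_assoc', div_le_div_iff₀ h2 (by positivity)]
      nlinarith
    have h5 : d₁ * d₂ ≤ d₃ ^ 2 := by nlinarith
    have e4 : 9 * N ^ 2 * (d₁ * d₂) ^ 2 / (|x₃| ^ 2 * ((d₁ + |x₁|) * (d₂ + |x₂|))) =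
        9 * N ^ 2 * (m₁ * m₂) * (d₁ * d₂ / |x₃| ^ 2) := by
      rw [hm₁, hm₂]
      field_simp
    rw [e4]
    calc 9 * N ^ 2 * (m₁ * m₂) * (d₁ * d₂ / |x₃| ^ 2)
        ≤ 9 * N ^ 2 * (m₁ * m₂) * (d₃ ^ 2 / |x₃| ^ 2) := by gcongr
      _ = 9 * N ^ 2 * (m₁ * m₂) * (d₃ / |x₃|) ^ 2 := by rw [div_pow]
      _ ≤ 9 * N ^ 2 * (m₁ * m₂) * (3 / 2 * (d₃ / (d₃ + |x₃|))) ^ 2 := by gcongr
      _ = 81 / 4 * (N ^ 2 * ((d₃ / (d₃ + |x₃|)) ^ 2 * (m₁ * m₂))) := by ring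
      _ ≤ (81 * (cS + 1)) ^ 2 * (N ^ 2 * ((d₃ / (d₃ + |x₃|)) ^ 2 * (m₁ * m₂))) := by
          refine mul_le_mul_of_nonneg_right ?_ (by positivity)
          nlinarith
      _ = _ := by ring
  · have h3 : 1 / 3 ≤ d₃ / (d₃ + |x₃|) := by
      rw [div_le_div_iff₀ (by norm_num) (by positivity)]; linarith
    have hm₂1 : m₂ ≤ 1 := by
      rw [hm₂, div_le_one (by positivity)]; linarith [abs_nonneg x₂]
    have c2' : |VA R A x| ≤ 27 * (cS + 1) * N * m₂ := by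
      refine abs_le_of_sq_le_sq' ?_ (by positivity) |>.2
      refine c2.trans ?_
      rw [mul_pow _ m₂]
      gcongr _ * ?_
      exact pow_le_pow_of_le_one hm₂0 hm₂1 (by norm_num)
    calc |VA R A x| ^ 2 = |VA R A x| * |VA R A x| := sq _
      _ ≤ (27 * (cS + 1) * N * m₁) * (27 * (cS + 1) * N * m₂) :=
          mul_le_mul c1 c2' (abs_nonneg _) (by positivity)
      _ = (81 * (cS + 1) * N) ^ 2 * ((1 / 3) ^ 2 * (m₁ * m₂)) := by ring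
      _ ≤ _ := by gcongr

lemma rpow_comb3 {v m₁ m₂ m₃ K : ℝ} (hv : 0 ≤ v) (h₁ : 0 ≤ m₁) (h₂ : 0 ≤ m₂) (h₃ : 0 ≤ m₃)
    (hK : 0 ≤ K) (hA : v ^ 2 ≤ K ^ 2 * m₁ ^ 2) (hB : v ^ 2 ≤ K ^ 2 * m₂ ^ 3)
    (hC : v ^ 2 ≤ K ^ 2 * (m₃ ^ 2 * (m₁ * m₂))) :
    v ^ (15 / 8 : ℝ) ≤
      K ^ (15 / 8 : ℝ) * (m₁ ^ (45 / 44 : ℝ) * (m₂ ^ (45 / 44 : ℝ) * m₃ ^ (45 / 44 : ℝ))) := by
  have e1 : v ^ (15 / 8 : ℝ) =
      (v ^ 2) ^ (45 / 176 : ℝ) * ((v ^ 2) ^ (30 / 176 : ℝ) * (v ^ 2) ^ (90 / 176 : ℝ)) := by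
    rw [← rpow_add_of_nonneg (by positivity) (by norm_num) (by norm_num),
      ← rpow_add_of_nonneg (by positivity) (by norm_num) (by norm_num), ← rpow_natCast v 2,
      ← rpow_mul hv]
    norm_num
  have h3 : (v ^ 2) ^ (45 / 176 : ℝ) ≤ (K ^ 2 * m₁ ^ 2) ^ (45 / 176 : ℝ) :=
    rpow_le_rpow (by positivity) hA (by norm_num)
  have h4 : (v ^ 2) ^ (30 / 176 : ℝ) ≤ (K ^ 2 * m₂ ^ 3) ^ (30 / 176 : ℝ) :=
    rpow_le_rpow (by positivity) hB (by norm_num)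
  have h5 : (v ^ 2) ^ (90 / 176 : ℝ) ≤ (K ^ 2 * (m₃ ^ 2 * (m₁ * m₂))) ^ (90 / 176 : ℝ) :=
    rpow_le_rpow (by positivity) hC (by norm_num)
  have e2 : (K ^ 2 * m₁ ^ 2) ^ (45 / 176 : ℝ) = K ^ (45 / 88 : ℝ) * m₁ ^ (45 / 88 : ℝ) := by
    rw [mul_rpow (by positivity) (by positivity), ← rpow_natCast K 2, ← rpow_natCast m₁ 2,
      ← rpow_mul hK, ← rpow_mul h₁]
    norm_num
  have e3 : (K ^ 2 * m₂ ^ 3) ^ (30 / 176 : ℝ) = K ^ (30 / 88 : ℝ) * m₂ ^ (45 / 88 : ℝ) := by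
    rw [mul_rpow (by positivity) (by positivity), ← rpow_natCast K 2, ← rpow_natCast m₂ 3,
      ← rpow_mul hK, ← rpow_mul h₂]
    norm_num
  have e4 : (K ^ 2 * (m₃ ^ 2 * (m₁ * m₂))) ^ (90 / 176 : ℝ) =
      K ^ (90 / 88 : ℝ) * (m₃ ^ (45 / 44 : ℝ) * (m₁ ^ (45 / 88 : ℝ) * m₂ ^ (45 / 88 : ℝ))) := by
    rw [mul_rpow (by positivity) (by positivity), mul_rpow (by positivity) (by positivity),
      mul_rpow h₁ h₂, ← rpow_natCast K 2, ← rpow_natCast m₃ 2,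
      ← rpow_mul hK, ← rpow_mul h₃]
    norm_num
  have e5 : K ^ (15 / 8 : ℝ) = K ^ (45 / 88 : ℝ) * (K ^ (30 / 88 : ℝ) * K ^ (90 / 88 : ℝ)) := by
    rw [← rpow_add_of_nonneg hK (by norm_num) (by norm_num),
      ← rpow_add_of_nonneg hK (by norm_num) (by norm_num)]
    norm_num
  have e6 : m₁ ^ (45 / 44 : ℝ) = m₁ ^ (45 / 88 : ℝ) * m₁ ^ (45 / 88 : ℝ) := by
    rw [← rpow_add_of_nonneg h₁ (by norm_num) (by norm_num)]; norm_num
  have e7 : m₂ ^ (45 / 44 : ℝ) = m₂ ^ (45 / 88 : ℝ) * m₂ ^ (45 / 88 : ℝ) := by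
    rw [← rpow_add_of_nonneg h₂ (by norm_num) (by norm_num)]; norm_num
  rw [e1]
  calc (v ^ 2) ^ (45 / 176 : ℝ) * ((v ^ 2) ^ (30 / 176 : ℝ) * (v ^ 2) ^ (90 / 176 : ℝ))
      ≤ (K ^ 2 * m₁ ^ 2) ^ (45 / 176 : ℝ) * ((K ^ 2 * m₂ ^ 3) ^ (30 / 176 : ℝ) *
        (K ^ 2 * (m₃ ^ 2 * (m₁ * m₂))) ^ (90 / 176 : ℝ)) :=
        mul_le_mul h3 (mul_le_mul h4 h5 (by positivity) (by positivity)) (by positivity)
          (by positivity)
    _ = _ := by rw [e2, e3, e4, e5, e6, e7]; ring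

/-- the one dimensional weight -/
noncomputable def wg (u : ℝ) : ℝ≥0∞ := ENNReal.ofReal ((1 + ‖u‖) ^ (-(45 / 44) : ℝ))

lemma wg_meas : Measurable wg := by unfold wg; fun_prop

/-- its integral -/
noncomputable def c0 : ℝ≥0∞ := ∫⁻ u : ℝ, wg u

lemma c0_lt : c0 < ⊤ := finite_integral_one_add_norm (by simp; norm_num)

lemma wg_scale {d : ℝ} (hd : 0 < d) : ∫⁻ u : ℝ, wg (u / d) = ENNReal.ofReal d * c0 := by
  have h := Real.smul_map_volume_mul_left (a := d⁻¹) (inv_ne_zero hd.ne')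
  have hm : Measurable fun u : ℝ => d⁻¹ * u := by fun_prop
  have h1 : ENNReal.ofReal |d⁻¹| * ∫⁻ u : ℝ, wg (u / d) = c0 := by
    rw [c0]
    conv_rhs => rw [← h]
    rw [lintegral_smul_measure, lintegral_map wg_meas hm, smul_eq_mul]
    congr 1
    refine lintegral_congr fun u => ?_
    rw [div_eq_inv_mul]
  rw [← h1, ← mul_assoc, ← ENNReal.ofReal_mul hd.le, abs_of_pos (inv_pos.2 hd),
    mul_inv_cancel₀ hd.ne', ENNReal.ofReal_one, one_mul]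

lemma int_box (b : OrthonormalBasis (Fin 3) ℝ E3) (c : E3) {d₁ d₂ d₃ : ℝ} (h₁ : 0 < d₁)
    (h₂ : 0 < d₂) (h₃ : 0 < d₃) :
    ∫⁻ x : E3, wg (⟪b 0, x - c⟫ / d₁) * (wg (⟪b 1, x - c⟫ / d₂) * wg (⟪b 2, x - c⟫ / d₃))
      = ENNReal.ofReal (d₁ * d₂ * d₃) * c0 ^ 3 := by
  have mp : MeasurePreserving (fun y => ceq3 b (y - c)) volume volume :=
    (ceq3_mp b).comp (measurePreserving_sub_right volume c)
  have m1 : Measurable fun u : ℝ => wg (u / d₁) := wg_meas.comp (by fun_prop)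
  have m2 : Measurable fun u : ℝ => wg (u / d₂) := wg_meas.comp (by fun_prop)
  have m3 : Measurable fun u : ℝ => wg (u / d₃) := wg_meas.comp (by fun_prop)
  have m23 : Measurable fun p : ℝ × ℝ => wg (p.1 / d₂) * wg (p.2 / d₃) :=
    (m2.comp measurable_fst).mul (m3.comp measurable_snd)
  have h := mp.lintegral_comp
    (f := fun p : ℝ × (ℝ × ℝ) => wg (p.1 / d₁) * (wg (p.2.1 / d₂) * wg (p.2.2 / d₃)))
    ((m1.comp measurable_fst).mul (m23.comp measurable_snd))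
  have e1 : ∫⁻ x : E3, wg (⟪b 0, x - c⟫ / d₁) * (wg (⟪b 1, x - c⟫ / d₂) * wg (⟪b 2, x - c⟫ / d₃))
      = ∫⁻ x : E3, wg ((ceq3 b (x - c)).1 / d₁) * (wg ((ceq3 b (x - c)).2.1 / d₂) *
        wg ((ceq3 b (x - c)).2.2 / d₃)) := by
    refine lintegral_congr fun x => ?_
    rw [ceq3_apply]
  rw [e1, h, Measure.volume_eq_prod, lintegral_prod_mul (f := fun u : ℝ => wg (u / d₁))
    (g := fun p : ℝ × ℝ => wg (p.1 / d₂) * wg (p.2 / d₃)) m1.aemeasurable m23.aemeasurable,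
    Measure.volume_eq_prod, lintegral_prod_mul m2.aemeasurable m3.aemeasurable,
    wg_scale h₁, wg_scale h₂, wg_scale h₃, ENNReal.ofReal_mul (by positivity),
    ENNReal.ofReal_mul h₁.le]
  ring

/-- the maximal function -/
noncomputable def MA (A : Set E3) (x : E3) : ℝ≥0∞ := ⨆ (R : ℝ) (_ : 0 < R), ‖VA R A x‖ₑ

theorem MA_pt (b : OrthonormalBasis (Fin 3) ℝ E3) (hA : MeasurableSet A)
    (hb : Bornology.IsBounded A) (hN : LineN N A) {c : E3} {d₁ d₂ d₃ : ℝ} (hd₁ : 0 < d₁)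
    (h12 : d₁ ≤ d₂) (h23 : d₂ ≤ d₃) (hr : InBox b c d₁ d₂ d₃ A) (x : E3) :
    MA A x ^ (15 / 8 : ℝ) ≤ ENNReal.ofReal ((81 * (cS + 1) * N) ^ (15 / 8 : ℝ)) *
      (wg (⟪b 0, x - c⟫ / d₁) * (wg (⟪b 1, x - c⟫ / d₂) * wg (⟪b 2, x - c⟫ / d₃))) := by
  have hd₂ : 0 < d₂ := hd₁.trans_le h12
  have hN0 : (0 : ℝ) ≤ N := Nat.cast_nonneg N
  have hG := cS_nonneg
  have hp : (0 : ℝ) < 15 / 8 := by norm_num
  rw [← ENNReal.le_rpow_inv_iff hp, MA]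
  refine iSup₂_le fun R hR => ?_
  rw [ENNReal.le_rpow_inv_iff hp]
  have h1 : |VA R A x| ^ 2 ≤ (81 * (cS + 1) * N) ^ 2 * ((1 + |⟪b 0, x - c⟫ / d₁|)⁻¹) ^ 2 := by
    rw [← mul_pow]
    refine pow_le_pow_left₀ (abs_nonneg _) ((comb1 (x := x) b hR hA hb hN hd₁ hr).trans ?_) 2
    gcongr
    norm_num
  have h2 : |VA R A x| ^ 2 ≤ (81 * (cS + 1) * N) ^ 2 * ((1 + |⟪b 1, x - c⟫ / d₂|)⁻¹) ^ 3 := by
    refine (comb2 (x := x) b hR hA hb hN hd₂ h12 hr).trans ?_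
    gcongr
    norm_num
  have h3 := rpow_comb3 (abs_nonneg _) (by positivity) (by positivity) (by positivity)
    (by positivity) h1 h2 (comb3 (x := x) b hR hA hb hN hd₁ h12 h23 hr)
  rw [wg, wg, wg, ← ENNReal.ofReal_mul (by positivity), ← ENNReal.ofReal_mul (by positivity),
    ← ENNReal.ofReal_mul (by positivity),
    ← ofReal_norm, ENNReal.ofReal_rpow_of_nonneg (norm_nonneg _) hp.le,
    Real.norm_eq_abs]
  refine ENNReal.ofReal_le_ofReal (h3.trans (le_of_eq ?_))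
  rw [Real.norm_eq_abs, Real.norm_eq_abs, Real.norm_eq_abs, rpow_neg (by positivity),
    rpow_neg (by positivity), rpow_neg (by positivity),
    inv_rpow (by positivity), inv_rpow (by positivity), inv_rpow (by positivity)]

/-- almost everywhere, `1_K` is a combination, with coefficients in `[-1, 1]`, of at most `N`
indicator functions of sets which meet every line in at most `N` intervals and lie in boxes of
volume at most `N |K|` -/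
def Nice (N : ℕ) (K : Set E3) : Prop :=
  ∃ m ≤ N, ∃ (A : Fin m → Set E3) (ε : Fin m → ℝ),
    (∀ i, |ε i| ≤ 1 ∧ MeasurableSet (A i) ∧ LineN N (A i) ∧
      ∃ (b : OrthonormalBasis (Fin 3) ℝ E3) (c : E3) (d₁ d₂ d₃ : ℝ), 0 < d₁ ∧ d₁ ≤ d₂ ∧ d₂ ≤ d₃ ∧
        InBox b c d₁ d₂ d₃ (A i) ∧ ENNReal.ofReal (8 * d₁ * d₂ * d₃) ≤ N * volume K) ∧
    ∀ᵐ y, K.indicator (1 : E3 → ℝ) y = ∑ i, ε i * (A i).indicator (1 : E3 → ℝ) y

lemma InBox.bdd {b : OrthonormalBasis (Fin 3) ℝ E3} {c : E3} {d₁ d₂ d₃ : ℝ} {A : Set E3}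
    (h : InBox b c d₁ d₂ d₃ A) : Bornology.IsBounded A := by
  refine (Metric.isBounded_closedBall (x := c) (r := |d₁| + |d₂| + |d₃|)).subset fun y hy => ?_
  obtain ⟨h1, h2, h3⟩ := h y hy
  rw [mem_closedBall_iff_norm]
  have h4 := norm_sq_coord3 b (y - c)
  refine abs_le_of_sq_le_sq' ?_ (by positivity) |>.2
  have h5 : ⟪b 0, y - c⟫ ^ 2 ≤ |d₁| ^ 2 := by
    rw [← sq_abs]; exact pow_le_pow_left₀ (abs_nonneg _) (h1.trans (le_abs_self _)) 2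
  have h6 : ⟪b 1, y - c⟫ ^ 2 ≤ |d₂| ^ 2 := by
    rw [← sq_abs]; exact pow_le_pow_left₀ (abs_nonneg _) (h2.trans (le_abs_self _)) 2
  have h7 : ⟪b 2, y - c⟫ ^ 2 ≤ |d₃| ^ 2 := by
    rw [← sq_abs]; exact pow_le_pow_left₀ (abs_nonneg _) (h3.trans (le_abs_self _)) 2
  have a1 := abs_nonneg d₁
  have a2 := abs_nonneg d₂
  have a3 := abs_nonneg d₃
  nlinarith [mul_nonneg a1 a2, mul_nonneg a1 a3, mul_nonneg a2 a3]

lemma VA_ind {R : ℝ} {A : Set E3} {x : E3} (hA : MeasurableSet A) :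
    VA R A x = ∫ y, A.indicator (1 : E3 → ℝ) y * gk3 R ‖x - y‖ := by
  rw [VA, ← integral_indicator hA]
  refine integral_congr_ae (Eventually.of_forall fun y => ?_)
  by_cases h : y ∈ A
  · simp [h]
  · simp [h]

lemma int_fin' {R : ℝ} {A : Set E3} {x : E3} (hR : 0 < R) (hA : MeasurableSet A)
    (hf : volume A < ⊤) : Integrable fun y => A.indicator (1 : E3 → ℝ) y * gk3 R ‖x - y‖ := by
  refine (int_fin (x := x) hR hA hf).congr (Eventually.of_forall fun y => ?_)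
  by_cases h : y ∈ A
  · simp [h]
  · simp [h]

lemma VA_comb {R : ℝ} (hR : 0 < R) {K : Set E3} (hK : MeasurableSet K) {m : ℕ}
    {A : Fin m → Set E3} {ε : Fin m → ℝ} (hA : ∀ i, MeasurableSet (A i))
    (hf : ∀ i, volume (A i) < ⊤)
    (h : ∀ᵐ y, K.indicator (1 : E3 → ℝ) y = ∑ i, ε i * (A i).indicator (1 : E3 → ℝ) y) (x : E3) :
    VA R K x = ∑ i, ε i * VA R (A i) x := by
  rw [VA_ind hK]
  have e1 : ∫ y, K.indicator (1 : E3 → ℝ) y * gk3 R ‖x - y‖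
      = ∫ y, ∑ i, ε i * ((A i).indicator (1 : E3 → ℝ) y * gk3 R ‖x - y‖) := by
    refine integral_congr_ae ?_
    filter_upwards [h] with y hy
    rw [hy, Finset.sum_mul]
    exact Finset.sum_congr rfl fun i _ => by ring
  rw [e1, integral_finsetSum _ fun i _ => (int_fin' hR (hA i) (hf i)).const_mul _]
  refine Finset.sum_congr rfl fun i _ => ?_
  rw [integral_const_mul, VA_ind (hA i)]

lemma nice_bound {N : ℕ} {K : Set E3} (hK : MeasurableSet K) (h : Nice N K) {R : ℝ} (hR : 0 < R)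
    (x : E3) : |VA R K x| ≤ cS * N ^ 2 := by
  obtain ⟨m, hm, A, ε, hA, hc⟩ := h
  have hG := cS_nonneg
  rw [VA_comb hR hK (fun i => (hA i).2.1) (fun i => by
    obtain ⟨-, -, -, b, c, d₁, d₂, d₃, -, -, -, hr, -⟩ := hA i
    exact hr.bdd.measure_lt_top) hc]
  refine (Finset.abs_sum_le_sum_abs _ _).trans ?_
  have h1 : ∀ i ∈ Finset.univ, |ε i * VA R (A i) x| ≤ N * cS := by
    intro i _
    obtain ⟨h1, h2, h3, b, c, d₁, d₂, d₃, -, -, -, hr, -⟩ := hA i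
    rw [abs_mul]
    calc |ε i| * |VA R (A i) x| ≤ 1 * (N * cS) :=
          mul_le_mul h1 (ray_bound hR h2 hr.bdd h3 x) (abs_nonneg _) (by norm_num)
      _ = N * cS := one_mul _
  refine (Finset.sum_le_sum h1).trans ?_
  rw [Finset.sum_const, Finset.card_univ, Fintype.card_fin, nsmul_eq_mul]
  have : (m : ℝ) ≤ N := by exact_mod_cast hm
  have hN : (0 : ℝ) ≤ N := Nat.cast_nonneg N
  calc (m : ℝ) * (N * cS) ≤ N * (N * cS) := by gcongr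
    _ = _ := by ring

/-- the constant for one set -/
noncomputable def kN (N : ℕ) : ℝ≥0∞ :=
  (N : ℝ≥0∞) ^ (15 / 8 - 1 : ℝ) *
    (N * (ENNReal.ofReal ((81 * (cS + 1) * N) ^ (15 / 8 : ℝ)) * (c0 ^ 3 * N)))

lemma kN_ne_top (N : ℕ) : kN N ≠ ⊤ := by
  have h1 : (N : ℝ≥0∞) ^ (15 / 8 - 1 : ℝ) ≠ ⊤ :=
    ENNReal.rpow_ne_top_of_nonneg (by norm_num) (ENNReal.natCast_ne_top N)
  exact ENNReal.mul_ne_top h1 (ENNReal.mul_ne_top (ENNReal.natCast_ne_top N)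
    (ENNReal.mul_ne_top ENNReal.ofReal_ne_top (ENNReal.mul_ne_top
      (ENNReal.pow_ne_top c0_lt.ne) (ENNReal.natCast_ne_top N))))

theorem nice_int {N : ℕ} {K : Set E3} (hK : MeasurableSet K) (h : Nice N K) :
    ∫⁻ x, MA K x ^ (15 / 8 : ℝ) ≤ kN N * volume K := by
  obtain ⟨m, hm, A, ε, hA, hc⟩ := h
  choose h1 h2 h3 b c d₁ d₂ d₃ h4 h5 h5' h6 h7 using hA
  have hp : (1 : ℝ) ≤ 15 / 8 := by norm_num
  have hs : ∀ x, MA K x ≤ ∑ i, MA (A i) x := by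
    intro x
    rw [MA]
    refine iSup₂_le fun R hR => ?_
    rw [VA_comb hR hK h2 (fun i => (h6 i).bdd.measure_lt_top) hc]
    refine (enorm_sum_le _ _).trans (Finset.sum_le_sum fun i _ => ?_)
    rw [enorm_mul]
    have : ‖ε i‖ₑ ≤ 1 := by
      rw [← ofReal_norm, Real.norm_eq_abs]
      exact ENNReal.ofReal_le_one.2 (h1 i)
    calc ‖ε i‖ₑ * ‖VA R (A i) x‖ₑ ≤ 1 * ‖VA R (A i) x‖ₑ := by gcongr
      _ ≤ MA (A i) x := by
        rw [one_mul, MA]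
        exact le_iSup₂ (f := fun (R : ℝ) (_ : 0 < R) => ‖VA R (A i) x‖ₑ) R hR
  set W : Fin m → E3 → ℝ≥0∞ := fun i x =>
      ENNReal.ofReal ((81 * (cS + 1) * N) ^ (15 / 8 : ℝ)) *
      (wg (⟪(b i) 0, x - c i⟫ / d₁ i) * (wg (⟪(b i) 1, x - c i⟫ / d₂ i) *
        wg (⟪(b i) 2, x - c i⟫ / d₃ i))) with hW
  have hWm : ∀ i, Measurable (W i) := by
    intro i
    have m1 : Measurable fun x : E3 => wg (⟪(b i) 0, x - c i⟫ / d₁ i) :=
      wg_meas.comp (by fun_prop)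
    have m2 : Measurable fun x : E3 => wg (⟪(b i) 1, x - c i⟫ / d₂ i) :=
      wg_meas.comp (by fun_prop)
    have m3 : Measurable fun x : E3 => wg (⟪(b i) 2, x - c i⟫ / d₃ i) :=
      wg_meas.comp (by fun_prop)
    exact (m1.mul (m2.mul m3)).const_mul _
  have hpos : ∀ i, 0 < d₂ i := fun i => (h4 i).trans_le (h5 i)
  have hpos3 : ∀ i, 0 < d₃ i := fun i => (hpos i).trans_le (h5' i)
  have hWi : ∀ i, ∫⁻ x, W i x ≤
      ENNReal.ofReal ((81 * (cS + 1) * N) ^ (15 / 8 : ℝ)) * (c0 ^ 3 * N) * volume K := by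
    intro i
    rw [hW]
    simp only
    rw [lintegral_const_mul' _ _ ENNReal.ofReal_ne_top, int_box (b i) (c i) (h4 i) (hpos i)
      (hpos3 i), mul_assoc (ENNReal.ofReal ((81 * (cS + 1) * N) ^ (15 / 8 : ℝ)))]
    refine mul_le_mul' le_rfl ?_
    have h8 : ENNReal.ofReal (d₁ i * d₂ i * d₃ i) ≤ N * volume K := by
      refine le_trans (ENNReal.ofReal_le_ofReal ?_) (h7 i)
      have : 0 < d₁ i * d₂ i * d₃ i := mul_pos (mul_pos (h4 i) (hpos i)) (hpos3 i)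
      nlinarith
    calc ENNReal.ofReal (d₁ i * d₂ i * d₃ i) * c0 ^ 3 ≤ N * volume K * c0 ^ 3 := by gcongr
      _ = c0 ^ 3 * N * volume K := by ring
  calc ∫⁻ x, MA K x ^ (15 / 8 : ℝ) ≤ ∫⁻ x, (m : ℝ≥0∞) ^ (15 / 8 - 1 : ℝ) * ∑ i, W i x := by
        refine lintegral_mono fun x => ?_
        refine (ENNReal.rpow_le_rpow (hs x) (by norm_num)).trans ?_
        have h8 := ENNReal.rpow_sum_le_const_mul_sum_rpow (Finset.univ : Finset (Fin m))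
          (fun i => MA (A i) x) hp
        rw [Finset.card_univ, Fintype.card_fin] at h8
        refine h8.trans ?_
        gcongr with i _
        exact MA_pt (b i) (h2 i) (h6 i).bdd (h3 i) (h4 i) (h5 i) (h5' i) (h6 i) x
    _ = (m : ℝ≥0∞) ^ (15 / 8 - 1 : ℝ) * ∑ i, ∫⁻ x, W i x := by
        rw [lintegral_const_mul _ (Finset.measurable_sum _ fun i _ => hWm i),
          lintegral_finsetSum _ fun i _ => hWm i]
    _ ≤ (N : ℝ≥0∞) ^ (15 / 8 - 1 : ℝ) * ∑ i : Fin m,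
          ENNReal.ofReal ((81 * (cS + 1) * N) ^ (15 / 8 : ℝ)) * (c0 ^ 3 * N) * volume K := by
        refine mul_le_mul' (ENNReal.rpow_le_rpow (by exact_mod_cast hm) (by norm_num))
          (Finset.sum_le_sum fun i _ => hWi i)
    _ ≤ kN N * volume K := by
        rw [Finset.sum_const, Finset.card_univ, Fintype.card_fin, nsmul_eq_mul, kN]
        have : (m : ℝ≥0∞) ≤ N := by exact_mod_cast hm
        calc (N : ℝ≥0∞) ^ (15 / 8 - 1 : ℝ) * (m *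
              (ENNReal.ofReal ((81 * (cS + 1) * N) ^ (15 / 8 : ℝ)) * (c0 ^ 3 * N) * volume K))
            ≤ (N : ℝ≥0∞) ^ (15 / 8 - 1 : ℝ) * (N *
              (ENNReal.ofReal ((81 * (cS + 1) * N) ^ (15 / 8 : ℝ)) * (c0 ^ 3 * N) * volume K)) := by
              gcongr
          _ = _ := by ring

end Pool.Agent.Helper854_Q3
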