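import Mathlib
import Pool.Agent.Helper854_Q3.G
import Pool.Agent.Helper854_QC.Geo2

/-! Convex sets and their unions. -/

set_option autoImplicit false

open MeasureTheory Real Set Filter Topology
open scoped ENNReal NNReal RealInnerProductSpace

namespace Pool.Agent.Helper854_Q3

open Pool.Agent.Helper854_QC (nint_ord)

lemma convex_line {C : Set E3} (hC : Convex ℝ C) {N : ℕ} (hN : 1 ≤ N) : LineN N C := by
  intro p v _
  refine nint_ord (Convex.ordConnected ?_) hN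
  intro a ha b hb α β hα hβ hαβ
  rw [mem_ofPred_eq] at ha hb ⊢
  have e : p + (α • a + β • b) • v = α • (p + a • v) + β • (p + b • v) := by
    have : p = (α + β) • p := by rw [hαβ, one_smul]
    nth_rw 1 [this]
    simp only [smul_eq_mul]
    module
  rw [e]
  exact hC ha hb hα hβ hαβ

lemma mp_sub (b : OrthonormalBasis (Fin 3) ℝ E3) (c : E3) :
    MeasurePreserving (fun y => ceq3 b (y - c)) volume volume :=
  (ceq3_mp b).comp (measurePreserving_sub_right volume c)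

lemma box_vol {b : OrthonormalBasis (Fin 3) ℝ E3} {c : E3} {d₁ d₂ d₃ : ℝ} (hd₁ : 0 ≤ d₁)
    (hd₂ : 0 ≤ d₂) {K : Set E3} (h : InBox b c d₁ d₂ d₃ K) :
    volume K ≤ ENNReal.ofReal (8 * d₁ * d₂ * d₃) := by
  have h2 : K ⊆ (fun y => ceq3 b (y - c)) ⁻¹' (Icc (-d₁) d₁ ×ˢ (Icc (-d₂) d₂ ×ˢ Icc (-d₃) d₃)) := by
    intro y hy
    obtain ⟨h1, h2, h3⟩ := h y hy
    rw [mem_preimage, ceq3_apply]
    exact ⟨abs_le.1 h1, abs_le.1 h2, abs_le.1 h3⟩
  refine (measure_mono h2).trans ?_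
  rw [(mp_sub b c).measure_preimage
      (measurableSet_Icc.prod (measurableSet_Icc.prod measurableSet_Icc)).nullMeasurableSet,
    Measure.volume_eq_prod, Measure.prod_prod, Measure.volume_eq_prod, Measure.prod_prod,
    Real.volume_Icc, Real.volume_Icc, Real.volume_Icc,
    ← ENNReal.ofReal_mul (by linarith), ← ENNReal.ofReal_mul (by linarith)]
  exact ENNReal.ofReal_le_ofReal (by ring_nf; rfl)

lemma mp_trans (a b : ℝ) :
    MeasurePreserving (fun z : ℝ × ℝ => (z.1 - a, z.2 - b)) volume volume := by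
  rw [Measure.volume_eq_prod]
  exact (measurePreserving_sub_right volume a).prod (measurePreserving_sub_right volume b)

lemma mp_shear (c : ℝ) :
    MeasurePreserving (fun z : ℝ × ℝ => (z.1, z.2 - c * z.1)) volume volume := by
  rw [Measure.volume_eq_prod]
  refine (MeasurePreserving.id (volume : Measure ℝ)).skew_product
    (g := fun s t => t - c * s) (by fun_prop) (Eventually.of_forall fun s => ?_)
  exact (measurePreserving_sub_right volume (c * s)).map_eq

lemma mp_shear3 (c₁ c₂ c₃ : ℝ) :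
    MeasurePreserving (fun z : ℝ × (ℝ × ℝ) =>
      (z.1, ((z.2.1 - c₁ * z.1, z.2.2 - c₂ * z.1 - c₃ * (z.2.1 - c₁ * z.1)) : ℝ × ℝ)))
      volume volume := by
  rw [Measure.volume_eq_prod ℝ (ℝ × ℝ)]
  refine (MeasurePreserving.id (volume : Measure ℝ)).skew_product
    (g := fun (s : ℝ) (w : ℝ × ℝ) => (w.1 - c₁ * s, w.2 - c₂ * s - c₃ * (w.1 - c₁ * s))) (by fun_prop)
    (Eventually.of_forall fun s => ?_)
  exact ((mp_shear c₃).comp (mp_trans (c₁ * s) (c₂ * s))).map_eq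

/-- a bounded convex set fills a fixed proportion of a box -/
theorem convex_box {K : Set E3} (hK : Convex ℝ K) (hb : Bornology.IsBounded K)
    (hv : volume K ≠ 0) : ∃ (b : OrthonormalBasis (Fin 3) ℝ E3) (c : E3) (d₁ d₂ d₃ : ℝ),
      0 < d₁ ∧ d₁ ≤ d₂ ∧ d₂ ≤ d₃ ∧ InBox b c d₁ d₂ d₃ K ∧
        ENNReal.ofReal (8 * d₁ * d₂ * d₃) ≤ 1728 * volume K := by
  set D : ℝ := Metric.diam K with hD
  have hDle : ∀ x ∈ K, ∀ y ∈ K, ‖x - y‖ ≤ D := fun x hx y hy => by
    rw [← dist_eq_norm]; exact Metric.dist_le_diam_of_mem hb hx hy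
  have hne : K.Nonempty := by
    rw [nonempty_iff_ne_empty]; rintro rfl; exact hv measure_empty
  have hD0 : 0 < D := by
    rcases (Metric.diam_nonneg (s := K)).eq_or_lt with h | h
    · exfalso
      obtain ⟨x, hx⟩ := hne
      have : K ⊆ {x} := by
        intro y hy
        have h1 := hDle y hy x hx
        rw [hD, ← h] at h1
        have h2 := norm_le_zero_iff.1 h1
        rw [mem_singleton_iff]; exact sub_eq_zero.1 h2
      exact hv (measure_mono_null this (measure_singleton x))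
    · exact h
  -- two far points
  obtain ⟨p, hp, q, hq, hpq⟩ : ∃ p ∈ K, ∃ q ∈ K, D / 2 < ‖q - p‖ := by
    by_contra hcon
    push Not at hcon
    have : D ≤ D / 2 := by
      rw [hD]
      refine Metric.diam_le_of_forall_dist_le (by rw [← hD]; positivity) fun x hx y hy => ?_
      rw [dist_eq_norm]; exact hcon y hy x hx
    linarith
  set l : ℝ := ‖q - p‖ with hl
  have hl0 : 0 < l := by linarith
  set e₀ : E3 := l⁻¹ • (q - p) with he₀
  have hn0 : ‖e₀‖ = 1 := by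
    rw [he₀, norm_smul, norm_inv, Real.norm_eq_abs, abs_of_pos hl0, ← hl, inv_mul_cancel₀ hl0.ne']
  -- the distance from the line
  set P : E3 → E3 := fun y => (y - p) - ⟪e₀, y - p⟫ • e₀ with hP
  have hPe : ∀ y, ⟪e₀, P y⟫ = 0 := by
    intro y
    simp only [hP]
    rw [inner_sub_right, real_inner_smul_right, real_inner_self_eq_norm_sq, hn0]
    ring
  have hPn : ∀ y, ‖P y‖ ≤ ‖y - p‖ := by
    intro y
    have h1 : ⟪P y, y - p⟫ = ‖P y‖ ^ 2 := by
      have h2 : y - p = P y + ⟪e₀, y - p⟫ • e₀ := by simp only [hP]; abel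
      nth_rw 1 [h2]
      rw [inner_add_right, real_inner_smul_right, real_inner_comm e₀, hPe, mul_zero, add_zero,
        real_inner_self_eq_norm_sq]
    have h3 := real_inner_le_norm (P y) (y - p)
    rw [h1, sq] at h3
    rcases (norm_nonneg (P y)).eq_or_lt with h | h
    · rw [← h]; exact norm_nonneg _
    · exact le_of_mul_le_mul_left h3 h
  have hPf : ∀ f : E3, ‖f‖ = 1 → ⟪f, e₀⟫ = 0 → ∀ y, |⟪f, y - p⟫| ≤ ‖P y‖ := by
    intro f hf hfe y
    have h1 : ⟪f, y - p⟫ = ⟪f, P y⟫ := by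
      simp only [hP]
      rw [inner_sub_right f (y - p), real_inner_smul_right, hfe, mul_zero, sub_zero]
    rw [h1]
    have h2 := abs_real_inner_le_norm f (P y)
    rwa [hf, one_mul] at h2
  set S₂ : Set ℝ := (fun y => ‖P y‖) '' K with hS₂
  have hS₂b : BddAbove S₂ :=
    ⟨D, by rintro _ ⟨y, hy, rfl⟩; exact (hPn y).trans (hDle y hy p hp)⟩
  have hS₂n : S₂.Nonempty := hne.image _
  set w₂ : ℝ := sSup S₂ with hw₂
  have hw₂le : ∀ y ∈ K, ‖P y‖ ≤ w₂ := fun y hy => le_csSup hS₂b ⟨y, hy, rfl⟩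
  have hw₂D : w₂ ≤ D :=
    csSup_le hS₂n (by rintro _ ⟨y, hy, rfl⟩; exact (hPn y).trans (hDle y hy p hp))
  have hw₂0' : 0 ≤ w₂ := (norm_nonneg _).trans (hw₂le p hp)
  have hlong : ∀ f : E3, ‖f‖ = 1 → ∀ y ∈ K, |⟪f, y - p⟫| ≤ D := by
    intro f hf y hy
    have h3 := abs_real_inner_le_norm f (y - p)
    rw [hf, one_mul] at h3
    exact h3.trans (hDle y hy p hp)
  have hw₂0 : 0 < w₂ := by
    rcases hw₂0'.eq_or_lt with h | h
    · exfalso
      obtain ⟨b, hb0⟩ := exists_basis1 hn0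
      have h1 : ⟪b 1, e₀⟫ = 0 := by rw [← hb0]; exact b.inner_eq_zero (by decide)
      have h2 : InBox b p D w₂ D K := fun y hy =>
        ⟨hlong _ (b.norm_eq_one _) y hy, (hPf _ (b.norm_eq_one _) h1 y).trans (hw₂le y hy),
          hlong _ (b.norm_eq_one _) y hy⟩
      have h3 := box_vol hD0.le hw₂0' h2
      rw [← h] at h3
      simp only [mul_zero, zero_mul, ENNReal.ofReal_zero] at h3
      exact hv (le_antisymm h3 zero_le)
    · exact h
  obtain ⟨_, ⟨y₁, hy₁, rfl⟩, hyw₂⟩ :=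
    exists_lt_of_lt_csSup hS₂n (by rw [← hw₂]; linarith : w₂ / 2 < sSup S₂)
  simp only at hyw₂
  set v₁ : ℝ := ‖P y₁‖ with hv₁
  have hv₁0 : 0 < v₁ := by linarith
  set e₁ : E3 := v₁⁻¹ • P y₁ with he₁
  have hn1 : ‖e₁‖ = 1 := by
    rw [he₁, norm_smul, norm_inv, Real.norm_eq_abs, abs_of_pos hv₁0, ← hv₁,
      inv_mul_cancel₀ hv₁0.ne']
  have he01 : ⟪e₀, e₁⟫ = 0 := by rw [he₁, real_inner_smul_right, hPe, mul_zero]
  obtain ⟨b', hb'0, hb'1⟩ := exists_basis2 hn0 hn1 he01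
  set b : OrthonormalBasis (Fin 3) ℝ E3 := b'.reindex (Equiv.swap 0 2) with hbdef
  have hb2 : b 2 = e₀ := by
    rw [hbdef, OrthonormalBasis.reindex_apply, Equiv.symm_swap, Equiv.swap_apply_right, hb'0]
  have hb1 : b 1 = e₁ := by
    rw [hbdef, OrthonormalBasis.reindex_apply, Equiv.symm_swap,
      Equiv.swap_apply_of_ne_of_ne (by decide) (by decide), hb'1]
  have o12 : ⟪b 1, e₀⟫ = 0 := by rw [← hb2]; exact b.inner_eq_zero (by decide)
  have o02 : ⟪b 0, e₀⟫ = 0 := by rw [← hb2]; exact b.inner_eq_zero (by decide)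
  have o01 : ⟪b 0, e₁⟫ = 0 := by rw [← hb1]; exact b.inner_eq_zero (by decide)
  -- the distance from the plane
  set S₁ : Set ℝ := (fun y => |⟪b 0, y - p⟫|) '' K with hS₁
  have hS₁le : ∀ y ∈ K, |⟪b 0, y - p⟫| ≤ w₂ := fun y hy =>
    (hPf _ (b.norm_eq_one _) o02 y).trans (hw₂le y hy)
  have hS₁b : BddAbove S₁ := ⟨w₂, by rintro _ ⟨y, hy, rfl⟩; exact hS₁le y hy⟩
  have hS₁n : S₁.Nonempty := hne.image _
  set w₁ : ℝ := sSup S₁ with hw₁
  have hw₁le : ∀ y ∈ K, |⟪b 0, y - p⟫| ≤ w₁ := fun y hy => le_csSup hS₁b ⟨y, hy, rfl⟩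
  have hw₁w₂ : w₁ ≤ w₂ := csSup_le hS₁n (by rintro _ ⟨y, hy, rfl⟩; exact hS₁le y hy)
  have hw₁0' : 0 ≤ w₁ := (abs_nonneg _).trans (hw₁le p hp)
  have hbox : InBox b p w₁ w₂ D K := fun y hy =>
    ⟨hw₁le y hy, (hPf _ (b.norm_eq_one _) o12 y).trans (hw₂le y hy),
      hlong _ (b.norm_eq_one _) y hy⟩
  have hw₁0 : 0 < w₁ := by
    rcases hw₁0'.eq_or_lt with h | h
    · exfalso
      have h1 := box_vol hw₁0' hw₂0' hbox
      rw [← h] at h1
      simp only [mul_zero, zero_mul, ENNReal.ofReal_zero] at h1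
      exact hv (le_antisymm h1 zero_le)
    · exact h
  obtain ⟨_, ⟨y₂, hy₂, rfl⟩, hyw₁⟩ :=
    exists_lt_of_lt_csSup hS₁n (by rw [← hw₁]; linarith : w₁ / 2 < sSup S₁)
  simp only at hyw₁
  set a : ℝ := ⟪b 0, y₂ - p⟫ with ha
  set v₂ : ℝ := ⟪b 1, y₂ - p⟫ with hv₂
  set u₂ : ℝ := ⟪b 2, y₂ - p⟫ with hu₂
  set u₁ : ℝ := ⟪b 2, y₁ - p⟫ with hu₁
  have ha0 : a ≠ 0 := by
    intro h; rw [h, abs_zero] at hyw₁; linarith
  have hexp : ∀ z : E3, z = ⟪b 0, z⟫ • b 0 + ⟪b 1, z⟫ • b 1 + ⟪b 2, z⟫ • b 2 := by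
    intro z
    have h := b.sum_repr' z
    rw [Fin.sum_univ_three] at h
    exact h.symm
  have eq1 : q - p = l • b 2 := by
    rw [hb2, he₀, smul_smul, mul_inv_cancel₀ hl0.ne', one_smul]
  have eP : P y₁ = v₁ • e₁ := by
    rw [he₁, smul_smul, mul_inv_cancel₀ hv₁0.ne', one_smul]
  have eq2 : y₁ - p = v₁ • b 1 + u₁ • b 2 := by
    have h1 : y₁ - p = P y₁ + ⟪e₀, y₁ - p⟫ • e₀ := by simp only [hP]; abel
    rw [hu₁, hb2, hb1, ← eP]
    exact h1
  have eq3 : y₂ - p = a • b 0 + v₂ • b 1 + u₂ • b 2 := hexp _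
  set Ψ : E3 → ℝ × (ℝ × ℝ) := fun y => (fun z : ℝ × (ℝ × ℝ) =>
      (z.1, ((z.2.1 - v₂ / a * z.1, z.2.2 - u₂ / a * z.1 - u₁ / v₁ * (z.2.1 - v₂ / a * z.1)) :
        ℝ × ℝ))) (ceq3 b (y - p)) with hΨ
  have hΨm : MeasurePreserving Ψ volume volume :=
    (mp_shear3 (v₂ / a) (u₂ / a) (u₁ / v₁)).comp (mp_sub b p)
  have hsub : Ψ ⁻¹' (uIcc 0 (a / 3) ×ˢ (Icc 0 (v₁ / 3) ×ˢ Icc 0 (l / 3))) ⊆ K := by
    rintro y ⟨h1, h2, h3⟩
    simp only [hΨ, ceq3_apply] at h1 h2 h3
    set s : ℝ := ⟪b 0, y - p⟫ with hs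
    set t : ℝ := ⟪b 1, y - p⟫ with ht
    set r : ℝ := ⟪b 2, y - p⟫ with hr
    set γ : ℝ := s / a with hγ
    set β : ℝ := (t - v₂ / a * s) / v₁ with hβ
    set α : ℝ := (r - u₂ / a * s - u₁ / v₁ * (t - v₂ / a * s)) / l with hα
    have hγ0 : 0 ≤ γ ∧ γ ≤ 1 / 3 := by
      rw [mem_uIcc] at h1
      rcases h1 with ⟨h4, h5⟩ | ⟨h4, h5⟩
      · have ha1 : 0 < a := lt_of_le_of_ne (by linarith) (Ne.symm ha0)
        exact ⟨div_nonneg h4 ha1.le, by rw [hγ, div_le_iff₀ ha1]; linarith⟩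
      · have ha1 : a < 0 := lt_of_le_of_ne (by linarith) ha0
        exact ⟨div_nonneg_of_nonpos h5 ha1.le, by rw [hγ, div_le_iff_of_neg ha1]; linarith⟩
    have hβ0 : 0 ≤ β ∧ β ≤ 1 / 3 :=
      ⟨div_nonneg h2.1 hv₁0.le, by rw [hβ, div_le_iff₀ hv₁0]; linarith [h2.2]⟩
    have hα0 : 0 ≤ α ∧ α ≤ 1 / 3 :=
      ⟨div_nonneg h3.1 hl0.le, by rw [hα, div_le_iff₀ hl0]; linarith [h3.2]⟩
    have e : y = (1 - α - β - γ) • p + α • q + β • y₁ + γ • y₂ := by
      have g1 : y = p + (s • b 0 + t • b 1 + r • b 2) := by rw [← hexp (y - p)]; abel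
      have g2 : q = p + l • b 2 := by rw [← eq1]; abel
      have g3 : y₁ = p + (v₁ • b 1 + u₁ • b 2) := by rw [← eq2]; abel
      have g4 : y₂ = p + (a • b 0 + v₂ • b 1 + u₂ • b 2) := by rw [← eq3]; abel
      have g5 : s = γ * a := by rw [hγ]; field_simp
      have g6 : t = β * v₁ + γ * v₂ := by rw [hβ, hγ]; field_simp; ring
      have g7 : r = α * l + β * u₁ + γ * u₂ := by rw [hα, hβ, hγ]; field_simp; ring
      rw [g1, g2, g3, g4, g5, g6, g7]
      module
    rw [e]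
    have h6 : 0 ≤ 1 - α - β - γ := by linarith [hα0.2, hβ0.2, hγ0.2]
    have h7 := hK.sum_mem (t := Finset.univ) (w := ![1 - α - β - γ, α, β, γ]) (z := ![p, q, y₁, y₂])
      (by intro i _; fin_cases i <;> simp [hα0.1, hβ0.1, hγ0.1, h6])
      (by simp [Fin.sum_univ_four]; ring) (by intro i _; fin_cases i <;> simp [hp, hq, hy₁, hy₂])
    simpa [Fin.sum_univ_four] using h7
  have hvol : ENNReal.ofReal (|a| * v₁ * l / 27) ≤ volume K := by
    have h1 : volume (Ψ ⁻¹' (uIcc 0 (a / 3) ×ˢ (Icc 0 (v₁ / 3) ×ˢ Icc 0 (l / 3)))) =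
        ENNReal.ofReal (|a| * v₁ * l / 27) := by
      rw [hΨm.measure_preimage
        (measurableSet_uIcc.prod (measurableSet_Icc.prod measurableSet_Icc)).nullMeasurableSet,
        Measure.volume_eq_prod, Measure.prod_prod, Measure.volume_eq_prod, Measure.prod_prod,
        Real.volume_interval, Real.volume_Icc, Real.volume_Icc, ← ENNReal.ofReal_mul (by linarith),
        ← ENNReal.ofReal_mul (abs_nonneg _)]
      congr 1
      rw [sub_zero, abs_div]
      norm_num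
      ring
    rw [← h1]
    exact measure_mono hsub
  refine ⟨b, p, w₁, w₂, D, hw₁0, hw₁w₂, hw₂D, hbox, ?_⟩
  calc ENNReal.ofReal (8 * w₁ * w₂ * D) ≤ ENNReal.ofReal (1728 * (|a| * v₁ * l / 27)) := by
        refine ENNReal.ofReal_le_ofReal ?_
        have h1 : w₁ * w₂ ≤ (2 * |a|) * (2 * v₁) :=
          mul_le_mul (by linarith) (by linarith) hw₂0.le (by positivity)
        have h2 : w₁ * w₂ * D ≤ (2 * |a|) * (2 * v₁) * (2 * l) :=
          mul_le_mul h1 (by linarith) hD0.le (by positivity)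
        nlinarith
    _ = 1728 * ENNReal.ofReal (|a| * v₁ * l / 27) := by
        rw [ENNReal.ofReal_mul (by norm_num)]; norm_num
    _ ≤ 1728 * volume K := by gcongr

lemma closure_ae {Q : Set E3} (hQ : Convex ℝ Q) : closure Q =ᵐ[volume] Q := by
  have h1 : volume (frontier Q) = 0 := Convex.addHaar_frontier volume hQ
  have h2 : ∀ᵐ y, y ∉ frontier Q := by
    rw [ae_iff]; simpa using h1
  filter_upwards [h2] with y hy
  refine propext ⟨fun h => ?_, fun h => subset_closure h⟩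
  by_contra hc
  exact hy ⟨h, fun h' => hc (interior_subset h')⟩

/-- a union of `m` bounded convex sets, up to null sets -/
def CU (m : ℕ) (K : Set E3) : Prop :=
  ∃ C : Fin m → Set E3, (∀ i, Convex ℝ (C i) ∧ Bornology.IsBounded (C i)) ∧
    K =ᵐ[volume] ⋃ i, C i

theorem cu_nice {m : ℕ} {K : Set E3} (h : CU m K) : Nice (1728 + 2 ^ m) K := by
  classical
  obtain ⟨C, hC, hKC⟩ := h
  rcases eq_or_ne (volume K) 0 with hv | hv
  · refine ⟨0, Nat.zero_le _, Fin.elim0, Fin.elim0, fun i => i.elim0, ?_⟩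
    have h1 : ∀ᵐ y, y ∉ K := by rw [ae_iff]; simpa using hv
    filter_upwards [h1] with y hy
    rw [indicator_of_notMem hy]; simp
  set Q : Finset (Fin m) → Set E3 := fun s => ⋂ i ∈ s, C i with hQ
  have hQc : ∀ s, Convex ℝ (Q s) := fun s => convex_iInter₂ fun i _ => (hC i).1
  have hQK : ∀ s : Finset (Fin m), s.Nonempty → volume (Q s) ≤ volume K := by
    rintro s ⟨i, hi⟩
    rw [measure_congr hKC]
    exact measure_mono ((iInter₂_subset i hi).trans (subset_iUnion C i))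
  have hQb : ∀ s : Finset (Fin m), s.Nonempty → Bornology.IsBounded (Q s) := by
    rintro s ⟨i, hi⟩
    exact (hC i).2.subset (iInter₂_subset i hi)
  have hKt : volume K < ⊤ := by
    rw [measure_congr hKC]
    exact ((Bornology.isBounded_iUnion).2 fun i => (hC i).2).measure_lt_top
  set A : Finset (Fin m) → Set E3 := fun s =>
    if s.Nonempty ∧ volume (Q s) ≠ 0 then closure (Q s) else ∅ with hA
  set ε : Finset (Fin m) → ℝ := fun s => if s.Nonempty then (-1) ^ (s.card + 1) else 0 with hε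
  set e : Fin (2 ^ m) ≃ Finset (Fin m) := (Fintype.equivFinOfCardEq (by simp)).symm with he
  have hNN : (1728 : ℝ≥0∞) ≤ ((1728 + 2 ^ m : ℕ) : ℝ≥0∞) := by
    exact_mod_cast Nat.le_add_right 1728 (2 ^ m)
  have hN1 : 1 ≤ 1728 + 2 ^ m := le_trans (by norm_num) (Nat.le_add_right 1728 _)
  have hgood : ∀ s, |ε s| ≤ 1 ∧ MeasurableSet (A s) ∧ LineN (1728 + 2 ^ m) (A s) ∧
      ∃ (b : OrthonormalBasis (Fin 3) ℝ E3) (c : E3) (d₁ d₂ d₃ : ℝ), 0 < d₁ ∧ d₁ ≤ d₂ ∧ d₂ ≤ d₃ ∧
        InBox b c d₁ d₂ d₃ (A s) ∧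
          ENNReal.ofReal (8 * d₁ * d₂ * d₃) ≤ (1728 + 2 ^ m : ℕ) * volume K := by
    intro s
    refine ⟨?_, ?_, ?_, ?_⟩
    · simp only [hε]
      split_ifs
      · rw [abs_pow, abs_neg, abs_one, one_pow]
      · simp
    · simp only [hA]
      split_ifs
      · exact isClosed_closure.measurableSet
      · exact MeasurableSet.empty
    · simp only [hA]
      split_ifs
      · exact convex_line (hQc s).closure hN1
      · exact convex_line convex_empty hN1
    · by_cases hc : s.Nonempty ∧ volume (Q s) ≠ 0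
      · have e1 : A s = closure (Q s) := by simp only [hA]; rw [if_pos hc]
        rw [e1]
        have hm : volume (closure (Q s)) = volume (Q s) := measure_congr (closure_ae (hQc s))
        obtain ⟨b, c, d₁, d₂, d₃, h1, h2, h2', h3, h4⟩ := convex_box (hQc s).closure
          (hQb s hc.1).closure (by rw [hm]; exact hc.2)
        refine ⟨b, c, d₁, d₂, d₃, h1, h2, h2', h3, h4.trans ?_⟩
        rw [hm]
        exact mul_le_mul' hNN (hQK s hc.1)
      · have e1 : A s = ∅ := by simp only [hA]; rw [if_neg hc]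
        rw [e1]
        obtain ⟨b, -⟩ := exists_basis1 (e := EuclideanSpace.single 0 1) (by simp)
        have hv0 : 0 < (volume K).toReal := ENNReal.toReal_pos hv hKt.ne
        set κ : ℝ := (volume K).toReal ^ (1 / 3 : ℝ) / 2 with hκ
        have hκ0 : 0 < κ := by positivity
        refine ⟨b, 0, κ, κ, κ, hκ0, le_rfl, le_rfl, fun y hy => absurd hy (notMem_empty y), ?_⟩
        have e2 : 8 * κ * κ * κ = (volume K).toReal := by
          have h1 : ((volume K).toReal ^ (1 / 3 : ℝ)) ^ 3 = (volume K).toReal := by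
            rw [← rpow_natCast, ← rpow_mul hv0.le]; norm_num
          calc 8 * κ * κ * κ = ((volume K).toReal ^ (1 / 3 : ℝ)) ^ 3 := by rw [hκ]; ring
            _ = _ := h1
        rw [e2, ENNReal.ofReal_toReal hKt.ne]
        exact le_mul_of_one_le_left zero_le (le_trans (by norm_num) hNN)
  refine ⟨2 ^ m, Nat.le_add_left _ _, fun i => A (e i), fun i => ε (e i), fun i => hgood (e i), ?_⟩
  · have hAQ : ∀ s : Finset (Fin m), s.Nonempty → A s =ᵐ[volume] Q s := by
      intro s hs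
      by_cases hc : volume (Q s) = 0
      · have e1 : A s = ∅ := by simp only [hA]; rw [if_neg (by tauto)]
        rw [e1]
        exact (ae_eq_empty.2 hc).symm
      · have e1 : A s = closure (Q s) := by simp only [hA]; rw [if_pos ⟨hs, hc⟩]
        rw [e1]
        exact closure_ae (hQc s)
    have hall : ∀ᵐ y, ∀ s : Finset (Fin m), s.Nonempty → (y ∈ A s ↔ y ∈ Q s) := by
      rw [ae_all_iff]
      intro s
      by_cases hs : s.Nonempty
      · filter_upwards [hAQ s hs] with y hy _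
        exact iff_of_eq hy
      · exact Eventually.of_forall fun y h => absurd h hs
    filter_upwards [hall, hKC] with y hy hyK
    have hyK' : y ∈ K ↔ y ∈ ⋃ i, C i := iff_of_eq hyK
    have h1 : K.indicator (1 : E3 → ℝ) y = (⋃ i ∈ (Finset.univ : Finset (Fin m)), C i).indicator
        (1 : E3 → ℝ) y := by
      have e3 : (⋃ i ∈ (Finset.univ : Finset (Fin m)), C i) = ⋃ i, C i := by simp
      rw [e3]
      by_cases h : y ∈ K
      · rw [indicator_of_mem h, indicator_of_mem (hyK'.1 h)]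
      · rw [indicator_of_notMem h, indicator_of_notMem (fun h' => h (hyK'.2 h'))]
    rw [h1, Finset.indicator_biUnion_eq_sum_powerset, e.sum_comp (fun s => ε s *
      (A s).indicator (1 : E3 → ℝ) y), Finset.powerset_univ, Finset.sum_filter]
    refine Finset.sum_congr rfl fun s _ => ?_
    by_cases hs : s.Nonempty
    · rw [if_pos hs]
      simp only [hε]
      rw [if_pos hs]
      have h2 := hy s hs
      by_cases h3 : y ∈ A s
      · rw [indicator_of_mem h3, indicator_of_mem (h2.1 h3)]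
        simp
      · rw [indicator_of_notMem h3, indicator_of_notMem (fun h' => h3 (h2.2 h'))]
        simp
    · rw [if_neg hs]
      simp only [hε]
      rw [if_neg hs, zero_mul]

lemma Nice.mono {N M : ℕ} (h : N ≤ M) {K : Set E3} (hK : Nice N K) : Nice M K := by
  obtain ⟨m, hm, A, ε, hA, hc⟩ := hK
  refine ⟨m, hm.trans h, A, ε, fun i => ?_, hc⟩
  obtain ⟨h1, h2, h3, b, c, d₁, d₂, d₃, h4, h5, h5', h6, h7⟩ := hA i
  refine ⟨h1, h2, fun p v hv => (h3 p v hv).mono h, b, c, d₁, d₂, d₃, h4, h5, h5', h6,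
    h7.trans ?_⟩
  gcongr

end Pool.Agent.Helper854_Q3
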