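import Mathlib
import Pool.Agent.Helper854_Q3.Fou
import Pool.Agent.Helper854_SP.Conv

/-! The maximal inequality. -/

set_option autoImplicit false

open MeasureTheory Real Set Filter Topology FourierTransform
open scoped ENNReal NNReal RealInnerProductSpace ComplexConjugate

namespace Pool.Agent.Helper854_Q3

variable {N : ℕ}

/-- the four positive parts of `f` -/
noncomputable def PP (f : E3 → ℂ) (k : ℕ) (y : E3) : ℝ := max ((Complex.I ^ k * f y).re) 0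

lemma PP_meas {f : E3 → ℂ} (hf : Measurable f) (k : ℕ) : Measurable (PP f k) := by
  unfold PP
  exact (Complex.measurable_re.comp (hf.const_mul _)).max measurable_const

lemma PP_nonneg (f : E3 → ℂ) (k : ℕ) (y : E3) : 0 ≤ PP f k y := le_max_right _ _

lemma PP_le (f : E3 → ℂ) (k : ℕ) (y : E3) : PP f k y ≤ ‖f y‖ := by
  refine max_le ?_ (norm_nonneg _)
  refine (Complex.re_le_norm _).trans ?_
  rw [norm_mul, norm_pow, Complex.norm_I, one_pow, one_mul]

lemma PP_memLp {f : E3 → ℂ} (hf : Measurable f) (h : MemLp f 2) (k : ℕ) : MemLp (PP f k) 2 := by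
  refine h.mono (PP_meas hf k).aestronglyMeasurable (Eventually.of_forall fun y => ?_)
  rw [Real.norm_eq_abs, abs_of_nonneg (PP_nonneg f k y)]
  exact PP_le f k y

lemma PP_lv (f : E3 → ℂ) (k : ℕ) {t : ℝ} (ht : 0 < t) :
    Lv (PP f k) t = {y | t < (Complex.I ^ k * f y).re} := by
  ext y
  simp only [Lv, PP, mem_ofPred_eq, lt_max_iff]
  constructor
  · rintro (h | h)
    · exact h
    · linarith
  · exact Or.inl

lemma PP_sum (f : E3 → ℂ) (y : E3) :
    f y = ((PP f 0 y : ℝ) : ℂ) - ((PP f 2 y : ℝ) : ℂ) +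
      (((PP f 3 y : ℝ) : ℂ) - ((PP f 1 y : ℝ) : ℂ)) * Complex.I := by
  have h0 : (Complex.I ^ 0 * f y).re = (f y).re := by simp
  have h1 : (Complex.I ^ 1 * f y).re = -(f y).im := by simp
  have h2 : (Complex.I ^ 2 * f y).re = -(f y).re := by simp
  have h3 : (Complex.I ^ 3 * f y).re = (f y).im := by simp [Complex.I_pow_three]
  unfold PP
  rw [h0, h1, h2, h3]
  have key : ∀ a : ℝ, max a 0 - max (-a) 0 = a := fun a => by
    rcases le_total 0 a with h | h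
    · rw [max_eq_left h, max_eq_right (by linarith)]; ring
    · rw [max_eq_right h, max_eq_left (by linarith)]; ring
  apply Complex.ext
  · simp [key]
  · simp [key]

lemma SK_sum {f : L2S} {R : ℝ} (hR : 0 < R) (x : E3) :
    SK f R x = ((VP R (PP f 0) x : ℝ) : ℂ) - ((VP R (PP f 2) x : ℝ) : ℂ) +
      (((VP R (PP f 3) x : ℝ) : ℂ) - ((VP R (PP f 1) x : ℝ) : ℂ)) * Complex.I := by
  have hm : Measurable (f : E3 → ℂ) := (Lp.stronglyMeasurable f).measurable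
  have hi : ∀ k, Integrable fun y => (((PP f k y * gk3 R ‖x - y‖ : ℝ)) : ℂ) := fun k =>
    ((PP_memLp hm (Lp.memLp f) k).integrable_mul (gk_memLp hR x)).ofReal
  unfold SK VP
  rw [← integral_complex_ofReal, ← integral_complex_ofReal, ← integral_complex_ofReal,
    ← integral_complex_ofReal, ← integral_sub (hi 0) (hi 2), ← integral_sub (hi 3) (hi 1),
    ← integral_mul_const]
  have i1 : Integrable fun y => (((PP f 0 y * gk3 R ‖x - y‖ : ℝ)) : ℂ) -
      (((PP f 2 y * gk3 R ‖x - y‖ : ℝ)) : ℂ) := (hi 0).sub (hi 2)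
  have i2 : Integrable fun y => ((((PP f 3 y * gk3 R ‖x - y‖ : ℝ)) : ℂ) -
      (((PP f 1 y * gk3 R ‖x - y‖ : ℝ)) : ℂ)) * Complex.I := ((hi 3).sub (hi 1)).mul_const _
  rw [← integral_add i1 i2]
  refine integral_congr_ae (Eventually.of_forall fun y => ?_)
  simp only
  conv_lhs => rw [PP_sum f y]
  push_cast
  ring

/-- the pointwise majorant -/
noncomputable def JJ (f : E3 → ℂ) (k : ℕ) (x : E3) : ℝ≥0∞ :=
  ∫⁻ t in Ioi (0 : ℝ), UU (PP f k) t x

lemma JJ_meas {f : E3 → ℂ} (hf : Measurable f) (k : ℕ) : Measurable (JJ f k) :=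
  (UU_meas (PP_meas hf k)).lintegral_prod_left'

lemma SS_le (f : L2S) {R : ℝ} (hR : 0 < R) (x : E3) :
    ‖SS f R x‖ₑ ≤ ∑ k : Fin 4, JJ f k x := by
  have hm : Measurable (f : E3 → ℂ) := (Lp.stronglyMeasurable f).measurable
  have h : ∀ k, ‖((VP R (PP f k) x : ℝ) : ℂ)‖ₑ ≤ JJ f k x := fun k => by
    have := VP_le (PP_meas hm k) (PP_nonneg f k) (PP_memLp hm (Lp.memLp f) k) x hR
    rwa [← ofReal_norm, Complex.norm_real, ofReal_norm]
  rw [SS_eq hR, SK_sum hR, Fin.sum_univ_four]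
  calc _ ≤ ‖((VP R (PP f 0) x : ℝ) : ℂ) - ((VP R (PP f 2) x : ℝ) : ℂ)‖ₑ +
        ‖(((VP R (PP f 3) x : ℝ) : ℂ) - ((VP R (PP f 1) x : ℝ) : ℂ)) * Complex.I‖ₑ :=
          enorm_add_le _ _
    _ ≤ (‖((VP R (PP f 0) x : ℝ) : ℂ)‖ₑ + ‖((VP R (PP f 2) x : ℝ) : ℂ)‖ₑ) +
        (‖((VP R (PP f 3) x : ℝ) : ℂ)‖ₑ + ‖((VP R (PP f 1) x : ℝ) : ℂ)‖ₑ) := by
          refine add_le_add (enorm_sub_le) ?_
          rw [enorm_mul]
          have : ‖Complex.I‖ₑ = 1 := by rw [← ofReal_norm, Complex.norm_I, ENNReal.ofReal_one]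
          rw [this, mul_one]
          exact enorm_sub_le
    _ ≤ (JJ f 0 x + JJ f 2 x) + (JJ f 3 x + JJ f 1 x) :=
          add_le_add (add_le_add (h 0) (h 2)) (add_le_add (h 3) (h 1))
    _ = _ := by
          simp only [Fin.val_zero, Fin.val_one, Fin.val_two]
          have : ((3 : Fin 4) : ℕ) = 3 := rfl
          rw [this]
          ring

/-- the level sets of `f` -/
def NiceLv (N : ℕ) (f : E3 → ℂ) : Prop :=
  ∀ (k : ℕ) (t : ℝ), 0 < t → Nice N {y | t < (Complex.I ^ k * f y).re}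

lemma JJ_int {f : L2S} (hN : NiceLv N f) (k : ℕ) :
    ∫⁻ x, JJ f k x ^ 2 ≤ kC N * ∫⁻ y, ‖f y‖ₑ ^ 2 := by
  have hm : Measurable (f : E3 → ℂ) := (Lp.stronglyMeasurable f).measurable
  have h1 : ∀ t, 0 < t → Nice N (Lv (PP f k) t) := fun t ht => by
    rw [PP_lv _ _ ht]; exact hN k t ht
  refine (main_sq (PP_meas hm k) (PP_nonneg f k) h1).trans ?_
  · gcongr kC N * ?_
    refine lintegral_mono fun y => ?_
    gcongr
    rw [← ofReal_norm]
    exact ENNReal.ofReal_le_ofReal (PP_le f k y)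

theorem SS_max {f : L2S} (hN : NiceLv N f) :
    ∫⁻ x, (⨆ (R : ℝ) (_ : 0 < R), ‖SS f R x‖ₑ) ^ 2 ≤ 16 * kC N * ∫⁻ y, ‖f y‖ₑ ^ 2 := by
  have hm : Measurable (f : E3 → ℂ) := (Lp.stronglyMeasurable f).measurable
  calc ∫⁻ x, (⨆ (R : ℝ) (_ : 0 < R), ‖SS f R x‖ₑ) ^ 2
      ≤ ∫⁻ x, 4 * ∑ k : Fin 4, JJ f k x ^ 2 := by
        refine lintegral_mono fun x => ?_
        have h1 : (⨆ (R : ℝ) (_ : 0 < R), ‖SS f R x‖ₑ) ≤ ∑ k : Fin 4, JJ f k x :=
          iSup₂_le fun R hR => SS_le f hR x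
        have h2 := ENNReal.rpow_sum_le_const_mul_sum_rpow (Finset.univ : Finset (Fin 4))
          (fun k => JJ f k x) (p := 2) (by norm_num)
        simp only [ENNReal.rpow_two, Finset.card_univ, Fintype.card_fin] at h2
        calc (⨆ (R : ℝ) (_ : 0 < R), ‖SS f R x‖ₑ) ^ 2 ≤ (∑ k : Fin 4, JJ f k x) ^ 2 := by gcongr
          _ ≤ _ := h2.trans (le_of_eq (by norm_num))
    _ = 4 * ∑ k : Fin 4, ∫⁻ x, JJ f k x ^ 2 := by
        rw [lintegral_const_mul' _ _ (by norm_num)]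
        congr 1
        exact lintegral_finsetSum (f := fun (k : Fin 4) x => JJ f k x ^ 2) _
          fun k _ => (JJ_meas hm k).pow_const 2
    _ ≤ 4 * ∑ k : Fin 4, kC N * ∫⁻ y, ‖f y‖ₑ ^ 2 := by
        gcongr with k _
        exact JJ_int hN k
    _ = 16 * kC N * ∫⁻ y, ‖f y‖ₑ ^ 2 := by
        rw [Finset.sum_const, Finset.card_univ, Fintype.card_fin, nsmul_eq_mul]
        push_cast
        ring

lemma l2_enorm (f : L2S) : ∫⁻ y, ‖f y‖ₑ ^ 2 = ‖f‖ₑ ^ 2 := by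
  rw [Lp.enorm_def, Pool.Agent.Helper854_SP.eLp2, ← ENNReal.rpow_natCast, ← ENNReal.rpow_mul]
  norm_num

end Pool.Agent.Helper854_Q3
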