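import Mathlib
import Pool.Agent.Helper854_Q3.Mai

/-! Identification of the limit. -/

set_option autoImplicit false

open MeasureTheory Real Set Filter Topology FourierTransform
open scoped ENNReal NNReal RealInnerProductSpace ComplexConjugate

namespace Pool.Agent.Helper854_Q3

lemma SS_ps (f : L2S) (R : ℝ) (x : E3) :
    SS f R x = Pool.Agent.Helper93.Sph.ps (n := 3) ((𝓕 f : L2S) : E3 → ℂ) R x := rfl

lemma SS_cont_x (f : L2S) (R : ℝ) : Continuous fun x => SS f R x :=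
  Pool.Agent.Helper93.Sph.ps_cont_x (m := 2) (Lp.memLp (𝓕 f : L2S)) R

lemma SS_l2 (f : L2S) (R : ℝ) : ∫⁻ x, ‖SS f R x‖ₑ ^ 2 ≤ ‖f‖ₑ ^ 2 := by
  have h := Pool.Agent.Helper854_SP.ps_l2 (m := 2) (Lp.memLp (𝓕 f : L2S)) R
  refine h.trans (le_of_eq ?_)
  have h2 := l2_enorm (𝓕 f)
  have h3 : ‖(𝓕 f : L2S)‖ₑ = ‖f‖ₑ := by
    rw [← ofReal_norm, ← ofReal_norm, Lp.norm_fourier_eq]
  rw [h3] at h2
  exact h2

lemma SS_sub (f g : L2S) {R : ℝ} (hR : 0 < R) (x : E3) : SS (f - g) R x = SS f R x - SS g R x := by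
  rw [SS_eq hR, SS_eq hR, SS_eq hR, SK, SK, SK, ← integral_sub]
  · refine integral_congr_ae ?_
    filter_upwards [Lp.coeFn_sub f g] with y hy
    rw [hy, Pi.sub_apply, mul_sub]
  · exact (gkC_memLp hR x).integrable_mul (Lp.memLp f)
  · exact (gkC_memLp hR x).integrable_mul (Lp.memLp g)

/-- pointwise convergence for Schwartz functions -/
lemma SS_schwartz (g : SchwartzMap E3 ℂ) (x : E3) :
    Tendsto (fun R : ℝ => SS (g.toLp 2) R x) atTop (𝓝 (g x)) := by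
  have h1 : ((𝓕 (g.toLp 2 : L2S) : L2S) : E3 → ℂ) =ᵐ[volume] (𝓕 g : SchwartzMap E3 ℂ) := by
    rw [SchwartzMap.toLp_fourier_eq]
    exact SchwartzMap.coeFn_toLp _ _ _
  have hi : Integrable (fun ξ => ex x ξ * (𝓕 g : SchwartzMap E3 ℂ) ξ) := by
    refine ((𝓕 g : SchwartzMap E3 ℂ).integrable (μ := volume)).bdd_mul (c := 1) ?_
      (Eventually.of_forall fun ξ => (ex_norm _ _).le)
    exact (ex_cont.comp (by fun_prop : Continuous fun ξ : E3 => (x, ξ))).aestronglyMeasurable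
  have h2 : ∀ R : ℝ, SS (g.toLp 2) R x =
      ∫ ξ in Metric.closedBall (0 : E3) R, ex x ξ * (𝓕 g : SchwartzMap E3 ℂ) ξ := by
    intro R
    unfold SS
    refine setIntegral_congr_ae Metric.isClosed_closedBall.measurableSet ?_
    filter_upwards [h1] with ξ hξ _
    rw [hξ]
  have h3 : g x = ∫ ξ, ex x ξ * (𝓕 g : SchwartzMap E3 ℂ) ξ := by
    have h4 : (𝓕⁻ (𝓕 g : SchwartzMap E3 ℂ) : SchwartzMap E3 ℂ) = g := by simp
    conv_lhs => rw [← h4]
    rw [SchwartzMap.fourierInv_coe, Real.fourierInv_eq']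
    refine integral_congr_ae (Eventually.of_forall fun ξ => ?_)
    simp only
    rw [smul_eq_mul, ex, real_inner_comm]
    congr 2
    push_cast
    ring
  simp_rw [h2]
  rw [h3]
  exact (aecover_closedBall (μ := volume) (x := (0 : E3)) tendsto_id).integral_tendsto_of_countably_generated hi

lemma fatou {f : L2S} {L : E3 → ℂ} {u : ℕ → ℝ} (hu : Tendsto u atTop atTop)
    (hL : ∀ᵐ x, Tendsto (fun n : ℕ => SS f (u n) x) atTop (𝓝 (L x))) (g : SchwartzMap E3 ℂ) :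
    ∫⁻ x, ‖L x - g x‖ₑ ^ 2 ≤ ‖f - g.toLp 2 volume‖ₑ ^ 2 := by
  have h1 : ∀ᵐ x, ‖L x - g x‖ₑ ^ 2 =
      liminf (fun n : ℕ => ‖SS (f - g.toLp 2 volume) (u n) x‖ₑ ^ 2) atTop := by
    filter_upwards [hL] with x hx
    refine (Tendsto.liminf_eq ?_).symm
    have h2 := (SS_schwartz g x).comp hu
    have h3 : Tendsto (fun n : ℕ => ‖SS f (u n) x - SS (g.toLp 2 volume) (u n) x‖ₑ ^ 2) atTop
        (𝓝 (‖L x - g x‖ₑ ^ 2)) :=
      ((ENNReal.continuous_pow 2).tendsto _).comp ((hx.sub h2).enorm)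
    refine h3.congr' ?_
    filter_upwards [hu.eventually_gt_atTop 0] with n hn
    rw [SS_sub _ _ hn]
  rw [lintegral_congr_ae h1]
  refine (lintegral_liminf_le fun n => ((SS_cont_x _ _).enorm.measurable.pow_const 2)).trans ?_
  refine liminf_le_of_frequently_le' ?_
  exact Frequently.of_forall fun n => SS_l2 _ _

theorem ident {f : L2S} {L : E3 → ℂ} {u : ℕ → ℝ} (hu : Tendsto u atTop atTop)
    (hL : ∀ᵐ x, Tendsto (fun n : ℕ => SS f (u n) x) atTop (𝓝 (L x))) : L =ᵐ[volume] f := by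
  have hLm : AEStronglyMeasurable L volume :=
    aestronglyMeasurable_of_tendsto_ae atTop (fun n : ℕ => (SS_cont_x f (u n)).aestronglyMeasurable) hL
  have hd : DenseRange (SchwartzMap.toLpCLM ℂ (E := E3) ℂ 2 volume) :=
    SchwartzMap.denseRange_toLpCLM ENNReal.ofNat_ne_top
  have key : ∀ ε : ℝ, 0 < ε → ∫⁻ x, ‖L x - f x‖ₑ ^ 2 ≤ 4 * ENNReal.ofReal ε ^ 2 := by
    intro ε hε
    obtain ⟨g, hg⟩ := hd.exists_dist_lt f hε
    have hg' : ‖f - g.toLp 2 volume‖ₑ ≤ ENNReal.ofReal ε := by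
      rw [← ofReal_norm, ← dist_eq_norm]
      exact ENNReal.ofReal_le_ofReal hg.le
    have h1 := fatou hu hL g
    have h2 : ∫⁻ x, ‖g x - f x‖ₑ ^ 2 = ‖f - g.toLp 2 volume‖ₑ ^ 2 := by
      rw [← l2_enorm]
      refine lintegral_congr_ae ?_
      have h3 : (g.toLp 2 : L2S) =ᵐ[volume] (g : E3 → ℂ) := SchwartzMap.coeFn_toLp _ _ _
      filter_upwards [Lp.coeFn_sub f (g.toLp 2 volume), h3] with x hx hx3
      rw [hx, Pi.sub_apply, hx3, ← enorm_neg, neg_sub]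
    calc ∫⁻ x, ‖L x - f x‖ₑ ^ 2 ≤ ∫⁻ x, 2 * (‖L x - g x‖ₑ ^ 2 + ‖g x - f x‖ₑ ^ 2) := by
          refine lintegral_mono fun x => ?_
          have e : L x - f x = (L x - g x) + (g x - f x) := by ring
          rw [e]
          exact Pool.Agent.Helper93.Sph.enorm_add_sq_le _ _
      _ = 2 * ((∫⁻ x, ‖L x - g x‖ₑ ^ 2) + ∫⁻ x, ‖g x - f x‖ₑ ^ 2) := by
          rw [lintegral_const_mul' _ _ (by norm_num), lintegral_add_right' _ ?_]
          exact ((g.continuous.aestronglyMeasurable.sub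
            (Lp.aestronglyMeasurable f)).enorm.pow_const 2)
      _ ≤ 2 * (ENNReal.ofReal ε ^ 2 + ENNReal.ofReal ε ^ 2) := by
          rw [h2]
          gcongr
          exact h1.trans (by gcongr)
      _ = 4 * ENNReal.ofReal ε ^ 2 := by ring
  have h0 : ∫⁻ x, ‖L x - f x‖ₑ ^ 2 = 0 := by
    refine le_antisymm ?_ zero_le
    have h1 : Tendsto (fun ε : ℝ => 4 * ENNReal.ofReal ε ^ 2) (𝓝[>] 0) (𝓝 (4 * ENNReal.ofReal 0 ^ 2)) := by
      refine ENNReal.Tendsto.const_mul ?_ (Or.inr (by norm_num))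
      refine ((ENNReal.continuous_pow 2).tendsto _).comp ?_
      exact (ENNReal.continuous_ofReal.tendsto 0).mono_left nhdsWithin_le_nhds
    rw [ENNReal.ofReal_zero, zero_pow two_ne_zero, mul_zero] at h1
    refine ge_of_tendsto h1 ?_
    filter_upwards [self_mem_nhdsWithin] with ε hε
    exact key ε hε
  have hmm : AEMeasurable (fun x => ‖L x - f x‖ₑ ^ 2) volume :=
    (hLm.sub (Lp.aestronglyMeasurable f)).enorm.pow_const 2
  rw [lintegral_eq_zero_iff' hmm] at h0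
  filter_upwards [h0] with x hx
  have h3 : ‖L x - f x‖ₑ = 0 := by simpa using hx
  rwa [enorm_eq_zero, sub_eq_zero] at h3

end Pool.Agent.Helper854_Q3
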